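import Pool.Agent.TH729.CC.TQ
import Pool.Agent.TH729.SQ.Values
import Pool.Agent.TH729.SQ.Comp

/-!
# Closures of Diophantine sets given by blocks of one cubic or two quadratic equations (helper729)
-/

set_option autoImplicit false
set_option linter.unusedSimpArgs false
set_option linter.unusedTactic false
set_option linter.unusedSectionVars false

namespace Pool.Agent.TH729.CC

open Set Filter Topology Pool.Agent.H581R2 Pool.Agent.TH729.SQ MvPolynomial

lemma alg_of_alg (K : Type) [Field K] [CharZero K] [Algebra.IsAlgebraic ℚ K] (σ : K →+* ℝ)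
    (r : K) : IsAlgebraic ℚ (σ r) := by
  have h := Algebra.IsAlgebraic.isAlgebraic (R := ℚ) r
  have hc : σ.comp (algebraMap ℚ K) = algebraMap ℚ ℝ := Subsingleton.elim _ _
  obtain ⟨p, hp, hp2⟩ := h
  refine ⟨p, hp, ?_⟩
  rw [Polynomial.aeval_def, ← hc, ← Polynomial.hom_eval₂, ← Polynomial.aeval_def, hp2,
    map_zero]

/-- one block -/
theorem block_SA (K : Type) [Field K] [CharZero K] [Algebra.IsAlgebraic ℚ K] (σ : K →+* ℝ)
    (n : ℕ) (f g : MvPolynomial (Fin n) K)
    (h : (f.totalDegree ≤ 2 ∧ g.totalDegree ≤ 2) ∨ (f.totalDegree ≤ 3 ∧ g = 0)) :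
    SA (closure ((fun (r : Fin n → K) i => σ (r i)) '' {r | eval r f = 0 ∧ eval r g = 0})) := by
  rcases h with ⟨hf, hg⟩ | ⟨hf, rfl⟩
  · have h2 := affine_SA2 σ (alg_of_alg K σ) f g hf hg
    have h3 : {x : Fin n → ℝ | ∃ r : Fin n → K, (eval r f = 0 ∧ eval r g = 0) ∧
        x = fun i => σ (r i)} =
        (fun (r : Fin n → K) i => σ (r i)) '' {r | eval r f = 0 ∧ eval r g = 0} := by
      ext x
      constructor
      · rintro ⟨r, hr, rfl⟩
        exact ⟨r, hr, rfl⟩
      · rintro ⟨r, hr, rfl⟩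
        exact ⟨r, hr, rfl⟩
    rwa [h3] at h2
  · have h2 := affine_SA σ (alg_of_alg K σ) f hf
    have h3 : {x : Fin n → ℝ | ∃ r : Fin n → K, eval r f = 0 ∧ x = fun i => σ (r i)} =
        (fun (r : Fin n → K) i => σ (r i)) '' {r | eval r f = 0 ∧
          eval r (0 : MvPolynomial (Fin n) K) = 0} := by
      ext x
      constructor
      · rintro ⟨r, hr, rfl⟩
        exact ⟨r, ⟨hr, map_zero _⟩, rfl⟩
      · rintro ⟨r, ⟨hr, -⟩, rfl⟩
        exact ⟨r, hr, rfl⟩
    rwa [h3] at h2

/-- values of rational functions at the rational points of products of blocks -/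
theorem dio_SA {ι κ : Type} [Finite ι] [Finite κ] {n : ℕ} (f g : ι → MvPolynomial (Fin n) ℚ)
    (hfg : ∀ j, ((f j).totalDegree ≤ 2 ∧ (g j).totalDegree ≤ 2) ∨
      ((f j).totalDegree ≤ 3 ∧ g j = 0)) {m : ℕ}
    (p : Fin m → MvPolynomial ((ι × Fin n) ⊕ κ) ℚ) (q : MvPolynomial ((ι × Fin n) ⊕ κ) ℚ) :
    SA (closure {y : Fin m → ℝ | ∃ (x : ι → Fin n → ℚ) (u : κ → ℚ),
      (∀ j, eval (x j) (f j) = 0 ∧ eval (x j) (g j) = 0) ∧
      eval (Sum.elim (fun r => x r.1 r.2) u) q ≠ 0 ∧
      ∀ k, y k = ((eval (Sum.elim (fun r => x r.1 r.2) u) (p k) /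
        eval (Sum.elim (fun r => x r.1 r.2) u) q : ℚ) : ℝ)}) := by
  refine values_main (fun j => {r : Fin n → ℚ | eval r (f j) = 0 ∧ eval r (g j) = 0})
    (fun j => ?_) p q
  have h1 := block_SA ℚ (Rat.castHom ℝ) n (f j) (g j) (hfg j)
  have h4 : rl {r : Fin n → ℚ | eval r (f j) = 0 ∧ eval r (g j) = 0} =
      (fun (r : Fin n → ℚ) i => Rat.castHom ℝ (r i)) ''
        {r | eval r (f j) = 0 ∧ eval r (g j) = 0} := by
    ext x
    constructor
    · rintro ⟨r, hr, rfl⟩
      exact ⟨r, hr, rfl⟩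
    · rintro ⟨r, hr, rfl⟩
      exact ⟨r, hr, rfl⟩
  rwa [h4]

/-! ### The line -/

/-- the boundary of a semialgebraic subset of the line -/
theorem line {A : Set ℝ} {Q : Finset (Polynomial ℚ)}
    (hQ : ∀ s t : ℝ, (∀ q ∈ Q, SignType.sign (Polynomial.aeval s q) =
      SignType.sign (Polynomial.aeval t q)) → (s ∈ A ↔ t ∈ A)) :
    (frontier A).Finite ∧ ∀ x ∈ frontier A, IsAlgebraic ℚ x := by
  classical
  have key : ∀ x ∈ frontier A, ∃ q ∈ Q, q ≠ 0 ∧ Polynomial.aeval x q = 0 := by
    intro x hx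
    by_contra hno
    push Not at hno
    have h1 : ∀ᶠ t in 𝓝 x, ∀ q ∈ Q, SignType.sign (Polynomial.aeval x q) =
        SignType.sign (Polynomial.aeval t q) := by
      rw [Filter.eventually_all_finset]
      intro q hq
      by_cases h0 : q = 0
      · subst h0
        simp
      · have h2 := hno q hq h0
        have hc : ContinuousAt (fun t : ℝ => Polynomial.aeval t q) x := by
          have : Continuous fun t : ℝ => Polynomial.aeval t q := by
            simp only [Polynomial.aeval_def, Polynomial.eval₂_eq_eval_map]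
            exact (q.map (algebraMap ℚ ℝ)).continuous
          exact this.continuousAt
        rcases lt_or_gt_of_ne h2 with h3 | h3
        · filter_upwards [hc.eventually_lt_const h3] with t ht
          rw [sign_neg h3, sign_neg ht]
        · filter_upwards [hc.eventually_const_lt h3] with t ht
          rw [sign_pos h3, sign_pos ht]
    have h2 : ∀ᶠ t in 𝓝 x, (x ∈ A ↔ t ∈ A) := h1.mono fun t ht => hQ x t ht
    rw [frontier_eq_closure_inter_closure] at hx
    obtain ⟨hx1, hx2⟩ := hx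
    rw [mem_closure_iff_frequently] at hx1 hx2
    by_cases hxA : x ∈ A
    · obtain ⟨t, ht1, ht2⟩ := (hx2.and_eventually h2).exists
      exact ht1 (ht2.1 hxA)
    · obtain ⟨t, ht1, ht2⟩ := (hx1.and_eventually h2).exists
      exact hxA (ht2.2 ht1)
  constructor
  · refine (Set.Finite.biUnion (Q.finite_toSet) (t := fun q => {x : ℝ | q ≠ 0 ∧
      Polynomial.aeval x q = 0}) fun q _ => ?_).subset fun x hx => ?_
    · by_cases h0 : q = 0
      · simp [h0]
      · refine ((q.map (algebraMap ℚ ℝ)).roots.toFinset.finite_toSet).subset fun x hx => ?_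
        obtain ⟨-, hx⟩ := hx
        simp only [Finset.mem_coe, Multiset.mem_toFinset]
        rw [Polynomial.mem_roots ((Polynomial.map_ne_zero_iff (algebraMap ℚ ℝ).injective).2 h0),
          Polynomial.IsRoot, ← Polynomial.eval₂_eq_eval_map, ← Polynomial.aeval_def]
        exact hx
    · obtain ⟨q, hq, h0, h1⟩ := key x hx
      exact mem_biUnion hq ⟨h0, h1⟩
  · intro x hx
    obtain ⟨q, -, h0, h1⟩ := key x hx
    exact ⟨q, h0, h1⟩

/-- subsets of the line -/
theorem line_SA {S : Set (Fin 1 → ℝ)} (h : SA S) :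
    (frontier {t : ℝ | (fun _ => t) ∈ S}).Finite ∧
      ∀ x ∈ frontier {t : ℝ | (fun _ => t) ∈ S}, IsAlgebraic ℚ x := by
  classical
  obtain ⟨Q, hQ⟩ := SA.iff h
  refine line (Q := Q.image fun q => aeval (fun _ => Polynomial.X) q) fun s t hst => ?_
  refine hQ _ _ fun q hq => ?_
  have h1 := hst _ (Finset.mem_image_of_mem _ hq)
  have h2 : ∀ s : ℝ, Polynomial.aeval s (aeval (fun _ => Polynomial.X) q : Polynomial ℚ) =
      aeval (fun _ : Fin 1 => s) q := by
    intro s
    have h3 : (Polynomial.aeval s).comp (aeval (fun _ : Fin 1 => (Polynomial.X : Polynomial ℚ))) =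
        (aeval (fun _ : Fin 1 => s) : MvPolynomial (Fin 1) ℚ →ₐ[ℚ] ℝ) := by
      ext i
      simp
    exact DFunLike.congr_fun h3 q
  rwa [h2, h2] at h1

end Pool.Agent.TH729.CC
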