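import Pool.Agent.TH729.CC.Hom

/-!
# Intersections of two quadrics: the closure of the rational points (helper729)
-/

set_option autoImplicit false
set_option linter.unusedSimpArgs false
set_option linter.unusedTactic false
set_option linter.unusedSectionVars false

namespace Pool.Agent.TH729.CC

open Set Filter Topology Pool.Agent.H581R2 Pool.Agent.TH729.SQ

variable {m : ℕ} {K : Subfield ℝ}

/-- the product of a linear and a bilinear form, not symmetrized -/
noncomputable def lb (c : E m →ₗ[ℝ] ℝ) (b : E m →ₗ[ℝ] E m →ₗ[ℝ] ℝ) :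
    E m →ₗ[ℝ] E m →ₗ[ℝ] E m →ₗ[ℝ] ℝ :=
  LinearMap.mk₂ ℝ (fun x y => c x • b y)
    (fun x x' y => by rw [map_add, add_smul])
    (fun t x y => by rw [map_smul, smul_eq_mul, mul_smul])
    (fun x y y' => by rw [map_add, smul_add])
    (fun t x y => by rw [map_smul, smul_comm])

lemma lb_apply (c : E m →ₗ[ℝ] ℝ) (b : E m →ₗ[ℝ] E m →ₗ[ℝ] ℝ) (x y z : E m) :
    lb c b x y z = c x * b y z := rfl

/-- the product of a linear and a bilinear form, two slots exchanged -/
noncomputable def lb' (c : E m →ₗ[ℝ] ℝ) (b : E m →ₗ[ℝ] E m →ₗ[ℝ] ℝ) :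
    E m →ₗ[ℝ] E m →ₗ[ℝ] E m →ₗ[ℝ] ℝ :=
  LinearMap.mk₂ ℝ (fun x y => (b x y) • c)
    (fun x x' y => by rw [map_add, LinearMap.add_apply, add_smul])
    (fun t x y => by rw [map_smul, LinearMap.smul_apply, smul_eq_mul, mul_smul])
    (fun x y y' => by rw [map_add, add_smul])
    (fun t x y => by rw [map_smul, smul_eq_mul, mul_smul])

lemma lb'_apply (c : E m →ₗ[ℝ] ℝ) (b : E m →ₗ[ℝ] E m →ₗ[ℝ] ℝ) (x y z : E m) :
    lb' c b x y z = b x y * c z := rfl

/-- the cubic form of a pair of quadratic forms and a common zero -/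
noncomputable def pcub (B₁ B₂ : Bil m) (P : E m) : Tri m where
  f := (1 / 3 : ℝ) • ((lb (B₁.b P) B₂.b + (lb (B₁.b P) B₂.b).flip + lb' (B₁.b P) B₂.b) +
    (-1 : ℝ) • (lb (B₂.b P) B₁.b + (lb (B₂.b P) B₁.b).flip + lb' (B₂.b P) B₁.b))
  s12 x y z := by
    simp only [LinearMap.smul_apply, LinearMap.add_apply, LinearMap.sub_apply,
      LinearMap.flip_apply, lb_apply, lb'_apply, smul_eq_mul]
    rw [B₁.symm y x, B₂.symm y x]
    ring
  s23 x y z := by
    simp only [LinearMap.smul_apply, LinearMap.add_apply, LinearMap.sub_apply,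
      LinearMap.flip_apply, lb_apply, lb'_apply, smul_eq_mul]
    rw [B₁.symm z y, B₂.symm z y]
    ring

lemma pcub_apply (B₁ B₂ : Bil m) (P v : E m) :
    (pcub B₁ B₂ P).f v v v = B₁.b P v * B₂.b v v - B₂.b P v * B₁.b v v := by
  simp only [pcub, LinearMap.smul_apply, LinearMap.add_apply, LinearMap.sub_apply,
    LinearMap.flip_apply, lb_apply, lb'_apply, smul_eq_mul]
  ring

lemma pcub_rat {B₁ B₂ : Bil m} (h₁ : Rat2 B₁ K) (h₂ : Rat2 B₂ K) {P : E m} (hP : Rt K P) :
    Rat3 (pcub B₁ B₂ P) K := by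
  intro x y z hx hy hz
  simp only [pcub, LinearMap.smul_apply, LinearMap.add_apply, LinearMap.sub_apply,
    LinearMap.flip_apply, lb_apply, lb'_apply, smul_eq_mul, neg_mul, one_mul, ← sub_eq_add_neg]
  have h3 : (1 / 3 : ℝ) ∈ K := by
    refine K.div_mem K.one_mem ?_
    exact_mod_cast SubfieldClass.ratCast_mem K 3
  refine K.mul_mem h3 (K.sub_mem (K.add_mem (K.add_mem ?_ ?_) ?_) (K.add_mem (K.add_mem ?_ ?_) ?_))
  · exact K.mul_mem (h₁ _ _ hP hx) (h₂ _ _ hy hz)
  · exact K.mul_mem (h₁ _ _ hP hy) (h₂ _ _ hx hz)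
  · exact K.mul_mem (h₂ _ _ hx hy) (h₁ _ _ hP hz)
  · exact K.mul_mem (h₂ _ _ hP hx) (h₁ _ _ hy hz)
  · exact K.mul_mem (h₂ _ _ hP hy) (h₁ _ _ hx hz)
  · exact K.mul_mem (h₁ _ _ hx hy) (h₂ _ _ hP hz)

/-- the retraction of the cubic to the intersection of the quadrics -/
noncomputable def rtr (B : Bil m) (P w : E m) : E m :=
  (2 * B.b P w) • w - B.b w w • P

lemma rtr_cont (B : Bil m) (P : E m) : Continuous (rtr B P) :=
  ((continuous_const.mul (B.cont continuous_const continuous_id)).smul continuous_id).sub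
    ((B.cont continuous_id continuous_id).smul continuous_const)

lemma rtr_rt {B : Bil m} (hB : Rat2 B K) {P w : E m} (hP : Rt K P) (hw : Rt K w) :
    Rt K (rtr B P w) := by
  refine (hw.smul (K.mul_mem ?_ (hB _ _ hP hw))).sub (hP.smul (hB _ _ hw hw))
  exact_mod_cast SubfieldClass.ratCast_mem K 2

lemma rtr_zero (B₁ B₂ : Bil m) {P w : E m} (h₁ : B₁.b P P = 0) (h₂ : B₂.b P P = 0)
    (hw : (pcub B₁ B₂ P).f w w w = 0) :
    B₁.b (rtr B₁ P w) (rtr B₁ P w) = 0 ∧ B₂.b (rtr B₁ P w) (rtr B₁ P w) = 0 ∧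
      B₁.b P (rtr B₁ P w) = 2 * (B₁.b P w) ^ 2 := by
  rw [pcub_apply] at hw
  have s₁ := B₁.symm w P
  have s₂ := B₂.symm w P
  refine ⟨?_, ?_, ?_⟩
  · simp only [rtr, map_sub, map_smul, LinearMap.sub_apply, LinearMap.smul_apply,
      smul_eq_mul, h₁, s₁]
    ring
  · simp only [rtr, map_sub, map_smul, LinearMap.sub_apply, LinearMap.smul_apply,
      smul_eq_mul, h₂, s₂]
    linear_combination (4 * B₁.b P w) * hw
  · simp only [rtr, map_sub, map_smul, LinearMap.sub_apply, LinearMap.smul_apply,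
      smul_eq_mul, h₁]
    ring

/-- the closure of the common rational zeros -/
def W2 (B₁ B₂ : Bil m) (K : Subfield ℝ) : Set (E m) :=
  closure {v | Rt K v ∧ (B₁.b v v = 0 ∧ B₂.b v v = 0)}

lemma W2.smul {B₁ B₂ : Bil m} (t : ℝ) {u : E m} (hu : u ∈ W2 B₁ B₂ K) : t • u ∈ W2 B₁ B₂ K := by
  obtain ⟨x, hx, hx'⟩ := mem_closure_iff_seq_limit.1 hu
  obtain ⟨s, hs, hs'⟩ := seq_K (K := K) t
  refine mem_closure_of_tendsto (hs'.smul hx') (Eventually.of_forall fun n =>
    ⟨(hx n).1.smul (hs n), ?_, ?_⟩)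
  · simp only [map_smul, LinearMap.smul_apply, (hx n).2.1, smul_zero]
  · simp only [map_smul, LinearMap.smul_apply, (hx n).2.2, smul_zero]

/-- the part off the polar hyperplane of a common zero -/
lemma pair_open_eq {B₁ B₂ : Bil m} (hB₁ : Rat2 B₁ K)
    {P : E m} (hP : Rt K P) (h₁ : B₁.b P P = 0) (h₂ : B₂.b P P = 0) :
    closure {v | (B₁.b v v = 0 ∧ B₂.b v v = 0) ∧ B₁.b P v ≠ 0 ∧ v ∈ W (pcub B₁ B₂ P) K} ⊆
      W2 B₁ B₂ K ∧
    {v | Rt K v ∧ (B₁.b v v = 0 ∧ B₂.b v v = 0) ∧ B₁.b P v ≠ 0} ⊆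
      {v | (B₁.b v v = 0 ∧ B₂.b v v = 0) ∧ B₁.b P v ≠ 0 ∧ v ∈ W (pcub B₁ B₂ P) K} := by
  constructor
  · refine closure_minimal ?_ isClosed_closure
    rintro v ⟨⟨hv1, -⟩, hv3, hv4⟩
    obtain ⟨w, hw, hw'⟩ := W.seq hv4
    have h3 : rtr B₁ P v ∈ W2 B₁ B₂ K := by
      refine mem_closure_of_tendsto (((rtr_cont B₁ P).tendsto v).comp hw')
        (Eventually.of_forall fun n => ?_)
      obtain ⟨e1, e2, -⟩ := rtr_zero B₁ B₂ h₁ h₂ (hw n).2
      exact ⟨rtr_rt hB₁ hP (hw n).1, e1, e2⟩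
    have h4 : rtr B₁ P v = (2 * B₁.b P v) • v := by
      simp only [rtr, hv1, zero_smul, sub_zero]
    rw [h4] at h3
    have h5 := W2.smul (2 * B₁.b P v)⁻¹ h3
    rwa [smul_smul, inv_mul_cancel₀ (mul_ne_zero two_ne_zero hv3), one_smul] at h5
  · rintro v ⟨hv1, ⟨hv2, hv3⟩, hv4⟩
    refine ⟨⟨hv2, hv3⟩, hv4, subset_closure ⟨hv1, ?_⟩⟩
    rw [pcub_apply, hv2, hv3]
    ring

/-- **two quadratic forms** -/
theorem pair_SA (hK : KA K) : ∀ (m : ℕ) (B₁ B₂ : Bil m), Rat2 B₁ K → Rat2 B₂ K →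
    SA (W2 B₁ B₂ K) := by
  intro m
  induction m with
  | zero => intro B₁ B₂ _ _; exact SA.of_isEmpty _
  | succ m ih =>
    -- hyperplane sections
    have hyp : ∀ B₁ B₂ : Bil (m + 1), Rat2 B₁ K → Rat2 B₂ K → ∀ a : Fin (m + 1) → K, a ≠ 0 →
        SA (WH a fun v => B₁.b v v ^ 2 + B₂.b v v ^ 2) := by
      intro B₁ B₂ hB₁ hB₂ a ha
      obtain ⟨j, hj⟩ := Function.ne_iff.1 ha
      refine WH_SA hK (j := j) hj ?_
      have h1 := ih (B₁.comap (par a j)) (B₂.comap (par a j))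
        (fun v w hv hw => hB₁ _ _ (par_rt hv) (par_rt hw))
        (fun v w hv hw => hB₂ _ _ (par_rt hv) (par_rt hw))
      have h2 : {u : E m | Rt K u ∧ (fun v => B₁.b v v ^ 2 + B₂.b v v ^ 2) (par a j u) = 0} =
          {v | Rt K v ∧ ((B₁.comap (par a j)).b v v = 0 ∧ (B₂.comap (par a j)).b v v = 0)} := by
        ext u
        simp only [mem_ofPred_eq, Bil.comap_apply]
        refine and_congr_right fun _ => ?_
        constructor
        · intro h
          have h3 := sq_nonneg (B₁.b (par a j u) (par a j u))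
          have h4 := sq_nonneg (B₂.b (par a j u) (par a j u))
          constructor
          · exact pow_eq_zero_iff two_ne_zero |>.1 (by linarith)
          · exact pow_eq_zero_iff two_ne_zero |>.1 (by linarith)
        · rintro ⟨h3, h4⟩
          rw [h3, h4]
          ring
      rw [h2]
      exact h1
    have hWH : ∀ (B₁ B₂ : Bil (m + 1)) (a : Fin (m + 1) → K),
        (WH a fun v => B₁.b v v ^ 2 + B₂.b v v ^ 2) =
          closure {v | Rt K v ∧ dt a v = 0 ∧ (B₁.b v v = 0 ∧ B₂.b v v = 0)} := by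
      intro B₁ B₂ a
      unfold WH
      congr 1
      ext v
      simp only [mem_ofPred_eq]
      refine and_congr_right fun _ => and_congr_right fun _ => ?_
      constructor
      · intro h
        have h3 := sq_nonneg (B₁.b v v)
        have h4 := sq_nonneg (B₂.b v v)
        constructor
        · exact pow_eq_zero_iff two_ne_zero |>.1 (by linarith)
        · exact pow_eq_zero_iff two_ne_zero |>.1 (by linarith)
      · rintro ⟨h3, h4⟩
        rw [h3, h4]
        ring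
    have step : ∀ (B₁ B₂ : Bil (m + 1)), Rat2 B₁ K → Rat2 B₂ K →
        ∀ P, Rt K P → B₁.b P P = 0 → B₂.b P P = 0 → (∃ e, B₁.b P e ≠ 0) →
        SA (W2 B₁ B₂ K) := by
      intro B₁ B₂ hB₁ hB₂ P hP h₁ h₂ ⟨e, he⟩
      obtain ⟨a, ha⟩ := exists_dt (K := K) (B₁.b P) fun v hv => hB₁ _ _ hP hv
      have ha0 : a ≠ 0 := by
        rintro rfl
        apply he
        rw [← ha e]
        simp [dt_apply]
      obtain ⟨g1, g2⟩ := pair_open_eq (B₂ := B₂) hB₁ hP h₁ h₂
      have heq : W2 B₁ B₂ K = closure {v | (B₁.b v v = 0 ∧ B₂.b v v = 0) ∧ B₁.b P v ≠ 0 ∧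
          v ∈ W (pcub B₁ B₂ P) K} ∪ (WH a fun v => B₁.b v v ^ 2 + B₂.b v v ^ 2) := by
        rw [hWH]
        apply Subset.antisymm
        · unfold W2
          rw [← closure_union]
          apply closure_mono
          rintro v ⟨hv1, hv2⟩
          by_cases h1 : B₁.b P v = 0
          · exact Or.inr ⟨hv1, by rw [ha, h1], hv2⟩
          · exact Or.inl (g2 ⟨hv1, hv2, h1⟩)
        · refine union_subset g1 (closure_mono ?_)
          rintro v ⟨hv1, -, hv2⟩
          exact ⟨hv1, hv2⟩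
      rw [heq]
      refine SA.union (SA.closure ?_) (hyp B₁ B₂ hB₁ hB₂ a ha0)
      refine SAP.and (SAP.and (SAP.eq_zeroA ?_) (SAP.eq_zeroA ?_))
        (SAP.and (SAP.not (SAP.eq_zeroA ?_)) (cubic_SA hK _ _ (pcub_rat hB₁ hB₂ hP)))
      · exact Bil.PA hK hB₁ (fun i => PA.coord i) fun i => PA.coord i
      · exact Bil.PA hK hB₂ (fun i => PA.coord i) fun i => PA.coord i
      · exact Bil.PA hK hB₁ (fun i => const_PA hK hP i) fun i => PA.coord i
    intro B₁ B₂ hB₁ hB₂
    by_cases h0 : ∃ P, Rt K P ∧ B₁.b P P = 0 ∧ B₂.b P P = 0 ∧ ∃ e, B₁.b P e ≠ 0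
    · obtain ⟨P, hP, h₁, h₂, he⟩ := h0
      exact step B₁ B₂ hB₁ hB₂ P hP h₁ h₂ he
    by_cases h0' : ∃ P, Rt K P ∧ B₁.b P P = 0 ∧ B₂.b P P = 0 ∧ ∃ e, B₂.b P e ≠ 0
    · obtain ⟨P, hP, h₁, h₂, he⟩ := h0'
      have hsw : W2 B₁ B₂ K = W2 B₂ B₁ K := by
        unfold W2
        congr 1
        ext v
        exact ⟨fun h => ⟨h.1, h.2.2, h.2.1⟩, fun h => ⟨h.1, h.2.2, h.2.1⟩⟩
      rw [hsw]
      exact step B₂ B₁ hB₂ hB₁ P hP h₂ h₁ he
    push Not at h0 h0'
    by_cases h1 : ∃ u e, Rt K u ∧ B₁.b u e ≠ 0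
    · obtain ⟨u, e, hu, he⟩ := h1
      obtain ⟨a, ha⟩ := exists_dt (K := K) (B₁.b u) fun v hv => hB₁ _ _ hu hv
      have ha0 : a ≠ 0 := by
        rintro rfl
        apply he
        rw [← ha e]
        simp [dt_apply]
      have heq : W2 B₁ B₂ K = WH a fun v => B₁.b v v ^ 2 + B₂.b v v ^ 2 := by
        rw [hWH]
        apply congrArg closure
        ext v
        constructor
        · rintro ⟨hv1, hv2⟩
          refine ⟨hv1, ?_, hv2⟩
          rw [ha, B₁.symm]
          exact h0 v hv1 hv2.1 hv2.2 u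
        · rintro ⟨hv1, -, hv2⟩
          exact ⟨hv1, hv2⟩
      rw [heq]
      exact hyp B₁ B₂ hB₁ hB₂ a ha0
    push Not at h1
    by_cases h2 : ∃ u e, Rt K u ∧ B₂.b u e ≠ 0
    · obtain ⟨u, e, hu, he⟩ := h2
      obtain ⟨a, ha⟩ := exists_dt (K := K) (B₂.b u) fun v hv => hB₂ _ _ hu hv
      have ha0 : a ≠ 0 := by
        rintro rfl
        apply he
        rw [← ha e]
        simp [dt_apply]
      have heq : W2 B₁ B₂ K = WH a fun v => B₁.b v v ^ 2 + B₂.b v v ^ 2 := by
        rw [hWH]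
        apply congrArg closure
        ext v
        constructor
        · rintro ⟨hv1, hv2⟩
          refine ⟨hv1, ?_, hv2⟩
          rw [ha, B₂.symm]
          exact h0' v hv1 hv2.1 hv2.2 u
        · rintro ⟨hv1, -, hv2⟩
          exact ⟨hv1, hv2⟩
      rw [heq]
      exact hyp B₁ B₂ hB₁ hB₂ a ha0
    push Not at h2
    have heq : W2 B₁ B₂ K = univ := by
      rw [eq_univ_iff_forall]
      intro v
      refine closure_mono ?_ (dense_rt (K := K) v)
      intro w hw
      exact ⟨hw, h1 w w hw, h2 w w hw⟩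
    rw [heq]
    exact SA.univ

/-! ### Polynomials of degree at most two -/

variable {n : ℕ}

/-- sums -/
def Bil.add (B B' : Bil m) : Bil m where
  b := B.b + B'.b
  symm v w := by
    simp only [LinearMap.add_apply]
    rw [B.symm, B'.symm]

/-- multiples -/
def Bil.smul (t : ℝ) (B : Bil m) : Bil m where
  b := t • B.b
  symm v w := by
    simp only [LinearMap.smul_apply]
    rw [B.symm]

/-- the product of two linear functionals -/
noncomputable def Bil.prod (p q : E m →ₗ[ℝ] ℝ) : Bil m where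
  b := (1 / 2 : ℝ) • (p.smulRight q + q.smulRight p)
  symm v w := by
    simp only [LinearMap.smul_apply, LinearMap.add_apply, LinearMap.smulRight_apply, smul_eq_mul]
    ring

lemma Bil.prod_apply (p q : E m →ₗ[ℝ] ℝ) (v : E m) : (Bil.prod p q).b v v = p v * q v := by
  simp only [Bil.prod, LinearMap.smul_apply, LinearMap.add_apply, LinearMap.smulRight_apply,
    smul_eq_mul]
  ring

lemma Bil.prod_rat {p q : E m →ₗ[ℝ] ℝ} (hp : RL K p) (hq : RL K q) :
    Rat2 (Bil.prod p q) K := by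
  intro a b ha hb
  simp only [Bil.prod, LinearMap.smul_apply, LinearMap.add_apply, LinearMap.smulRight_apply,
    smul_eq_mul]
  have h6 : (1 / 2 : ℝ) ∈ K := by
    refine K.div_mem K.one_mem ?_
    exact_mod_cast SubfieldClass.ratCast_mem K 2
  exact K.mul_mem h6 (K.add_mem (K.mul_mem (hp _ ha) (hq _ hb)) (K.mul_mem (hq _ ha) (hp _ hb)))

/-- representable functions -/
def Rep2 (K : Subfield ℝ) (φ : E n → E m) (f : E n → ℝ) : Prop :=
  ∃ B : Bil m, Rat2 B K ∧ ∀ x, B.b (φ x) (φ x) = f x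

lemma Rep2.zero (φ : E n → E m) : Rep2 K φ fun _ => 0 := by
  refine ⟨Bil.smul 0 (Bil.prod 0 0), ?_, ?_⟩
  · intro a b _ _
    simp only [Bil.smul, zero_smul, LinearMap.zero_apply]
    exact K.zero_mem
  · intro x
    simp only [Bil.smul, zero_smul, LinearMap.zero_apply]

lemma Rep2.add {φ : E n → E m} {f g : E n → ℝ} (hf : Rep2 K φ f) (hg : Rep2 K φ g) :
    Rep2 K φ fun x => f x + g x := by
  obtain ⟨F, hF, hF'⟩ := hf
  obtain ⟨G, hG, hG'⟩ := hg
  refine ⟨F.add G, ?_, ?_⟩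
  · intro a b ha hb
    exact K.add_mem (hF a b ha hb) (hG a b ha hb)
  · intro x
    simp only [Bil.add, LinearMap.add_apply, hF', hG']

lemma Rep2.smul {φ : E n → E m} {f : E n → ℝ} (hf : Rep2 K φ f) {t : ℝ} (ht : t ∈ K) :
    Rep2 K φ fun x => t * f x := by
  obtain ⟨F, hF, hF'⟩ := hf
  refine ⟨F.smul t, ?_, ?_⟩
  · intro a b ha hb
    exact K.mul_mem ht (hF a b ha hb)
  · intro x
    simp only [Bil.smul, LinearMap.smul_apply, hF', smul_eq_mul]

lemma Rep2.sum {φ : E n → E m} {α : Type*} (s : Finset α) {f : α → E n → ℝ}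
    (h : ∀ a ∈ s, Rep2 K φ (f a)) : Rep2 K φ fun x => ∑ a ∈ s, f a x := by
  classical
  induction s using Finset.induction_on with
  | empty => simpa using Rep2.zero φ
  | insert a s ha ih =>
    have : (fun x => ∑ b ∈ insert a s, f b x) = fun x => f a x + ∑ b ∈ s, f b x := by
      funext x; rw [Finset.sum_insert ha]
    rw [this]
    exact (h a (by simp)).add (ih fun b hb => h b (by simp [hb]))

lemma Rep2.prod {φ : E n → E m} {p q : E m →ₗ[ℝ] ℝ} (hp : RL K p) (hq : RL K q)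
    {f : E n → ℝ} (h : ∀ x, f x = p (φ x) * q (φ x)) : Rep2 K φ f :=
  ⟨Bil.prod p q, Bil.prod_rat hp hq, fun x => by rw [Bil.prod_apply, h]⟩

/-- polynomials of degree at most two -/
theorem rep_affine2 {R : Type*} [Field R] (σ : R →+* ℝ) (f : MvPolynomial (Fin n) R)
    (hf : f.totalDegree ≤ 2) :
    Rep2 σ.fieldRange (aug : E n → E (n + 1)) (fun x => MvPolynomial.eval₂ σ x f) := by
  rw [show (fun x => MvPolynomial.eval₂ σ x f) = fun x =>
      ∑ d ∈ f.support, σ (f.coeff d) * (d.toMultiset.map x).prod from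
    funext fun x => eval₂_sum σ f x]
  refine Rep2.sum _ fun d hd => Rep2.smul ?_ ⟨_, rfl⟩
  have hcard : Multiset.card d.toMultiset ≤ 2 := by
    rw [Finsupp.card_toMultiset]
    exact (MvPolynomial.le_totalDegree hd).trans hf
  have hpr : ∀ i : Fin (n + 1), RL σ.fieldRange (LinearMap.proj i : E (n + 1) →ₗ[ℝ] ℝ) :=
    fun i v hv => hv i
  have h0 : Multiset.card d.toMultiset = 0 ∨ Multiset.card d.toMultiset = 1 ∨
      Multiset.card d.toMultiset = 2 := by omega
  rcases h0 with h | h | h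
  · rw [Multiset.card_eq_zero] at h
    refine Rep2.prod (hpr 0) (hpr 0) fun x => ?_
    rw [h]
    simp [aug_zero]
  · obtain ⟨i, hi⟩ := Multiset.card_eq_one.1 h
    refine Rep2.prod (hpr i.succ) (hpr 0) fun x => ?_
    rw [hi]
    simp [aug_zero, aug_succ]
  · obtain ⟨i, j, hi⟩ := Multiset.card_eq_two.1 h
    refine Rep2.prod (hpr i.succ) (hpr j.succ) fun x => ?_
    rw [hi]
    simp [aug_succ]

/-- the closure of the rational solutions of two quadratic equations -/
theorem affine_SA2 {R : Type*} [Field R] (σ : R →+* ℝ) (hσ : ∀ r, IsAlgebraic ℚ (σ r))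
    (f g : MvPolynomial (Fin n) R) (hf : f.totalDegree ≤ 2) (hg : g.totalDegree ≤ 2) :
    SA (closure {x : Fin n → ℝ | ∃ r : Fin n → R,
      (MvPolynomial.eval r f = 0 ∧ MvPolynomial.eval r g = 0) ∧ x = fun i => σ (r i)}) := by
  obtain ⟨B₁, hB₁, hB₁'⟩ := rep_affine2 σ f hf
  obtain ⟨B₂, hB₂, hB₂'⟩ := rep_affine2 σ g hg
  have hK : KA σ.fieldRange := by
    rintro _ ⟨r, rfl⟩
    exact hσ r
  have hev : ∀ (f : MvPolynomial (Fin n) R) (r : Fin n → R),
      MvPolynomial.eval₂ σ (fun i => σ (r i)) f = σ (MvPolynomial.eval r f) := by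
    intro f r
    have := MvPolynomial.eval₂_comp_left σ (RingHom.id R) r f
    rw [RingHom.comp_id] at this
    exact this.symm
  have heq : closure {x : Fin n → ℝ | ∃ r : Fin n → R,
      (MvPolynomial.eval r f = 0 ∧ MvPolynomial.eval r g = 0) ∧ x = fun i => σ (r i)} =
      {x | aug x ∈ W2 B₁ B₂ σ.fieldRange} := by
    have hc : Continuous (aug : E n → E (n + 1)) := by
      refine continuous_pi fun i => ?_
      refine Fin.cases ?_ (fun i => ?_) i
      · exact continuous_const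
      · exact continuous_apply i
    apply Subset.antisymm
    · intro x hx
      refine map_mem_closure hc hx ?_
      rintro _ ⟨r, ⟨hr, hr'⟩, rfl⟩
      refine ⟨?_, ?_, ?_⟩
      · intro i
        refine Fin.cases ?_ (fun i => ?_) i
        · exact ⟨1, map_one σ⟩
        · exact ⟨r i, rfl⟩
      · rw [hB₁']
        change MvPolynomial.eval₂ σ (fun i => σ (r i)) f = 0
        rw [hev, hr, map_zero]
      · rw [hB₂']
        change MvPolynomial.eval₂ σ (fun i => σ (r i)) g = 0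
        rw [hev, hr', map_zero]
    · intro x hx
      obtain ⟨u, hu, hu'⟩ := mem_closure_iff_seq_limit.1 hx
      have h0 : Tendsto (fun k => u k 0) atTop (𝓝 1) := (tendsto_pi_nhds.1 hu') 0
      have h1 : Tendsto (fun k => (fun i : Fin n => u k i.succ / u k 0)) atTop (𝓝 x) := by
        refine tendsto_pi_nhds.2 fun i => ?_
        have := ((tendsto_pi_nhds.1 hu') i.succ).div h0 one_ne_zero
        rwa [div_one] at this
      refine mem_closure_of_tendsto h1 ?_
      filter_upwards [h0.eventually_ne one_ne_zero] with k hk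
      have hrt : ∀ i : Fin n, ∃ r : R, σ r = u k i.succ / u k 0 := fun i =>
        σ.fieldRange.div_mem ((hu k).1 i.succ) ((hu k).1 0)
      choose r hr using hrt
      have h2 : aug (fun i => σ (r i)) = (u k 0)⁻¹ • u k := by
        funext i
        refine Fin.cases ?_ (fun i => ?_) i
        · rw [aug_zero, Pi.smul_apply, smul_eq_mul, inv_mul_cancel₀ hk]
        · rw [aug_succ, hr, Pi.smul_apply, smul_eq_mul, div_eq_inv_mul]
      refine ⟨r, ⟨?_, ?_⟩, funext fun i => (hr i).symm⟩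
      · apply σ.injective
        rw [map_zero, ← hev]
        refine (hB₁' _).symm.trans ?_
        rw [h2]
        simp only [map_smul, LinearMap.smul_apply, (hu k).2.1, smul_zero]
      · apply σ.injective
        rw [map_zero, ← hev]
        refine (hB₂' _).symm.trans ?_
        rw [h2]
        simp only [map_smul, LinearMap.smul_apply, (hu k).2.2, smul_zero]
  rw [heq]
  refine SAP.preimage (p := fun v => v ∈ W2 B₁ B₂ σ.fieldRange) (pair_SA hK _ B₁ B₂ hB₁ hB₂)
    (φ := fun x => aug x) fun i => ?_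
  refine Fin.cases ?_ (fun i => ?_) i
  · exact PF.one
  · exact PF.coord i

end Pool.Agent.TH729.CC
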