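import Mathlib

/-!
# Cubic forms over an ordered field: covering zeros by hyperplanes (helper729)
-/

set_option autoImplicit false
set_option linter.unusedSimpArgs false
set_option linter.unusedTactic false
set_option linter.unusedSectionVars false

namespace Pool.Agent.TH729.CC

/-- symmetric trilinear forms over a field -/
structure STri (K V : Type*) [Field K] [AddCommGroup V] [Module K V] where
  /-- the form -/
  f : V →ₗ[K] V →ₗ[K] V →ₗ[K] K
  s12 : ∀ a b c, f a b c = f b a c
  s23 : ∀ a b c, f a b c = f a c b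

variable {K V : Type*} [Field K] [LinearOrder K] [IsStrictOrderedRing K] [AddCommGroup V]
  [Module K V] {T : STri K V}

/-- the data at a nonflex zero -/
structure Dat (T : STri K V) (P : V) (x : V →ₗ[K] K) : Prop where
  zero : T.f P P P = 0
  one : x P = 1
  form : ∀ w, T.f P P w = 0 → x w = 0 → ∀ v, T.f w w v = T.f P w w * x v
  aniso : ∀ w, T.f P P w = 0 → x w = 0 → w ≠ 0 → T.f P w w ≠ 0

/-- no hyperplane consists of zeros -/
def NoHyp (T : STri K V) : Prop := ∀ x : V →ₗ[K] K, x ≠ 0 → ∃ v, x v = 0 ∧ T.f v v v ≠ 0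

/-- no nonzero vector is singular -/
def NoSing (T : STri K V) : Prop := ∀ P, P ≠ 0 → ∃ v, T.f P P v ≠ 0

lemma Dat.pol {P : V} {x : V →ₗ[K] K} (h : Dat T P x) {w w' : V} (h1 : T.f P P w = 0)
    (h2 : x w = 0) (h3 : T.f P P w' = 0) (h4 : x w' = 0) (v : V) :
    T.f w w' v = T.f P w w' * x v := by
  have e1 := h.form (w + w') (by rw [map_add, h1, h3, add_zero]) (by rw [map_add, h2, h4, add_zero]) v
  have e2 := h.form w h1 h2 v
  have e3 := h.form w' h3 h4 v
  try simp only [map_add, map_sub, map_neg, map_smul, map_zero, LinearMap.add_apply,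
    LinearMap.sub_apply, LinearMap.neg_apply, LinearMap.smul_apply, LinearMap.zero_apply,
    smul_eq_mul, STri.s12, STri.s23] at e1 e2 e3
  have : 2 * (T.f w w' v - T.f P w w' * x v) = 0 := by
    try simp only [map_add, map_sub, map_neg, map_smul, map_zero, LinearMap.add_apply,
      LinearMap.sub_apply, LinearMap.neg_apply, LinearMap.smul_apply, LinearMap.zero_apply,
      smul_eq_mul, STri.s12, STri.s23]
    linear_combination e1 - e2 - e3
  have h5 := (mul_eq_zero.1 this).resolve_left two_ne_zero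
  linear_combination h5

lemma Dat.ne {P : V} {x : V →ₗ[K] K} (h : Dat T P x) : x ≠ 0 := by
  rintro rfl
  simpa using h.one

/-- two data with a common nonzero vector -/
lemma same (hN : NoHyp T) {P P₁ : V} {x x₁ : V →ₗ[K] K} (h : Dat T P x) (h' : Dat T P₁ x₁) {z : V}
    (hz : z ≠ 0) (z1 : T.f P P z = 0) (z2 : x z = 0) (z3 : T.f P₁ P₁ z = 0) (z4 : x₁ z = 0) :
    (∃ c, ∀ v, x₁ v = c * x v) ∧ ∀ w, x w = 0 → T.f P₁ P₁ w = 0 → T.f P P w = 0 := by
  have ha := h.aniso z z1 z2 hz
  have hb := h'.aniso z z3 z4 hz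
  have hc : ∀ v, x₁ v = (T.f P z z / T.f P₁ z z) * x v := by
    intro v
    have e1 := h.form z z1 z2 v
    have e2 := h'.form z z3 z4 v
    field_simp
    rw [← e1, e2]
    ring
  refine ⟨⟨_, hc⟩, fun w₁ w1 w2 => ?_⟩
  by_contra hne
  obtain ⟨v, hv, hv'⟩ := hN x h.ne
  set a := T.f P P v / T.f P P w₁ with ha
  set w := v - a • w₁ with hw
  have w3 : T.f P P w = 0 := by
    rw [hw, map_sub, map_smul, smul_eq_mul, ha]
    field_simp
    ring
  have w4 : x w = 0 := by
    rw [hw, map_sub, map_smul, hv, w1]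
    simp
  have hvw : v = w + a • w₁ := by
    rw [hw]
    abel
  have w5 : x₁ w₁ = 0 := by
    rw [hc, w1, mul_zero]
  have w6 : x₁ w = 0 := by
    rw [hc, w4, mul_zero]
  have f1 := h.form w w3 w4 w
  have f2 := h.form w w3 w4 w₁
  have f3 := h'.form w₁ w2 w5 w
  have f4 := h'.form w₁ w2 w5 w₁
  rw [w4, mul_zero] at f1
  rw [w1, mul_zero] at f2
  rw [w6, mul_zero] at f3
  rw [w5, mul_zero] at f4
  apply hv'
  rw [hvw]
  clear_value w a
  try simp only [map_add, map_sub, map_neg, map_smul, map_zero, LinearMap.add_apply,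
    LinearMap.sub_apply, LinearMap.neg_apply, LinearMap.smul_apply, LinearMap.zero_apply,
    smul_eq_mul, STri.s12, STri.s23] at f1 f2 f3 f4
  try simp only [map_add, map_sub, map_neg, map_smul, map_zero, LinearMap.add_apply,
    LinearMap.sub_apply, LinearMap.neg_apply, LinearMap.smul_apply, LinearMap.zero_apply,
    smul_eq_mul, STri.s12, STri.s23]
  rw [f1, f2, f3, f4]
  ring

/-- the annihilator subspace -/
def NS (T : STri K V) (P : V) (x : V →ₗ[K] K) : Submodule K V :=
  LinearMap.ker (T.f P P) ⊓ LinearMap.ker x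

lemma mem_NS {P : V} {x : V →ₗ[K] K} {w : V} : w ∈ NS T P x ↔ T.f P P w = 0 ∧ x w = 0 := by
  simp [NS]

/-- the two data meet -/
def Meet (T : STri K V) (P : V) (x : V →ₗ[K] K) (P₁ : V) (x₁ : V →ₗ[K] K) : Prop :=
  ∃ z, z ≠ 0 ∧ T.f P P z = 0 ∧ x z = 0 ∧ T.f P₁ P₁ z = 0 ∧ x₁ z = 0

variable [FiniteDimensional K V]

/-- solving linear equations for an anisotropic form -/
lemma Dat.solve {P : V} {x : V →ₗ[K] K} (h : Dat T P x) (l : V →ₗ[K] K) :
    ∃ z, T.f P P z = 0 ∧ x z = 0 ∧ ∀ w, T.f P P w = 0 → x w = 0 → T.f P z w = l w := by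
  set N := NS T P x with hN
  let B : N →ₗ[K] Module.Dual K N :=
    { toFun := fun z => (T.f P z).domRestrict N
      map_add' := fun a b => by
        ext w
        simp
      map_smul' := fun c a => by
        ext w
        simp }
  have hB : ∀ z w : N, B z w = T.f P z w := fun z w => rfl
  have hinj : Function.Injective B := by
    rw [injective_iff_map_eq_zero]
    intro z hz
    by_contra hne
    have h1 := hB z z
    rw [hz] at h1
    have h2 := mem_NS.1 z.2
    refine h.aniso z h2.1 h2.2 (by simpa using hne) ?_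
    rw [← h1]
    rfl
  have hsurj : Function.Surjective B :=
    (LinearMap.injective_iff_surjective_of_finrank_eq_finrank
      (Subspace.dual_finrank_eq (K := K) (V := N)).symm).1 hinj
  obtain ⟨z, hz⟩ := hsurj (l.domRestrict N)
  refine ⟨z, (mem_NS.1 z.2).1, (mem_NS.1 z.2).2, fun w h1 h2 => ?_⟩
  have h3 := hB z ⟨w, mem_NS.2 ⟨h1, h2⟩⟩
  rw [hz] at h3
  exact h3.symm

/-- zeros whose data meet a given one lie in finitely many hyperplanes -/
theorem meet_cover (hN : NoHyp T) (hS : NoSing T) {P : V} {x : V →ₗ[K] K} (h : Dat T P x) :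
    ∃ L : Set (V →ₗ[K] K), L.Finite ∧ (∀ y ∈ L, y ≠ 0) ∧ ∀ P₁ x₁, Dat T P₁ x₁ →
      Meet T P x P₁ x₁ → ∃ y ∈ L, y P₁ = 0 := by
  -- the vector `e`
  obtain ⟨e, he1, he2⟩ : ∃ e, x e = 0 ∧ T.f P P e = 1 := by
    have hP : P ≠ 0 := by
      rintro rfl
      simpa using h.one
    obtain ⟨v, hv⟩ := hS P hP
    refine ⟨(T.f P P v)⁻¹ • (v - x v • P), ?_, ?_⟩
    · simp [h.one]
    · rw [map_smul, map_sub, map_smul, h.zero]
      simp [hv]
  obtain ⟨z₁, a1, a2, a3⟩ := h.solve (-(T.f P e))
  obtain ⟨z₂, b1, b2, b3⟩ := h.solve (-((1/2 : K) • T.f e e))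
  set p : Polynomial K := Polynomial.C 3 + Polynomial.C (3 * T.f P e e + 3 * T.f P e z₁) *
    Polynomial.X + Polynomial.C (3 * T.f P e z₂ + (3/2) * T.f e e z₁ + T.f e e e) *
    Polynomial.X ^ 2 + Polynomial.C ((3/2) * T.f e e z₂) * Polynomial.X ^ 3 with hp
  have hp0 : p ≠ 0 := by
    intro h0
    have := congrArg (Polynomial.eval 0) h0
    simp [hp] at this
  refine ⟨(fun c : K => T.f P P - c • x) '' (p.rootSet K ∪ {0}), ?_, ?_, ?_⟩
  · exact ((Polynomial.rootSet_finite p K).union (Set.finite_singleton 0)).image _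
  · rintro _ ⟨c, -, rfl⟩ h0
    have := congrArg (fun l : V →ₗ[K] K => l e) h0
    simp [he1, he2] at this
  · intro P₁ x₁ h' ⟨z, hz, z1, z2, z3, z4⟩
    obtain ⟨⟨c₀, hc₀⟩, hw1⟩ := same hN h h' hz z1 z2 z3 z4
    obtain ⟨-, hw2⟩ := same hN h' h hz z3 z4 z1 z2
    have hs : x P₁ ≠ 0 := by
      intro h0
      have h1 := h'.one
      rw [hc₀, h0, mul_zero] at h1
      exact zero_ne_one h1
    have hw3 : ∀ w, T.f P P w = 0 → x w = 0 → T.f P₁ P₁ w = 0 := by
      intro w w1 w2
      exact hw2 w (by rw [hc₀, w2, mul_zero]) w1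
    set s := x P₁ with hs'
    set c := T.f P P P₁ / s with hc
    refine ⟨T.f P P - c • x, ⟨c, ?_, rfl⟩, ?_⟩
    · by_cases hc0 : c = 0
      · right
        exact hc0
      left
      rw [Polynomial.mem_rootSet]
      refine ⟨hp0, ?_⟩
      set w := s⁻¹ • P₁ - P - c • e with hw
      have w1 : T.f P P w = 0 := by
        rw [hw, map_sub, map_sub, map_smul, map_smul, h.zero, he2, hc]
        simp only [smul_eq_mul]
        field_simp
        ring
      have w2 : x w = 0 := by
        rw [hw, map_sub, map_sub, map_smul, map_smul, h.one, he1, ← hs']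
        simp only [smul_eq_mul]
        field_simp
        ring
      have hP₁ : P₁ = s • (P + c • e + w) := by
        rw [hw, smul_add, smul_sub, smul_sub, smul_smul, mul_inv_cancel₀ hs, one_smul, smul_add]
        abel
      have w3 : ∀ Z, T.f P P Z = 0 → x Z = 0 →
          2 * T.f P w Z + 2 * c * T.f P e Z + c ^ 2 * T.f e e Z = 0 := by
        intro Z Z1 Z2
        have e1 := hw3 Z Z1 Z2
        have e2 := h.pol w1 w2 Z1 Z2 e
        have e3 := h.form w w1 w2 Z
        rw [he1, mul_zero] at e2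
        rw [Z2, mul_zero] at e3
        rw [hP₁] at e1
        have e4 : s ^ 2 * (2 * T.f P w Z + 2 * c * T.f P e Z + c ^ 2 * T.f e e Z) = 0 := by
          clear_value w s c
          try simp only [map_add, map_sub, map_neg, map_smul, map_zero, LinearMap.add_apply,
            LinearMap.sub_apply, LinearMap.neg_apply, LinearMap.smul_apply, LinearMap.zero_apply,
            smul_eq_mul, STri.s12, STri.s23] at e1 e2 e3 Z1
          rw [e2, e3, Z1] at e1
          try simp only [map_add, map_sub, map_neg, map_smul, map_zero, LinearMap.add_apply,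
            LinearMap.sub_apply, LinearMap.neg_apply, LinearMap.smul_apply, LinearMap.zero_apply,
            smul_eq_mul, STri.s12, STri.s23]
          linear_combination e1
        exact (mul_eq_zero.1 e4).resolve_left (pow_ne_zero _ hs)
      have hwz : w = c • z₁ + c ^ 2 • z₂ := by
        by_contra hne
        have hne' : w - (c • z₁ + c ^ 2 • z₂) ≠ 0 := sub_ne_zero.2 hne
        set u := w - (c • z₁ + c ^ 2 • z₂) with hu
        have u1 : T.f P P u = 0 := by
          rw [hu, map_sub, map_add, map_smul, map_smul, w1, a1, b1]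
          simp
        have u2 : x u = 0 := by
          rw [hu, map_sub, map_add, map_smul, map_smul, w2, a2, b2]
          simp
        apply h.aniso u u1 u2 hne'
        have g1 := w3 u u1 u2
        have g2 := a3 u u1 u2
        have g3 := b3 u u1 u2
        simp only [LinearMap.neg_apply, LinearMap.smul_apply, smul_eq_mul] at g2 g3
        have g4 : T.f P u u = T.f P w u - c * T.f P z₁ u - c ^ 2 * T.f P z₂ u := by
          have g5 : T.f P u = T.f P w - (c • T.f P z₁ + c ^ 2 • T.f P z₂) := by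
            rw [hu, map_sub, map_add, map_smul, map_smul]
          rw [g5]
          simp only [LinearMap.sub_apply, LinearMap.add_apply, LinearMap.smul_apply, smul_eq_mul]
          ring
        rw [g4, g2, g3]
        linear_combination g1 / 2
      have w4 := w3 w w1 w2
      have w5 := h.form w w1 w2 e
      rw [he1, mul_zero] at w5
      have w6 := h.form w w1 w2 w
      rw [w2, mul_zero] at w6
      have w7 := h'.zero
      rw [hP₁] at w7
      have hP0 := h.zero
      have w8 : s ^ 3 * (c * (3 + 3 * c * T.f P e e + 3 * T.f P e w + (3/2) * c * T.f e e w +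
          c ^ 2 * T.f e e e)) = 0 := by
        clear_value w s c
        try simp only [map_add, map_sub, map_neg, map_smul, map_zero, LinearMap.add_apply,
          LinearMap.sub_apply, LinearMap.neg_apply, LinearMap.smul_apply, LinearMap.zero_apply,
          smul_eq_mul, STri.s12, STri.s23] at w4 w5 w6 w7 he2 hP0 w1
        rw [w5, w6, he2, hP0, w1] at w7
        try simp only [map_add, map_sub, map_neg, map_smul, map_zero, LinearMap.add_apply,
          LinearMap.sub_apply, LinearMap.neg_apply, LinearMap.smul_apply, LinearMap.zero_apply,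
          smul_eq_mul, STri.s12, STri.s23]
        linear_combination w7 - (3 / 2) * s ^ 3 * w4
      have w9 := (mul_eq_zero.1 ((mul_eq_zero.1 w8).resolve_left (pow_ne_zero _ hs))).resolve_left hc0
      rw [hwz] at w9
      simp only [map_add, map_smul, smul_eq_mul] at w9
      simp only [hp, map_add, map_mul, Polynomial.aeval_C, Polynomial.aeval_X, map_pow,
        Algebra.algebraMap_self, RingHom.id_apply]
      linear_combination w9
    · simp only [LinearMap.sub_apply, LinearMap.smul_apply, smul_eq_mul, ← hs', hc]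
      field_simp
      ring

lemma finrank_NS (P : V) (x : V →ₗ[K] K) :
    Module.finrank K V ≤ Module.finrank K (NS T P x) + 2 := by
  have h1 := LinearMap.finrank_range_add_finrank_ker ((T.f P P).prod x)
  have h2 : Module.finrank K (LinearMap.range ((T.f P P).prod x)) ≤ 2 := by
    refine (Submodule.finrank_le _).trans ?_
    simp
  rw [LinearMap.ker_prod] at h1
  change _ + Module.finrank K (NS T P x) = _ at h1
  omega

lemma sup_eq_top (hd : 4 ≤ Module.finrank K V) {P P₁ : V} {x x₁ : V →ₗ[K] K}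
    (h : ¬ Meet T P x P₁ x₁) (v : V) : ∃ a b, (T.f P P a = 0 ∧ x a = 0) ∧
      (T.f P₁ P₁ b = 0 ∧ x₁ b = 0) ∧ a + b = v := by
  have h1 := Submodule.finrank_sup_add_finrank_inf_eq (NS T P x) (NS T P₁ x₁)
  have h2 : NS T P x ⊓ NS T P₁ x₁ = ⊥ := by
    rw [Submodule.eq_bot_iff]
    intro z hz
    by_contra hne
    rw [Submodule.mem_inf, mem_NS, mem_NS] at hz
    exact h ⟨z, hne, hz.1.1, hz.1.2, hz.2.1, hz.2.2⟩
  have h3 := finrank_NS (T := T) P x
  have h4 := finrank_NS (T := T) P₁ x₁
  rw [h2, finrank_bot] at h1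
  have h5 : NS T P x ⊔ NS T P₁ x₁ = ⊤ := by
    apply Submodule.eq_top_of_finrank_eq
    have := Submodule.finrank_le (NS T P x ⊔ NS T P₁ x₁)
    omega
  have h6 : v ∈ NS T P x ⊔ NS T P₁ x₁ := by
    rw [h5]
    exact Submodule.mem_top
  obtain ⟨a, ha, b, hb, hab⟩ := Submodule.mem_sup.1 h6
  exact ⟨a, b, mem_NS.1 ha, mem_NS.1 hb, hab⟩

/-- three pairwise disjoint data do not exist -/
theorem third (hd : 4 ≤ Module.finrank K V) {P₀ P₁ P₂ : V} {x₀ x₁ x₂ : V →ₗ[K] K}
    (h0 : Dat T P₀ x₀) (h1 : Dat T P₁ x₁) (h2 : Dat T P₂ x₂) (h01 : ¬ Meet T P₀ x₀ P₁ x₁)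
    (h02 : ¬ Meet T P₀ x₀ P₂ x₂) (h12 : ¬ Meet T P₁ x₁ P₂ x₂) : False := by
  -- the vector `u₁`
  obtain ⟨u₁, hu, hu1, hu2, hu3⟩ : ∃ u, u ≠ 0 ∧ T.f P₀ P₀ u = 0 ∧ x₀ u = 0 ∧ x₁ u = 0 := by
    have k1 := LinearMap.finrank_range_add_finrank_ker (((T.f P₀ P₀).prod x₀).prod x₁)
    have k2 : Module.finrank K (LinearMap.range (((T.f P₀ P₀).prod x₀).prod x₁)) ≤ 3 := by
      refine (Submodule.finrank_le _).trans ?_
      simp
    have k3 : 0 < Module.finrank K (LinearMap.ker (((T.f P₀ P₀).prod x₀).prod x₁)) := by omega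
    have k4 := Module.finrank_pos_iff_exists_ne_zero.1 k3
    obtain ⟨⟨u, hu⟩, hne⟩ := k4
    simp only [LinearMap.mem_ker, LinearMap.prod_apply, Function.prod, Prod.mk_eq_zero] at hu
    exact ⟨u, by simpa using hne, hu.1.1, hu.1.2, hu.2⟩
  obtain ⟨v, w₁, hv, hw, hvw⟩ := sup_eq_top hd h12 u₁
  -- `w₁ = u₁ - v`
  have hw₁ : w₁ = u₁ - v := by
    rw [← hvw]
    abel
  have hw0 : w₁ ≠ 0 := by
    rintro rfl
    rw [add_zero] at hvw
    subst hvw
    exact h01 ⟨v, hu, hu1, hu2, hv.1, hv.2⟩
  have c0 := h0.aniso u₁ hu1 hu2 hu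
  have c2 := h2.aniso w₁ hw.1 hw.2 hw0
  have d1 := h0.form u₁ hu1 hu2 v
  have d2 := h0.form u₁ hu1 hu2 u₁
  have d3 := h1.form v hv.1 hv.2 u₁
  have d4 := h1.form v hv.1 hv.2 v
  rw [hu2, mul_zero] at d2
  rw [hu3, mul_zero] at d3
  rw [hv.2, mul_zero] at d4
  have d5 := h2.form w₁ hw.1 hw.2 w₁
  rw [hw.2, mul_zero, hw₁] at d5
  have e1 : x₀ v = 0 := by
    have : -3 * (T.f P₀ u₁ u₁) * x₀ v = 0 := by
      try simp only [map_add, map_sub, map_neg, map_smul, map_zero, LinearMap.add_apply,
        LinearMap.sub_apply, LinearMap.neg_apply, LinearMap.smul_apply, LinearMap.zero_apply,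
        smul_eq_mul, STri.s12, STri.s23] at d1 d2 d3 d4 d5
      try simp only [map_add, map_sub, map_neg, map_smul, map_zero, LinearMap.add_apply,
        LinearMap.sub_apply, LinearMap.neg_apply, LinearMap.smul_apply, LinearMap.zero_apply,
        smul_eq_mul, STri.s12, STri.s23]
      linear_combination d5 - d2 + 3 * d1 - 3 * d3 + d4
    exact (mul_eq_zero.1 this).resolve_left (mul_ne_zero (by norm_num) c0)
  rw [e1, mul_zero] at d1
  have e2 : x₂ u₁ = 0 := by
    have d6 := h2.form w₁ hw.1 hw.2 u₁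
    have : T.f P₂ w₁ w₁ * x₂ u₁ = 0 := by
      rw [← d6, hw₁]
      try simp only [map_add, map_sub, map_neg, map_smul, map_zero, LinearMap.add_apply,
        LinearMap.sub_apply, LinearMap.neg_apply, LinearMap.smul_apply, LinearMap.zero_apply,
        smul_eq_mul, STri.s12, STri.s23] at d1 d2 d3
      try simp only [map_add, map_sub, map_neg, map_smul, map_zero, LinearMap.add_apply,
        LinearMap.sub_apply, LinearMap.neg_apply, LinearMap.smul_apply, LinearMap.zero_apply,
        smul_eq_mul, STri.s12, STri.s23]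
      rw [d1, d2, d3]
      ring
    exact (mul_eq_zero.1 this).resolve_left c2
  -- all of the second subspace
  have e3 : ∀ b, T.f P₁ P₁ b = 0 → x₁ b = 0 → x₀ b = 0 := by
    intro b hb1 hb2
    obtain ⟨a, w, ha, hw', haw⟩ := sup_eq_top hd h02 b
    have d7 := h2.pol hw'.1 hw'.2 hw.1 hw.2 u₁
    rw [e2, mul_zero] at d7
    have hww : w = b - a := by
      rw [← haw]
      abel
    rw [hww, hw₁] at d7
    have g1 := h0.pol ha.1 ha.2 hu1 hu2 u₁
    rw [hu2, mul_zero] at g1
    have g2 := h0.pol ha.1 ha.2 hu1 hu2 v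
    rw [e1, mul_zero] at g2
    have g3 := h0.form u₁ hu1 hu2 b
    have g4 := h1.pol hb1 hb2 hv.1 hv.2 u₁
    rw [hu3, mul_zero] at g4
    have : T.f P₀ u₁ u₁ * x₀ b = 0 := by
      rw [← g3]
      clear hww hw₁ g3 haw hvw
      try simp only [map_add, map_sub, map_neg, map_smul, map_zero, LinearMap.add_apply,
        LinearMap.sub_apply, LinearMap.neg_apply, LinearMap.smul_apply, LinearMap.zero_apply,
        smul_eq_mul, STri.s12, STri.s23] at d7 g1 g2 g4
      try simp only [map_add, map_sub, map_neg, map_smul, map_zero, LinearMap.add_apply,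
        LinearMap.sub_apply, LinearMap.neg_apply, LinearMap.smul_apply, LinearMap.zero_apply,
        smul_eq_mul, STri.s12, STri.s23]
      linear_combination d7 + g1 - g2 + g4
    exact (mul_eq_zero.1 this).resolve_left c0
  obtain ⟨a, b, ha, hb, hab⟩ := sup_eq_top hd h01 P₀
  have := h0.one
  rw [← hab, map_add, ha.2, e3 b hb.1 hb.2] at this
  simp at this

/-- flex zeros lie in finitely many hyperplanes -/
theorem flex_cover (hS : NoSing T) : ∃ L : Set (V →ₗ[K] K), L.Finite ∧ (∀ y ∈ L, y ≠ 0) ∧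
    ∀ A, A ≠ 0 → T.f A A A = 0 → (∀ w, T.f A A w = 0 → T.f A w w = 0) → ∃ y ∈ L, y A = 0 := by
  have hlam : ∀ P, P ≠ 0 → T.f P P ≠ 0 := by
    intro P hP h0
    obtain ⟨v, hv⟩ := hS P hP
    rw [h0] at hv
    exact hv rfl
  set Fl : V → Prop := fun A => A ≠ 0 ∧ T.f A A A = 0 ∧ ∀ w, T.f A A w = 0 → T.f A w w = 0 with hFl
  by_cases h1 : ∃ B, Fl B
  swap
  · refine ⟨∅, Set.finite_empty, by simp, fun A h2 h3 h4 => (h1 ⟨A, h2, h3, h4⟩).elim⟩
  by_cases h2 : ∃ B C, Fl B ∧ Fl C ∧ T.f B B C ≠ 0
  swap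
  · obtain ⟨B, hB⟩ := h1
    refine ⟨{T.f B B}, Set.finite_singleton _, ?_, fun A a1 a2 a3 => ⟨_, rfl, ?_⟩⟩
    · rintro y rfl
      exact hlam B hB.1
    · by_contra hne
      exact h2 ⟨B, A, hB, ⟨a1, a2, a3⟩, hne⟩
  obtain ⟨B, C, hB, hC, hBC⟩ := h2
  set D := T.f B C C • B - T.f B B C • C with hD
  have hB0 := hB.2.1
  have hC0 := hC.2.1
  have hD0 : D ≠ 0 := by
    intro h0
    have h3 : T.f B B D = 0 := by
      rw [h0, map_zero]
    rw [hD, map_sub, map_smul, map_smul, hB0, smul_zero, zero_sub, neg_eq_zero, smul_eq_mul] at h3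
    exact hBC (by simpa using h3)
  refine ⟨{T.f B B, T.f C C, T.f D D}, by simp, ?_, ?_⟩
  · intro y hy
    simp only [Set.mem_insert_iff, Set.mem_singleton_iff] at hy
    rcases hy with rfl | rfl | rfl
    · exact hlam B hB.1
    · exact hlam C hC.1
    · exact hlam D hD0
  · intro A a1 a2 a3
    by_cases hp' : T.f B B A = 0
    · exact ⟨_, by simp, hp'⟩
    by_cases hr : T.f C C A = 0
    · exact ⟨_, by simp, hr⟩
    refine ⟨T.f D D, by simp, ?_⟩
    -- nonvanishing
    have hq' : T.f B C C ≠ 0 := by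
      intro h0
      apply hBC
      have := hC.2.2 B (by rw [T.s23, T.s12]; exact h0)
      rw [T.s12, T.s23] at this
      exact this
    have hp : T.f A A B ≠ 0 := by
      intro h0
      apply hp'
      have := a3 B h0
      rw [T.s12, T.s23] at this
      exact this
    have hr' : T.f A A C ≠ 0 := by
      intro h0
      apply hr
      have := a3 C h0
      rw [T.s12, T.s23] at this
      exact this
    -- the three equations
    have EA := a3 (T.f A A C • B - T.f A A B • C) (by
      rw [map_sub, map_smul, map_smul, smul_eq_mul, smul_eq_mul]; ring)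
    have EB := hB.2.2 (T.f B B A • C - T.f B B C • A) (by
      rw [map_sub, map_smul, map_smul, smul_eq_mul, smul_eq_mul]; ring)
    have EC := hC.2.2 (T.f C C B • A - T.f C C A • B) (by
      rw [map_sub, map_smul, map_smul, smul_eq_mul, smul_eq_mul]; ring)
    have hpq : T.f A A B * T.f B C C = T.f B B C * T.f A A C := by
      have hs1 : T.f B B A = T.f A B B := by rw [T.s23, T.s12]
      have hs2 : T.f C C A = T.f A C C := by rw [T.s23, T.s12]
      have hs3 : T.f C C B = T.f B C C := by rw [T.s23, T.s12]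
      have k1 : T.f A A C ^ 2 * T.f A B B - 2 * T.f A A B * T.f A A C * T.f A B C +
          T.f A A B ^ 2 * T.f A C C = 0 := by
        generalize T.f A A C = r' at *
        generalize T.f A A B = p at *
        try simp only [map_add, map_sub, map_neg, map_smul, map_zero, LinearMap.add_apply,
          LinearMap.sub_apply, LinearMap.neg_apply, LinearMap.smul_apply, LinearMap.zero_apply,
          smul_eq_mul, STri.s12, STri.s23] at EA
        try simp only [map_add, map_sub, map_neg, map_smul, map_zero, LinearMap.add_apply,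
          LinearMap.sub_apply, LinearMap.neg_apply, LinearMap.smul_apply, LinearMap.zero_apply,
          smul_eq_mul, STri.s12, STri.s23]
        linear_combination EA
      have k2 : T.f A B B ^ 2 * T.f B C C - 2 * T.f B B C * T.f A B B * T.f A B C +
          T.f B B C ^ 2 * T.f A A B = 0 := by
        rw [hs1] at EB
        generalize T.f A B B = p' at *
        generalize T.f B B C = q at *
        try simp only [map_add, map_sub, map_neg, map_smul, map_zero, LinearMap.add_apply,
          LinearMap.sub_apply, LinearMap.neg_apply, LinearMap.smul_apply, LinearMap.zero_apply,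
          smul_eq_mul, STri.s12, STri.s23] at EB
        try simp only [map_add, map_sub, map_neg, map_smul, map_zero, LinearMap.add_apply,
          LinearMap.sub_apply, LinearMap.neg_apply, LinearMap.smul_apply, LinearMap.zero_apply,
          smul_eq_mul, STri.s12, STri.s23]
        linear_combination EB
      have k3 : T.f B C C ^ 2 * T.f A A C - 2 * T.f A C C * T.f B C C * T.f A B C +
          T.f A C C ^ 2 * T.f B B C = 0 := by
        rw [hs2, hs3] at EC
        generalize T.f B C C = q' at *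
        generalize T.f A C C = r at *
        try simp only [map_add, map_sub, map_neg, map_smul, map_zero, LinearMap.add_apply,
          LinearMap.sub_apply, LinearMap.neg_apply, LinearMap.smul_apply, LinearMap.zero_apply,
          smul_eq_mul, STri.s12, STri.s23] at EC
        try simp only [map_add, map_sub, map_neg, map_smul, map_zero, LinearMap.add_apply,
          LinearMap.sub_apply, LinearMap.neg_apply, LinearMap.smul_apply, LinearMap.zero_apply,
          smul_eq_mul, STri.s12, STri.s23]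
        linear_combination EC
      rw [hs1] at hp'
      rw [hs2] at hr
      generalize T.f A A B = p at *
      generalize T.f A B B = p' at *
      generalize T.f B B C = q at *
      generalize T.f B C C = q' at *
      generalize T.f A C C = r at *
      generalize T.f A A C = r' at *
      generalize T.f A B C = d at *
      set X := p * r / r' with hX
      set Y := q * p / p' with hY
      set Z := r * q / q' with hZ
      set κ := p' * q' * r' / (p * q * r) with hκ
      have l1 : X + κ * Z = 2 * d := by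
        rw [hX, hκ, hZ]
        field_simp
        linear_combination k1
      have l2 : Y + κ * X = 2 * d := by
        rw [hX, hκ, hY]
        field_simp
        linear_combination k2
      have l3 : Z + κ * Y = 2 * d := by
        rw [hZ, hκ, hY]
        field_simp
        linear_combination k3
      have l4 : (X - Z) * (1 - κ + κ ^ 2) = 0 := by
        linear_combination (1 - κ) * l1 + κ * l2 - l3
      have l5 : 1 - κ + κ ^ 2 ≠ 0 := by
        nlinarith [sq_nonneg (2 * κ - 1)]
      have l6 := (mul_eq_zero.1 l4).resolve_right l5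
      rw [hX, hZ, sub_eq_zero] at l6
      field_simp at l6
      linear_combination l6
    have h5 : T.f A A D = 0 := by
      rw [hD, map_sub, map_smul, map_smul, smul_eq_mul, smul_eq_mul]
      linear_combination hpq
    have h6 := a3 D h5
    rw [T.s12, T.s23] at h6
    exact h6

/-- **Covering theorem** -/
theorem alg_cover (hd : 4 ≤ Module.finrank K V) (hN : NoHyp T) (hS : NoSing T)
    (hA : ∀ P w, T.f P P P = 0 → T.f P P w = 0 → T.f P w w ≠ 0 → ∃ x, Dat T P x) :
    ∃ L : Set (V →ₗ[K] K), L.Finite ∧ (∀ y ∈ L, y ≠ 0) ∧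
      ∀ A, T.f A A A = 0 → ∃ y ∈ L, y A = 0 := by
  obtain ⟨L₁, f1, n1, c1⟩ := flex_cover hS
  -- a nonzero form
  obtain ⟨y₀, hy₀⟩ : ∃ y : V →ₗ[K] K, y ≠ 0 := by
    have : 0 < Module.finrank K V := by omega
    obtain ⟨v, hv⟩ := Module.finrank_pos_iff_exists_ne_zero.1 this
    obtain ⟨w, hw⟩ := hS v hv
    exact ⟨T.f v v, fun h0 => hw (by rw [h0]; rfl)⟩
  -- nonflex zeros
  obtain ⟨L₂, f2, n2, c2⟩ : ∃ L : Set (V →ₗ[K] K), L.Finite ∧ (∀ y ∈ L, y ≠ 0) ∧
      ∀ P x, Dat T P x → ∃ y ∈ L, y P = 0 := by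
    by_cases h0 : ∃ P₀ x₀, Dat T P₀ x₀
    swap
    · exact ⟨∅, Set.finite_empty, by simp, fun P x h => (h0 ⟨P, x, h⟩).elim⟩
    obtain ⟨P₀, x₀, h0⟩ := h0
    obtain ⟨L₀, g0, g1, g2⟩ := meet_cover hN hS h0
    by_cases h1 : ∃ P₁ x₁, Dat T P₁ x₁ ∧ ¬ Meet T P₀ x₀ P₁ x₁
    swap
    · push Not at h1
      exact ⟨L₀, g0, g1, fun P x h => g2 P x h (h1 P x h)⟩
    obtain ⟨P₁, x₁, h1, h01⟩ := h1
    obtain ⟨L₁, k0, k1, k2⟩ := meet_cover hN hS h1
    refine ⟨L₀ ∪ L₁, g0.union k0, ?_, fun P x h => ?_⟩
    · rintro y (hy | hy)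
      · exact g1 y hy
      · exact k1 y hy
    by_cases e0 : Meet T P₀ x₀ P x
    · obtain ⟨y, hy, hy'⟩ := g2 P x h e0
      exact ⟨y, Or.inl hy, hy'⟩
    by_cases e1 : Meet T P₁ x₁ P x
    · obtain ⟨y, hy, hy'⟩ := k2 P x h e1
      exact ⟨y, Or.inr hy, hy'⟩
    exact (third hd h0 h1 h h01 e0 e1).elim
  refine ⟨L₁ ∪ L₂ ∪ {y₀}, (f1.union f2).union (Set.finite_singleton _), ?_, fun A hA0 => ?_⟩
  · rintro y ((hy | hy) | hy)
    · exact n1 y hy
    · exact n2 y hy
    · rw [hy]
      exact hy₀
  by_cases hz : A = 0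
  · exact ⟨y₀, Or.inr rfl, by rw [hz, map_zero]⟩
  by_cases hfl : ∀ w, T.f A A w = 0 → T.f A w w = 0
  · obtain ⟨y, hy, hy'⟩ := c1 A hz hA0 hfl
    exact ⟨y, Or.inl (Or.inl hy), hy'⟩
  · push Not at hfl
    obtain ⟨w, hw1, hw2⟩ := hfl
    obtain ⟨x, hx⟩ := hA A w hA0 hw1 hw2
    obtain ⟨y, hy, hy'⟩ := c2 A x hx
    exact ⟨y, Or.inl (Or.inr hy), hy'⟩

end Pool.Agent.TH729.CC
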