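import Pool.Agent.TH729.SQ.Tri

/-!
# Polynomial functions with real algebraic coefficients (helper729)
-/

set_option autoImplicit false

namespace Pool.Agent.TH729.CC

open Set Filter Topology Pool.Agent.H581R2 Pool.Agent.TH729.SQ

variable {ι κ : Type}

/-- the field of real algebraic numbers -/
abbrev RA : Type := algebraicClosure ℚ ℝ

/-- polynomial functions with real algebraic coefficients -/
def PA (f : (ι → ℝ) → ℝ) : Prop := ∃ q : MvPolynomial ι RA, ∀ v, f v = MvPolynomial.aeval v q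

lemma PA.coord (i : ι) : PA (fun v : ι → ℝ => v i) := ⟨MvPolynomial.X i, fun v => by simp⟩

lemma PA.const {r : ℝ} (hr : IsAlgebraic ℚ r) : PA (fun _ : ι → ℝ => r) :=
  ⟨MvPolynomial.C ⟨r, mem_algebraicClosure_iff.2 hr⟩, fun v => by
    rw [MvPolynomial.aeval_C]
    rfl⟩

lemma PA.add {f g : (ι → ℝ) → ℝ} (hf : PA f) (hg : PA g) : PA (fun v => f v + g v) := by
  obtain ⟨p, hp⟩ := hf
  obtain ⟨q, hq⟩ := hg
  exact ⟨p + q, fun v => by simp [hp, hq]⟩

lemma PA.sub {f g : (ι → ℝ) → ℝ} (hf : PA f) (hg : PA g) : PA (fun v => f v - g v) := by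
  obtain ⟨p, hp⟩ := hf
  obtain ⟨q, hq⟩ := hg
  exact ⟨p - q, fun v => by simp [hp, hq]⟩

lemma PA.mul {f g : (ι → ℝ) → ℝ} (hf : PA f) (hg : PA g) : PA (fun v => f v * g v) := by
  obtain ⟨p, hp⟩ := hf
  obtain ⟨q, hq⟩ := hg
  exact ⟨p * q, fun v => by simp [hp, hq]⟩

lemma PA.sum {α : Type*} (s : Finset α) {f : α → (ι → ℝ) → ℝ} (hf : ∀ a ∈ s, PA (f a)) :
    PA (fun v => ∑ a ∈ s, f a v) := by
  classical
  induction s using Finset.induction_on with
  | empty => exact ⟨0, fun v => by simp⟩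
  | insert a s ha ih =>
    have : (fun v => ∑ b ∈ insert a s, f b v) = fun v => f a v + ∑ b ∈ s, f b v := by
      funext v; rw [Finset.sum_insert ha]
    rw [this]
    exact (hf a (by simp)).add (ih fun b hb => hf b (by simp [hb]))

/-- coefficients as parameters -/
lemma PA.param {f : (ι → ℝ) → ℝ} (hf : PA f) : ∃ (J : Type) (_ : Finite J) (a : J → ℝ)
    (_ : ∀ j, IsAlgebraic ℚ (a j)) (g : (J ⊕ ι → ℝ) → ℝ), PF g ∧
      ∀ v, f v = g (Sum.elim a v) := by
  classical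
  obtain ⟨q, hq⟩ := hf
  refine ⟨{m // m ∈ q.support}, inferInstance, fun m => ((q.coeff m.1 : RA) : ℝ), fun m =>
    mem_algebraicClosure_iff.1 (q.coeff m.1).2, fun w => ∑ m ∈ q.support.attach,
      w (Sum.inl m) * MvPolynomial.aeval w (MvPolynomial.rename (Sum.inr : ι → _ ⊕ ι)
        (MvPolynomial.monomial m.1 (1 : ℚ))), ?_, fun v => ?_⟩
  · exact PF.sum _ fun m _ => (PF.coord _).mul (PF.aeval _)
  · rw [hq]
    have h1 : (MvPolynomial.aeval v q : ℝ) = ∑ m ∈ q.support.attach,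
        MvPolynomial.aeval v (MvPolynomial.monomial m.1 (q.coeff m.1)) := by
      conv_lhs => rw [q.as_sum]
      rw [map_sum, ← Finset.sum_attach]
    rw [h1]
    refine Finset.sum_congr rfl fun m _ => ?_
    rw [MvPolynomial.aeval_rename, MvPolynomial.aeval_monomial, MvPolynomial.aeval_monomial]
    have h2 : (Sum.elim (fun m : {m // m ∈ q.support} => ((q.coeff m.1 : RA) : ℝ)) v) ∘
        (Sum.inr : ι → _ ⊕ ι) = v := by
      funext i
      rfl
    rw [h2]
    simp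

lemma SA.preimageA [Finite κ] {S : Set (κ → ℝ)} (hS : SA S) {φ : (ι → ℝ) → κ → ℝ}
    (hφ : ∀ k, PA (fun v => φ v k)) : SA (φ ⁻¹' S) := by
  choose J hJ a ha g hg hφg using fun k => (hφ k).param
  have h1 : SA {w : (Σ k, J k) ⊕ ι → ℝ | (fun k => g k (fun s : J k ⊕ ι => w (Sum.map
      (Sigma.mk k) id s))) ∈ S} :=
    SA.preimage hS (φ := fun w k => g k (fun s : J k ⊕ ι => w (Sum.map (Sigma.mk k) id s)))
      fun k => (hg k).comp (φ := fun (w : (Σ k, J k) ⊕ ι → ℝ) (s : J k ⊕ ι) =>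
        w (Sum.map (Sigma.mk k) id s)) fun s => PF.coord _
  have h2 := SA.of_param h1 (a := fun s : Σ k, J k => a s.1 s.2) fun s => ha s.1 s.2
  refine SAP.congr (q := fun v => φ v ∈ S) h2 fun v => ?_
  have h3 : (fun k => g k (fun s : J k ⊕ ι => (Sum.elim (fun s : Σ k, J k => a s.1 s.2) v :
      (Σ k, J k) ⊕ ι → ℝ) (Sum.map (Sigma.mk k) id s))) = φ v := by
    funext k
    rw [hφg k v]
    congr 1
    funext s
    rcases s with s | s <;> rfl
  constructor
  · intro h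
    rw [← h3] at h
    exact h
  · intro h
    rw [← h3]
    exact h

lemma SAP.preimageA [Finite κ] {p : (κ → ℝ) → Prop} (hp : SAP p) {φ : (ι → ℝ) → κ → ℝ}
    (hφ : ∀ k, PA (fun v => φ v k)) : SAP (fun v => p (φ v)) := SA.preimageA hp hφ

lemma SAP.eq_zeroA {f : (ι → ℝ) → ℝ} (hf : PA f) : SAP (fun v => f v = 0) :=
  SAP.preimageA (κ := Unit) (p := fun w => w () = 0) (SAP.eq_zero (PF.coord ()))
    (φ := fun v _ => f v) fun _ => hf

lemma SA.of_isEmpty [IsEmpty ι] (S : Set (ι → ℝ)) : SA S := by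
  refine ⟨∅, fun v w _ hv => ?_⟩
  have : v = w := Subsingleton.elim _ _
  rwa [← this]

end Pool.Agent.TH729.CC
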