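import Pool.Agent.TH729.CC.Lin3

/-!
# Plane cubics with infinitely many rational zeros (helper729)
-/

set_option autoImplicit false
set_option linter.unusedSimpArgs false
set_option linter.unusedTactic false
set_option linter.unusedSectionVars false

namespace Pool.Agent.TH729.CC

open Set Filter Topology

/-! ### One dimensional dynamics -/

lemma dynp {ε : ℝ} (hε : 0 < ε) {A : Set ℝ} (hA : IsClosed A) (h0 : (0 : ℝ) ∈ A)
    (h : ∀ δ > 0, ∃ d : ℝ → ℝ, (∀ s ∈ Icc (-ε) ε, 0 < d s ∧ d s < δ) ∧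
      ∀ s ∈ Icc (-ε) ε, s ∈ A → s + d s ∈ Icc (-ε) ε → s + d s ∈ A) : Icc 0 ε ⊆ A := by
  intro t ht
  rw [← hA.closure_eq, Metric.mem_closure_iff]
  intro δ hδ
  obtain ⟨d, hd, hd'⟩ := h δ hδ
  set B := A ∩ Icc 0 t with hB
  have hBc : IsCompact B := isCompact_Icc.inter_left hA
  have hBn : B.Nonempty := ⟨0, h0, le_rfl, ht.1⟩
  have hs := hBc.sSup_mem hBn
  set s := sSup B with hs'
  have hsI : s ∈ Icc (-ε) ε := ⟨by linarith [hs.2.1], hs.2.2.trans ht.2⟩
  refine ⟨s, hs.1, ?_⟩
  rw [Real.dist_eq, abs_of_nonneg (by linarith [hs.2.2])]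
  by_contra hcon
  push Not at hcon
  obtain ⟨d1, d2⟩ := hd s hsI
  have h1 : s + d s ∈ B := by
    refine ⟨hd' s hsI hs.1 ⟨by linarith [hs.2.1], by linarith [ht.2]⟩, by linarith [hs.2.1],
      by linarith⟩
  have h2 : s + d s ≤ s := le_csSup hBc.bddAbove h1
  linarith

lemma dyn {ε : ℝ} (hε : 0 < ε) {A : Set ℝ} (hA : IsClosed A) (h0 : (0 : ℝ) ∈ A)
    (h : ∀ δ > 0, ∃ d : ℝ → ℝ, ContinuousOn d (Icc (-ε) ε) ∧
      (∀ s ∈ Icc (-ε) ε, |d s| < δ ∧ d s ≠ 0) ∧
      ∀ s ∈ Icc (-ε) ε, s ∈ A → s + d s ∈ Icc (-ε) ε → s + d s ∈ A) :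
    Icc 0 ε ⊆ A ∨ Icc (-ε) 0 ⊆ A := by
  by_cases hp : ∀ δ > 0, ∃ d : ℝ → ℝ, (∀ s ∈ Icc (-ε) ε, 0 < d s ∧ d s < δ) ∧
      ∀ s ∈ Icc (-ε) ε, s ∈ A → s + d s ∈ Icc (-ε) ε → s + d s ∈ A
  · exact Or.inl (dynp hε hA h0 hp)
  right
  push Not at hp
  obtain ⟨δ₀, hδ₀, hp⟩ := hp
  have hA' : IsClosed {s : ℝ | -s ∈ A} := hA.preimage continuous_neg
  have h0' : (0 : ℝ) ∈ {s : ℝ | -s ∈ A} := by simpa using h0
  have key := dynp hε hA' h0' (by
    intro δ hδ
    obtain ⟨d, dc, dn, di⟩ := h (min δ δ₀) (lt_min hδ hδ₀)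
    have hneg : ∀ s ∈ Icc (-ε) ε, d s < 0 := by
      -- constant sign
      have hpre : (d '' Icc (-ε) ε).OrdConnected := (isPreconnected_Icc.image d dc).ordConnected
      intro s hs
      by_contra hcon
      push Not at hcon
      have hpos : ∀ s' ∈ Icc (-ε) ε, 0 < d s' := by
        intro s' hs'
        by_contra hcon'
        push Not at hcon'
        obtain ⟨s'', h1, h2⟩ := hpre.out (mem_image_of_mem d hs') (mem_image_of_mem d hs)
          ⟨hcon', hcon⟩
        exact (dn s'' h1).2 h2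
      obtain ⟨s₁, a1, a2, a3, a4⟩ := hp d (fun s' hs' => ⟨hpos s' hs',
        ((le_abs_self _).trans_lt (dn s' hs').1).trans_le (min_le_right _ _)⟩)
      exact a4 (di s₁ a1 a2 a3)
    refine ⟨fun s => -d (-s), ?_, ?_⟩
    · intro s hs
      have hs' : -s ∈ Icc (-ε) ε := ⟨by linarith [hs.2], by linarith [hs.1]⟩
      have h1 := hneg _ hs'
      have h2 := (dn _ hs').1
      have h3 := neg_abs_le (d (-s))
      have h4 := min_le_left δ δ₀
      constructor <;> linarith
    · intro s hs hsA hin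
      have hs' : -s ∈ Icc (-ε) ε := ⟨by linarith [hs.2], by linarith [hs.1]⟩
      change -(s + -d (-s)) ∈ A
      have h1 : -(s + -d (-s)) = -s + d (-s) := by ring
      rw [h1]
      refine di _ hs' hsA ?_
      rw [← h1]
      exact ⟨by linarith [hin.2], by linarith [hin.1]⟩)
  intro s hs
  have := key (show -s ∈ Icc 0 ε from ⟨by linarith [hs.2], by linarith [hs.1]⟩)
  simpa using this

/-! ### The arc -/

variable {F : Tri 3} {K : Subfield ℝ}

/-- `C` is an accumulation point -/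
def Acc (F : Tri 3) (K : Subfield ℝ) (C : E 3) : Prop :=
  ∃ᶠ y in 𝓝 C, (∃ (r : ℝ) (u : E 3), r ≠ 0 ∧ u ∈ Z F K ∧ y = r • u) ∧ ∀ t : ℝ, y ≠ t • C

lemma cont_lin (p : E 3 →ₗ[ℝ] ℝ) : Continuous p := LinearMap.continuous_of_finiteDimensional p

lemma comb_zero {C R : E 3} (hCC : F.f C C C = 0) (hRR : F.f R R R = 0) {α β : ℝ}
    (h : F.f (α • C + β • R) (α • C + β • R) (α • C + β • R) = 0) :
    3 * α * β * (α * F.f C C R + β * F.f C R R) = 0 := by
  simp only [map_add, map_smul, LinearMap.add_apply, LinearMap.smul_apply, smul_eq_mul,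
    Tri.s12, Tri.s23] at h hRR hCC
  try simp only [Tri.s12, Tri.s23]
  rw [hRR, hCC] at h
  linear_combination h

lemma chord_inv {C : E 3} (hCC : F.f C C C = 0) (R : E 3) :
    chord F C (chord F C R) = (-(F.f C C R) ^ 3) • R := by
  have h1 : F.f C C (chord F C R) = -(F.f C C R) ^ 2 := by
    simp only [chord]
    rw [map_sub, map_smul, map_smul, hCC]
    simp only [smul_eq_mul]
    ring
  have h2 : F.f C (chord F C R) (chord F C R) = -(F.f C R R) * (F.f C C R) ^ 2 := by
    have h3 : ∀ u w : ℝ, F.f C (u • C - w • R) (u • C - w • R) = u ^ 2 * F.f C C C -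
        2 * u * w * F.f C C R + w ^ 2 * F.f C R R := by
      intro u w
      simp only [map_add, map_sub, map_neg, map_smul, map_zero, LinearMap.add_apply,
        LinearMap.sub_apply, LinearMap.neg_apply, LinearMap.smul_apply, LinearMap.zero_apply,
        smul_eq_mul, Tri.s12, Tri.s23]
      ring
    simp only [chord]
    rw [h3, hCC]
    ring
  change F.f C (chord F C R) (chord F C R) • C - F.f C C (chord F C R) • chord F C R = _
  rw [h1, h2]
  simp only [chord]
  module

theorem arc (hF : Rat3 F K) {C O : E 3} (hC : C ∈ W F K) (hO : O ∈ W F K)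
    (ha : F.f C O O ≠ 0) (hb : F.f C C O ≠ 0) (hacc : Acc F K C) : ∃ R, Int' F K R := by
  have hCC := W.zero_of hC
  have hOO := W.zero_of hO
  -- the third vector
  obtain ⟨B, hB0, hB1, hB2⟩ : ∃ B : E 3, B ≠ 0 ∧ F.f C C B = 0 ∧ F.f O O B = 0 := by
    have k1 := LinearMap.finrank_range_add_finrank_ker ((F.f C C).prod (F.f O O))
    have k2 : Module.finrank ℝ (LinearMap.range ((F.f C C).prod (F.f O O))) ≤ 2 := by
      refine (Submodule.finrank_le _).trans ?_
      simp
    have k3 : Module.finrank ℝ (E 3) = 3 := by simp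
    have k4 : 0 < Module.finrank ℝ (LinearMap.ker ((F.f C C).prod (F.f O O))) := by omega
    obtain ⟨⟨u, hu⟩, hne⟩ := Module.finrank_pos_iff_exists_ne_zero.1 k4
    simp only [LinearMap.mem_ker, LinearMap.prod_apply, Function.prod, Prod.mk_eq_zero] at hu
    exact ⟨u, by simpa using hne, hu.1, hu.2⟩
  have hOC : F.f O O C = F.f C O O := F.p3 C O O
  obtain ⟨p, q, r, hpqr, ⟨pO, qO, rO⟩, ⟨pB, qB, rB⟩, ⟨pC, qC, rC⟩⟩ :=
    coords (U := O) (V := B) (T := C) (by
      intro x y z h
      have h1 := congrArg (F.f C C) h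
      simp only [map_add, map_smul, hCC, hB1, smul_eq_mul, mul_zero, add_zero, map_zero] at h1
      have hx : x = 0 := (mul_eq_zero.1 h1).resolve_right hb
      have h2 := congrArg (F.f O O) h
      simp only [map_add, map_smul, hOO, hB2, smul_eq_mul, mul_zero, zero_add, map_zero,
        hOC] at h2
      have hz : z = 0 := (mul_eq_zero.1 h2).resolve_right ha
      rw [hx, hz, zero_smul, zero_smul, zero_add, add_zero] at h
      exact ⟨hx, (smul_eq_zero.1 h).resolve_right hB0, hz⟩)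
  set a := F.f C O O with ha'
  set b := F.f C C O with hb'
  set κ₁ := F.f C O B
  set κ₂ := F.f C B B
  set κ₃ := F.f O B B
  set κ₄ := F.f B B B
  set Qs : ℝ → ℝ := fun s => a + 2 * s * κ₁ + s ^ 2 * κ₂ with hQs
  set fs : ℝ → ℝ := fun s => 3 * s ^ 2 * κ₃ + s ^ 3 * κ₄ with hfs
  set rad : ℝ → ℝ := fun s => Qs s ^ 2 - (4 / 3) * b * fs s with hrad
  set σ : ℝ := a / |a| with hσ
  have ha0 : 0 < |a| := abs_pos.2 ha
  have hσ2 : σ ^ 2 = 1 := by
    rw [hσ, div_pow, sq_abs, div_self (pow_ne_zero _ ha)]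
  have hσ0 : σ ≠ 0 := by
    intro h0
    rw [h0] at hσ2
    norm_num at hσ2
  have hσa : σ * |a| = a := by
    rw [hσ]
    field_simp
  set x : ℝ → ℝ := fun s => (-Qs s + σ * √(rad s)) / (2 * b) with hx
  have hQc : Continuous Qs := by fun_prop
  have hfc : Continuous fs := by fun_prop
  have hrc : Continuous rad := by fun_prop
  have hxc : Continuous x := by
    apply Continuous.div_const
    exact hQc.neg.add (continuous_const.mul (Real.continuous_sqrt.comp hrc))
  have hx0 : x 0 = 0 := by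
    have h1 : rad 0 = a ^ 2 := by simp [hrad, hQs, hfs]
    have h2 : Qs 0 = a := by simp [hQs]
    simp only [hx, h1, h2, Real.sqrt_sq_eq_abs, hσa]
    simp
  set cv : ℝ → E 3 := fun s => O + s • B + x s • C with hcv
  have hcvc : Continuous cv := by
    have := hxc
    fun_prop
  have hcv0 : cv 0 = O := by simp [hcv, hx0]
  -- the value of the form
  have E1 : ∀ s z : ℝ, F.f (O + s • B + z • C) (O + s • B + z • C) (O + s • B + z • C) =
      3 * b * z ^ 2 + 3 * Qs s * z + fs s := by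
    intro s z
    simp only [hQs, hfs, ha', hb', κ₁, κ₂, κ₃, κ₄]
    clear hpqr pO qO rO pB qB rB pC qC rC
    try simp only [Tri.s12, Tri.s23] at hCC hOO hB1 hB2
    simp only [map_add, map_sub, map_neg, map_smul, map_zero, LinearMap.add_apply,
      LinearMap.sub_apply, LinearMap.neg_apply, LinearMap.smul_apply, LinearMap.zero_apply,
      smul_eq_mul, Tri.s12, Tri.s23]
    rw [hCC, hOO, hB1, hB2]
    ring
  have E2 : ∀ s, 0 ≤ rad s → F.f (cv s) (cv s) (cv s) = 0 := by
    intro s hs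
    simp only [hcv]
    rw [E1]
    have h1 : (2 * b * x s + Qs s) ^ 2 = rad s := by
      have h2 : 2 * b * x s + Qs s = σ * √(rad s) := by
        simp only [hx]
        field_simp
        ring
      rw [h2, mul_pow, hσ2, one_mul, Real.sq_sqrt hs]
    have h3 : 4 * b * (3 * b * x s ^ 2 + 3 * Qs s * x s + fs s) = 0 := by
      simp only [hrad] at h1
      linear_combination 3 * h1
    have h4 : (4 : ℝ) * b ≠ 0 := by simp [hb]
    exact (mul_eq_zero.1 h3).resolve_left h4
  have E3 : ∀ s, F.f C C (cv s) = b := by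
    intro s
    simp only [hcv]
    rw [map_add, map_add, map_smul, map_smul, hB1, hCC]
    simp [hb']
  have E4 : ∀ s, F.f C (cv s) (cv s) = σ * √(rad s) := by
    intro s
    have h2 : 2 * b * x s + Qs s = σ * √(rad s) := by
      simp only [hx]
      field_simp
      ring
    rw [← h2]
    simp only [hcv]
    generalize x s = z
    simp only [hQs, ha', hb', κ₁, κ₂]
    clear hpqr pO qO rO pB qB rB pC qC rC
    try simp only [Tri.s12, Tri.s23] at hCC hOO hB1 hB2
    simp only [map_add, map_sub, map_neg, map_smul, map_zero, LinearMap.add_apply,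
      LinearMap.sub_apply, LinearMap.neg_apply, LinearMap.smul_apply, LinearMap.zero_apply,
      smul_eq_mul, Tri.s12, Tri.s23]
    rw [hCC, hB1]
    ring
  -- the range of parameters
  set η : ℝ := |a| / (8 * |b|) with hη
  have hb0 : 0 < |b| := abs_pos.2 hb
  have hη0 : 0 < η := by positivity
  have hηb : |b| * η = |a| / 8 := by
    rw [hη]
    field_simp
  obtain ⟨ε, hε, hgood⟩ : ∃ ε > 0, ∀ s ∈ Icc (-ε) ε, 0 < rad s ∧ |a| / 2 < |Qs s| ∧ |x s| < η := by
    have h1 : ∀ᶠ s in 𝓝 (0 : ℝ), 0 < rad s := by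
      have : rad 0 = a ^ 2 := by simp [hrad, hQs, hfs]
      exact (hrc.tendsto 0).eventually (lt_mem_nhds (by rw [this]; positivity))
    have h2 : ∀ᶠ s in 𝓝 (0 : ℝ), |a| / 2 < |Qs s| := by
      have : Qs 0 = a := by simp [hQs]
      exact (hQc.abs.tendsto 0).eventually (lt_mem_nhds (by rw [this]; linarith))
    have h3 : ∀ᶠ s in 𝓝 (0 : ℝ), |x s| < η :=
      (hxc.abs.tendsto 0).eventually (gt_mem_nhds (by rw [hx0]; simpa using hη0))
    obtain ⟨e, he, hall⟩ := Metric.eventually_nhds_iff.1 (h1.and (h2.and h3))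
    refine ⟨e / 2, by positivity, fun s hs => hall ?_⟩
    rw [Real.dist_eq, sub_zero]
    have := abs_le.2 ⟨hs.1, hs.2⟩
    linarith
  -- uniqueness
  have huniq : ∀ s ∈ Icc (-ε) ε, ∀ z, |z| < η →
      F.f (O + s • B + z • C) (O + s • B + z • C) (O + s • B + z • C) = 0 → z = x s := by
    intro s hs z hz h0
    obtain ⟨g1, g2, g3⟩ := hgood s hs
    have h1 := E2 s g1.le
    simp only [hcv] at h1
    rw [E1] at h0 h1
    have h2 : (z - x s) * (b * (z + x s) + Qs s) = 0 := by
      linear_combination (h0 - h1) / 3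
    rcases mul_eq_zero.1 h2 with h3 | h3
    · linarith
    · exfalso
      have h4 : |Qs s| = |b * (z + x s)| := by
        rw [← abs_neg (b * (z + x s))]
        congr 1
        linarith
      rw [abs_mul] at h4
      have h5 : |z + x s| < 2 * η := by
        have := abs_add_le z (x s)
        linarith
      have h6 : |b| * |z + x s| ≤ |b| * (2 * η) := mul_le_mul_of_nonneg_left h5.le hb0.le
      have h7 : |b| * (2 * η) = |a| / 4 := by
        linear_combination 2 * hηb
      linarith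
  -- the closed set of parameters
  set A : Set ℝ := {s | cv s ∈ W F K} with hA
  have hAc : IsClosed A := isClosed_closure.preimage hcvc
  have h0A : (0 : ℝ) ∈ A := by
    change cv 0 ∈ W F K
    rw [hcv0]
    exact hO
  -- the displacement maps
  set G : E 3 → ℝ → E 3 := fun Q s => chord F C (chord F Q (cv s)) with hG
  have hchc : Continuous fun z : E 3 × ℝ => chord F z.1 (cv z.2) := by
    have h1 : Continuous fun z : E 3 × ℝ => cv z.2 := hcvc.comp continuous_snd
    have h2 : Continuous fun z : E 3 × ℝ => z.1 := continuous_fst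
    exact ((cont F h2 h1 h1).smul h2).sub ((cont F h2 h2 h1).smul h1)
  have hGc : Continuous fun z : E 3 × ℝ => G z.1 z.2 :=
    ((cont F continuous_const hchc hchc).smul continuous_const).sub
      ((cont F continuous_const continuous_const hchc).smul hchc)
  have hinv : ∀ R : E 3, chord F C (chord F C R) = (-(F.f C C R) ^ 3) • R := chord_inv hCC
  have hch2 : ∀ (ρ : ℝ) (R : E 3), chord F C (ρ • R) = ρ ^ 2 • chord F C R := by
    intro ρ R
    simp only [chord, map_smul, LinearMap.smul_apply, smul_eq_mul]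
    module
  have hcvp : ∀ s, p (cv s) = 1 ∧ q (cv s) = s ∧ r (cv s) = x s := by
    intro s
    simp only [hcv, map_add, map_smul, pO, qO, rO, pB, qB, rB, pC, qC, rC, smul_eq_mul]
    refine ⟨?_, ?_, ?_⟩ <;> ring
  have hpc := cont_lin p
  have hqc := cont_lin q
  have hrc' := cont_lin r
  have hunif : ∀ δ > 0, ∀ᶠ Q in 𝓝 C, ∀ s ∈ Icc (-ε) ε, p (G Q s) ≠ 0 ∧
      |q (G Q s) / p (G Q s) - s| < δ ∧ |r (G Q s) / p (G Q s)| < η ∧
      F.f Q (cv s) (cv s) ≠ 0 ∧ F.f C C (chord F Q (cv s)) ≠ 0 ∧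
      (r Q - p Q * x s) * b + p Q * F.f C (cv s) (cv s) ≠ 0 ∧ r Q - p Q * x s ≠ 0 := by
    intro δ hδ
    refine isCompact_Icc.eventually_forall_of_forall_eventually fun s hs => ?_
    obtain ⟨g1, g2, g3⟩ := hgood s hs
    have hGC : G C s = (-b ^ 3) • cv s := by
      simp only [hG]
      rw [hinv, E3]
    have hb3 : -b ^ 3 ≠ 0 := neg_ne_zero.2 (pow_ne_zero _ hb)
    obtain ⟨c1, c2, c3⟩ := hcvp s
    have v1 : p (G C s) = -b ^ 3 := by rw [hGC, map_smul, c1]; simp
    have v2 : q (G C s) = -b ^ 3 * s := by rw [hGC, map_smul, c2]; simp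
    have v3 : r (G C s) = -b ^ 3 * x s := by rw [hGC, map_smul, c3]; simp
    have k1 : ContinuousAt (fun z : E 3 × ℝ => p (G z.1 z.2)) (C, s) :=
      (hpc.comp hGc).continuousAt
    have k2 : ContinuousAt (fun z : E 3 × ℝ => q (G z.1 z.2)) (C, s) :=
      (hqc.comp hGc).continuousAt
    have k3 : ContinuousAt (fun z : E 3 × ℝ => r (G z.1 z.2)) (C, s) :=
      (hrc'.comp hGc).continuousAt
    have hcv2 : Continuous fun z : E 3 × ℝ => cv z.2 := hcvc.comp continuous_snd
    have e1 : ∀ᶠ z : E 3 × ℝ in 𝓝 (C, s), p (G z.1 z.2) ≠ 0 :=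
      k1.eventually_ne (by change p (G C s) ≠ 0; rw [v1]; exact hb3)
    have e2 : ∀ᶠ z : E 3 × ℝ in 𝓝 (C, s), |q (G z.1 z.2) / p (G z.1 z.2) - z.2| < δ := by
      have : ContinuousAt (fun z : E 3 × ℝ => |q (G z.1 z.2) / p (G z.1 z.2) - z.2|) (C, s) := by
        refine ((k2.div k1 ?_).sub continuous_snd.continuousAt).abs
        change p (G C s) ≠ 0
        rw [v1]
        exact hb3
      refine this.eventually (gt_mem_nhds ?_)
      change |q (G C s) / p (G C s) - s| < δ
      rw [v1, v2, mul_div_cancel_left₀ _ hb3, sub_self, abs_zero]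
      exact hδ
    have e3 : ∀ᶠ z : E 3 × ℝ in 𝓝 (C, s), |r (G z.1 z.2) / p (G z.1 z.2)| < η := by
      have : ContinuousAt (fun z : E 3 × ℝ => |r (G z.1 z.2) / p (G z.1 z.2)|) (C, s) := by
        refine (k3.div k1 ?_).abs
        change p (G C s) ≠ 0
        rw [v1]
        exact hb3
      refine this.eventually (gt_mem_nhds ?_)
      change |r (G C s) / p (G C s)| < η
      rw [v1, v3, mul_div_cancel_left₀ _ hb3]
      exact g3
    have e4 : ∀ᶠ z : E 3 × ℝ in 𝓝 (C, s), F.f z.1 (cv z.2) (cv z.2) ≠ 0 := by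
      refine (cont F continuous_fst hcv2 hcv2).continuousAt.eventually_ne ?_
      change F.f C (cv s) (cv s) ≠ 0
      rw [E4]
      exact mul_ne_zero hσ0 (Real.sqrt_pos.2 g1).ne'
    have e5 : ∀ᶠ z : E 3 × ℝ in 𝓝 (C, s), F.f C C (chord F z.1 (cv z.2)) ≠ 0 := by
      refine (cont F continuous_const continuous_const hchc).continuousAt.eventually_ne ?_
      change F.f C C (chord F C (cv s)) ≠ 0
      simp only [chord]
      rw [map_sub, map_smul, map_smul, hCC, E3]
      simp [hb]
    have e6 : ∀ᶠ z : E 3 × ℝ in 𝓝 (C, s), (r z.1 - p z.1 * x z.2) * b +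
        p z.1 * F.f C (cv z.2) (cv z.2) ≠ 0 := by
      have : Continuous fun z : E 3 × ℝ => (r z.1 - p z.1 * x z.2) * b +
          p z.1 * F.f C (cv z.2) (cv z.2) :=
        (((hrc'.comp continuous_fst).sub ((hpc.comp continuous_fst).mul
          (hxc.comp continuous_snd))).mul continuous_const).add
          ((hpc.comp continuous_fst).mul (cont F continuous_const hcv2 hcv2))
      refine this.continuousAt.eventually_ne ?_
      change (r C - p C * x s) * b + p C * F.f C (cv s) (cv s) ≠ 0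
      rw [rC, pC]
      simpa using hb
    have e7 : ∀ᶠ z : E 3 × ℝ in 𝓝 (C, s), r z.1 - p z.1 * x z.2 ≠ 0 := by
      have : Continuous fun z : E 3 × ℝ => r z.1 - p z.1 * x z.2 :=
        (hrc'.comp continuous_fst).sub ((hpc.comp continuous_fst).mul (hxc.comp continuous_snd))
      refine this.continuousAt.eventually_ne ?_
      change r C - p C * x s ≠ 0
      rw [rC, pC]
      simp
    filter_upwards [e1, e2, e3, e4, e5, e6, e7] with z a1 a2 a3 a4 a5 a6 a7
    exact ⟨a1, a2, a3, a4, a5, a6, a7⟩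
  -- writing zeros in the chart
  have hchart : ∀ (Y : E 3) (s : ℝ), s ∈ Icc (-ε) ε → p Y ≠ 0 → q Y / p Y = s →
      |r Y / p Y| < η → F.f Y Y Y = 0 → Y = p Y • cv s := by
    intro Y s hs h1 h2 h3 h4
    have hY : Y = p Y • (O + s • B + (r Y / p Y) • C) := by
      conv_lhs => rw [hpqr Y]
      rw [← h2, smul_add, smul_add, smul_smul, smul_smul, mul_div_cancel₀ _ h1,
        mul_div_cancel₀ _ h1]
    have h5 : F.f (O + s • B + (r Y / p Y) • C) (O + s • B + (r Y / p Y) • C)
        (O + s • B + (r Y / p Y) • C) = 0 := by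
      rw [hY] at h4
      generalize p Y = t at *
      generalize (O + s • B + (r Y / t) • C) = w at *
      simp only [map_smul, LinearMap.smul_apply, smul_eq_mul] at h4
      have := h4
      simpa [h1] using this
    have h6 := huniq s hs _ h3 h5
    rw [h6] at hY
    exact hY
  have hdyn := dyn hε hAc h0A (by
    intro δ hδ
    obtain ⟨Q, ⟨⟨ρ₀, u, hρ₀, hu, hQu⟩, hQC⟩, hQ⟩ := (hacc.and_eventually (hunif δ hδ)).exists
    have hQW : Q ∈ W F K := by
      rw [hQu]
      exact W.smul _ (subset_closure hu)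
    have hQ0 := W.zero_of hQW
    have hGz : ∀ s ∈ Icc (-ε) ε, F.f (G Q s) (G Q s) (G Q s) = 0 := by
      intro s hs
      exact chord_zero F hCC (chord_zero F hQ0 (E2 s (hgood s hs).1.le))
    refine ⟨fun s => q (G Q s) / p (G Q s) - s, ?_, ?_, ?_⟩
    · have hGQ : Continuous fun s : ℝ => G Q s :=
        hGc.comp (g := fun z : E 3 × ℝ => G z.1 z.2) (f := fun s : ℝ => ((Q, s) : E 3 × ℝ))
          (by fun_prop)
      have hq1 : Continuous fun s : ℝ => q (G Q s) := hqc.comp hGQ
      have hp1 : Continuous fun s : ℝ => p (G Q s) := hpc.comp hGQ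
      exact (hq1.continuousOn.div hp1.continuousOn fun s hs => (hQ s hs).1).sub continuousOn_id
    · intro s hs
      obtain ⟨a1, a2, a3, a4, a5, a6, a7⟩ := hQ s hs
      refine ⟨a2, fun h0 => ?_⟩
      have h1 := hchart (G Q s) s hs a1 (by linarith) a3 (hGz s hs)
      set R := cv s with hR
      set S := chord F Q R with hS
      set ρ := p (G Q s) with hρ
      have h2 : (-(F.f C C S) ^ 3) • S = ρ ^ 2 • (F.f C R R • C - b • R) := by
        rw [← hinv S]
        have h3 : chord F C S = ρ • R := h1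
        rw [h3, hch2]
        simp only [chord]
        rw [E3]
      have h4 : F.f Q R R • Q = S + F.f Q Q R • R := by
        simp only [hS, chord]
        abel
      have h5 : (F.f C C S) ^ 3 ≠ 0 := pow_ne_zero _ a5
      have h6 : S = (-(ρ ^ 2 * F.f C R R) / (F.f C C S) ^ 3) • C +
          (ρ ^ 2 * b / (F.f C C S) ^ 3) • R := by
        have h7 : S = (-1 / (F.f C C S) ^ 3) • ((-(F.f C C S) ^ 3) • S) := by
          rw [smul_smul]
          have : -1 / (F.f C C S) ^ 3 * -(F.f C C S) ^ 3 = 1 := by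
            field_simp
          rw [this, one_smul]
        rw [h2] at h7
        conv_lhs => rw [h7]
        module
      obtain ⟨c1, c2, c3⟩ := hcvp s
      rw [← hR] at c1 c2 c3
      obtain ⟨u', v', huv⟩ : ∃ u' v' : ℝ, F.f Q R R • Q = u' • C + v' • R := by
        refine ⟨-(ρ ^ 2 * F.f C R R) / (F.f C C S) ^ 3, ρ ^ 2 * b / (F.f C C S) ^ 3 + F.f Q Q R,
          ?_⟩
        rw [h4]
        conv_lhs => rw [h6]
        rw [add_smul, add_assoc]
      have hv := congrArg p huv
      have hu' := congrArg r huv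
      simp only [map_add, map_smul, smul_eq_mul, pC, rC, c1, c3, mul_zero, zero_add, mul_one]
        at hv hu'
      have hQR : Q = (r Q - p Q * x s) • C + p Q • R := by
        have h8 : F.f Q R R • Q = F.f Q R R • ((r Q - p Q * x s) • C + p Q • R) := by
          have hu1 : u' = F.f Q R R * (r Q - p Q * x s) := by
            linear_combination x s * hv - hu'
          rw [huv, hu1, ← hv]
          clear_value R
          module
        exact smul_right_injective _ a4 h8
      have h9 : 3 * (r Q - p Q * x s) * p Q * ((r Q - p Q * x s) * b + p Q * F.f C R R) = 0 := by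
        have hRR := E2 s (hgood s hs).1.le
        rw [← hR] at hRR
        have hRb := E3 s
        rw [← hR] at hRb
        rw [hQR] at hQ0
        have h11 := comb_zero hCC hRR hQ0
        rwa [hRb] at h11
      have h10 : p Q = 0 := by
        rcases mul_eq_zero.1 h9 with h | h
        · rcases mul_eq_zero.1 h with h | h
          · exact absurd h (mul_ne_zero (by norm_num) a7)
          · exact h
        · exact absurd h a6
      rw [h10] at hQR
      apply hQC (r Q - 0 * x s)
      conv_lhs => rw [hQR]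
      simp
    · intro s hs hsA hin
      have hin' : q (G Q s) / p (G Q s) ∈ Icc (-ε) ε := by
        have : s + (q (G Q s) / p (G Q s) - s) = q (G Q s) / p (G Q s) := by ring
        rwa [this] at hin
      obtain ⟨a1, a2, a3, a4, a5, a6, a7⟩ := hQ s hs
      have h1 := hchart (G Q s) _ hin' a1 rfl a3 (hGz s hs)
      have h2 : G Q s ∈ W F K := W.chord hF hC (W.chord hF hQW hsA)
      rw [h1] at h2
      have h3 := W.of_smul a1 h2
      have : s + (q (G Q s) / p (G Q s) - s) = q (G Q s) / p (G Q s) := by ring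
      rw [this]
      exact h3)
  -- an interior parameter
  obtain ⟨s₁, hs₁⟩ : ∃ s₁, ∀ᶠ s in 𝓝 s₁, s ∈ A ∧ s ∈ Icc (-ε) ε := by
    rcases hdyn with h | h
    · refine ⟨ε / 2, ?_⟩
      filter_upwards [Ioo_mem_nhds (show (0 : ℝ) < ε / 2 by linarith)
        (show ε / 2 < ε by linarith)] with s hs
      exact ⟨h ⟨hs.1.le, hs.2.le⟩, by linarith [hs.1], hs.2.le⟩
    · refine ⟨-ε / 2, ?_⟩
      filter_upwards [Ioo_mem_nhds (show -ε < -ε / 2 by linarith)
        (show -ε / 2 < 0 by linarith)] with s hs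
      exact ⟨h ⟨hs.1.le, hs.2.le⟩, hs.1.le, by linarith [hs.2]⟩
  have hs₁' := hs₁.self_of_nhds
  obtain ⟨g1, g2, g3⟩ := hgood s₁ hs₁'.2
  obtain ⟨c1, c2, c3⟩ := hcvp s₁
  refine ⟨cv s₁, E2 s₁ g1.le, ⟨C, ?_⟩, ?_⟩
  · rw [F.p3 C (cv s₁) (cv s₁), E4]
    exact mul_ne_zero hσ0 (Real.sqrt_pos.2 g1).ne'
  · have e1 : ∀ᶠ Y in 𝓝 (cv s₁), p Y ≠ 0 :=
      hpc.continuousAt.eventually_ne (by rw [c1]; exact one_ne_zero)
    have k2 : ContinuousAt (fun Y => q Y / p Y) (cv s₁) :=
      hqc.continuousAt.div hpc.continuousAt (by rw [c1]; exact one_ne_zero)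
    have k3 : ContinuousAt (fun Y => |r Y / p Y|) (cv s₁) :=
      (hrc'.continuousAt.div hpc.continuousAt (by rw [c1]; exact one_ne_zero)).abs
    have v2 : q (cv s₁) / p (cv s₁) = s₁ := by rw [c1, c2, div_one]
    have e2 : ∀ᶠ Y in 𝓝 (cv s₁), q Y / p Y ∈ A ∧ q Y / p Y ∈ Icc (-ε) ε := by
      have := k2.tendsto
      rw [v2] at this
      exact this.eventually hs₁
    have e3 : ∀ᶠ Y in 𝓝 (cv s₁), |r Y / p Y| < η := by
      refine k3.eventually (gt_mem_nhds ?_)
      change |r (cv s₁) / p (cv s₁)| < η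
      rw [c1, c3, div_one]
      exact g3
    filter_upwards [e1, e2, e3] with Y h1 h2 h3 hY
    rw [hchart Y _ h2.2 h1 rfl h3 hY]
    exact W.smul _ h2.1

/-! ### Accumulation -/

/-- a rational functional vanishing on a rational vector -/
lemma exists_fun {u : E 3} (hu : Rt K u) : ∃ a : Fin 3 → K, a ≠ 0 ∧ ∑ i, (a i : ℝ) * u i = 0 := by
  by_cases h : u 0 = 0
  · refine ⟨![1, 0, 0], ?_, ?_⟩
    · intro h0
      have := congrFun h0 0
      simp at this
    · rw [Fin.sum_univ_three]
      simp [h]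
  · refine ⟨![⟨u 1, hu 1⟩, -⟨u 0, hu 0⟩, 0], ?_, ?_⟩
    · intro h0
      have := congrFun h0 1
      simp only [Matrix.cons_val_one, Matrix.cons_val_zero, Pi.zero_apply, neg_eq_zero] at this
      exact h (congrArg Subtype.val this)
    · rw [Fin.sum_univ_three]
      simp
      ring

theorem exists_acc (h : ¬ Cov F K) : ∃ C : E 3, C ≠ 0 ∧ C ∈ W F K ∧ Acc F K C := by
  set D : Set (E 3) := {y | ‖y‖ = 1 ∧ ∃ (r : ℝ) (u : E 3), r ≠ 0 ∧ u ∈ Z F K ∧ y = r • u} with hD
  have hinf : D.Infinite := by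
    intro hfin
    apply h
    have hch : ∀ y : E 3, ∃ a : Fin 3 → K, a ≠ 0 ∧ (y ∈ D → ∑ i, (a i : ℝ) * y i = 0) := by
      intro y
      by_cases hy : y ∈ D
      · obtain ⟨-, r, u, hr, hu, rfl⟩ := hy
        obtain ⟨a, ha, ha'⟩ := exists_fun hu.1
        refine ⟨a, ha, fun _ => ?_⟩
        have : ∑ i, (a i : ℝ) * (r • u) i = r * ∑ i, (a i : ℝ) * u i := by
          rw [Finset.mul_sum]
          refine Finset.sum_congr rfl fun i _ => ?_
          simp only [Pi.smul_apply, smul_eq_mul]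
          ring
        rw [this, ha', mul_zero]
      · refine ⟨![1, 0, 0], ?_, fun h => (hy h).elim⟩
        intro h0
        have := congrFun h0 0
        simp at this
    choose a ha ha' using hch
    refine ⟨a '' D ∪ {![1, 0, 0]}, (hfin.image _).union (finite_singleton _), ?_, ?_⟩
    · rintro b (⟨y, hy, rfl⟩ | rfl)
      · exact ha y
      · intro h0
        have := congrFun h0 0
        simp at this
    · intro v hv
      by_cases hv0 : v = 0
      · exact ⟨_, Or.inr rfl, by simp [hv0]⟩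
      · have hn : ‖v‖ ≠ 0 := norm_ne_zero_iff.2 hv0
        have hy : ‖v‖⁻¹ • v ∈ D := by
          refine ⟨?_, ‖v‖⁻¹, v, inv_ne_zero hn, hv, rfl⟩
          rw [norm_smul, norm_inv, norm_norm, inv_mul_cancel₀ hn]
        refine ⟨_, Or.inl ⟨_, hy, rfl⟩, ?_⟩
        have h1 := ha' _ hy
        have : ∑ i, (a (‖v‖⁻¹ • v) i : ℝ) * (‖v‖⁻¹ • v) i =
            ‖v‖⁻¹ * ∑ i, (a (‖v‖⁻¹ • v) i : ℝ) * v i := by
          rw [Finset.mul_sum]
          refine Finset.sum_congr rfl fun i _ => ?_
          simp only [Pi.smul_apply, smul_eq_mul]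
          ring
        rw [this] at h1
        exact (mul_eq_zero.1 h1).resolve_left (inv_ne_zero hn)
  have hsub : D ⊆ Metric.sphere (0 : E 3) 1 := by
    intro y hy
    rw [mem_sphere_zero_iff_norm]
    exact hy.1
  obtain ⟨C, hC, hacc⟩ := hinf.exists_accPt_of_subset_isCompact (isCompact_sphere _ _) hsub
  rw [mem_sphere_zero_iff_norm] at hC
  have hC0 : C ≠ 0 := by
    rintro rfl
    simp at hC
  rw [accPt_iff_frequently] at hacc
  have hA : Acc F K C := by
    have h2 : ∀ᶠ y in 𝓝 C, ‖y - C‖ < 1 := by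
      have : Continuous fun y : E 3 => ‖y - C‖ := by fun_prop
      refine (this.tendsto C).eventually (gt_mem_nhds ?_)
      simp
    refine (hacc.and_eventually h2).mono fun y hy => ?_
    obtain ⟨⟨hyC, hy1, hy2⟩, hy3⟩ := hy
    refine ⟨hy2, fun t ht => ?_⟩
    have h4 : |t| = 1 := by
      rw [ht, norm_smul, hC, mul_one, Real.norm_eq_abs] at hy1
      exact hy1
    rcases (abs_eq (by norm_num : (0:ℝ) ≤ 1)).1 h4 with h5 | h5
    · apply hyC
      rw [ht, h5, one_smul]
    · rw [ht, h5] at hy3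
      have : ((-1 : ℝ) • C - C) = (-2 : ℝ) • C := by module
      rw [this, norm_smul, hC] at hy3
      norm_num at hy3
  refine ⟨C, hC0, ?_, hA⟩
  have : ∃ᶠ y in 𝓝 C, y ∈ W F K := hA.mono fun y hy => by
    obtain ⟨⟨r, u, hr, hu, rfl⟩, -⟩ := hy
    exact W.smul _ (subset_closure hu)
  have h5 := mem_closure_iff_frequently.2 this
  have hcl : closure (W F K) = W F K := isClosed_closure.closure_eq
  rwa [hcl] at h5

/-- the curve is not its tangent line near an accumulation point -/
theorem tangent_nz (hN : NH F K) {C D : E 3} (hCC : F.f C C C = 0)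
    (hD : F.f C C D ≠ 0) (hacc : Acc F K C) : ∃ v, F.f C C v = 0 ∧ F.f v v v ≠ 0 := by
  by_contra h
  push Not at h
  have hC0 : C ≠ 0 := by
    rintro rfl
    simp at hD
  -- near `C` the zeros lie in the tangent plane
  have hev : ∀ᶠ y in 𝓝 C, F.f y y y = 0 → F.f C C y = 0 := by
    set al : E 3 → ℝ := fun y => F.f C C y / F.f C C D with hal
    have halc : Continuous al :=
      (cont F continuous_const continuous_const continuous_id).div_const _
    set uu : E 3 → E 3 := fun y => y - al y • D with huu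
    have huc : Continuous uu := continuous_id.sub (halc.smul continuous_const)
    have hcG : Continuous fun y => 3 * F.f (uu y) (uu y) D + 3 * al y * F.f (uu y) D D +
        al y ^ 2 * F.f D D D :=
      ((continuous_const.mul (cont F huc huc continuous_const)).add
        ((continuous_const.mul halc).mul (cont F huc continuous_const continuous_const))).add
        ((halc.pow 2).mul continuous_const)
    have hG0 : 3 * F.f (uu C) (uu C) D + 3 * al C * F.f (uu C) D D +
        al C ^ 2 * F.f D D D ≠ 0 := by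
      have h1 : al C = 0 := by simp [hal, hCC]
      have h2 : uu C = C := by simp [huu, h1]
      rw [h1, h2]
      simpa using hD
    filter_upwards [hcG.continuousAt.eventually_ne hG0] with y hy h0
    have h1 : F.f C C (uu y) = 0 := by
      simp only [huu, hal]
      rw [map_sub, map_smul, smul_eq_mul]
      field_simp
      ring
    have h2 := h _ h1
    have h3 : y = uu y + al y • D := by
      simp only [huu]
      abel
    have h4 : al y * (3 * F.f (uu y) (uu y) D + 3 * al y * F.f (uu y) D D +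
        al y ^ 2 * F.f D D D) = 0 := by
      rw [← h0]
      conv_rhs => rw [h3]
      generalize uu y = u at *
      generalize al y = t at *
      try simp only [Tri.s12, Tri.s23] at h2
      simp only [map_add, map_sub, map_neg, map_smul, map_zero, LinearMap.add_apply,
        LinearMap.sub_apply, LinearMap.neg_apply, LinearMap.smul_apply, LinearMap.zero_apply,
        smul_eq_mul, Tri.s12, Tri.s23]
      rw [h2]
      ring
    have h5 : al y = 0 := (mul_eq_zero.1 h4).resolve_right hy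
    simp only [hal] at h5
    exact (div_eq_zero_iff.1 h5).resolve_right hD
  obtain ⟨y₁, ⟨⟨r₁, u₁, hr₁, hu₁, hy₁⟩, hn₁⟩, he₁⟩ := (hacc.and_eventually hev).exists
  have hz₁ : F.f y₁ y₁ y₁ = 0 := by
    rw [hy₁]
    simp only [map_smul, LinearMap.smul_apply, hu₁.2, smul_zero]
  have ht₁ := he₁ hz₁
  have hy₁0 : y₁ ≠ 0 := by
    rintro rfl
    exact hn₁ 0 (by simp)
  have hev2 : ∀ᶠ y in 𝓝 C, ∀ t : ℝ, y ≠ t • y₁ := by
    have hcl : IsClosed ((Submodule.span ℝ {y₁} : Submodule ℝ (E 3)) : Set (E 3)) :=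
      Submodule.closed_of_finiteDimensional _
    have hCn : C ∉ ((Submodule.span ℝ {y₁} : Submodule ℝ (E 3)) : Set (E 3)) := by
      intro hin
      obtain ⟨t, ht⟩ := Submodule.mem_span_singleton.1 hin
      have ht0 : t ≠ 0 := by
        rintro rfl
        rw [zero_smul] at ht
        exact hC0 ht.symm
      apply hn₁ t⁻¹
      rw [← ht, smul_smul, inv_mul_cancel₀ ht0, one_smul]
    filter_upwards [hcl.isOpen_compl.mem_nhds hCn] with y hy t ht
    apply hy
    exact Submodule.mem_span_singleton.2 ⟨t, ht.symm⟩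
  obtain ⟨y₂, ⟨⟨r₂, u₂, hr₂, hu₂, hy₂⟩, hn₂⟩, he₂, he₂'⟩ :=
    (hacc.and_eventually (hev.and hev2)).exists
  have hz₂ : F.f y₂ y₂ y₂ = 0 := by
    rw [hy₂]
    simp only [map_smul, LinearMap.smul_apply, hu₂.2, smul_zero]
  have ht₂ := he₂ hz₂
  have s₁ : F.f C C u₁ = 0 := by
    rw [hy₁, map_smul, smul_eq_mul] at ht₁
    exact (mul_eq_zero.1 ht₁).resolve_left hr₁
  have s₂ : F.f C C u₂ = 0 := by
    rw [hy₂, map_smul, smul_eq_mul] at ht₂
    exact (mul_eq_zero.1 ht₂).resolve_left hr₂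
  refine no_plane hN hu₁.1 hu₂.1 ?_ fun a b => h _ ?_
  · intro a b hab
    have hb : b = 0 := by
      by_contra hb
      apply he₂' (r₂ * (-(a / b)) * r₁⁻¹)
      rw [hy₂, hy₁, smul_smul]
      have h1 : u₂ = (-(a / b)) • u₁ := by
        have h2 : b • u₂ = -(a • u₁) := by
          rw [eq_neg_iff_add_eq_zero, add_comm]
          exact hab
        rw [neg_smul, div_eq_mul_inv, mul_comm, mul_smul, ← smul_neg, ← h2, smul_smul,
          inv_mul_cancel₀ hb, one_smul]
      rw [h1, smul_smul]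
      congr 1
      field_simp
    rw [hb, zero_smul, add_zero] at hab
    refine ⟨(smul_eq_zero.1 hab).resolve_right ?_, hb⟩
    rintro rfl
    rw [smul_zero] at hy₁
    exact hy₁0 hy₁
  · rw [map_add, map_smul, map_smul, s₁, s₂]
    simp

/-- a good second point -/
theorem good_O {C D : E 3} (hCC : F.f C C C = 0)
    (hD : F.f C C D ≠ 0) (hnz : ∃ v, F.f C C v = 0 ∧ F.f v v v ≠ 0) (hacc : Acc F K C) :
    ∃ O ∈ W F K, F.f C O O ≠ 0 ∧ F.f C C O ≠ 0 := by
  have hC0 : C ≠ 0 := by
    rintro rfl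
    simp at hD
  -- a tangent vector
  obtain ⟨B, hB, hBC⟩ : ∃ B, F.f C C B = 0 ∧ ∀ t : ℝ, B ≠ t • C := by
    obtain ⟨v, hv, hv'⟩ := hnz
    refine ⟨v, hv, fun t ht => hv' ?_⟩
    rw [ht]
    simp only [map_smul, LinearMap.smul_apply, hCC, smul_zero]
  have hBC2 : ∀ a b : ℝ, a • C + b • B = 0 → a = 0 ∧ b = 0 := by
    intro a b hab
    have hb : b = 0 := by
      by_contra hb
      apply hBC (-(a / b))
      have h2 : b • B = -(a • C) := by
        rw [eq_neg_iff_add_eq_zero, add_comm]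
        exact hab
      rw [neg_smul, div_eq_mul_inv, mul_comm, mul_smul, ← smul_neg, ← h2, smul_smul,
        inv_mul_cancel₀ hb, one_smul]
    rw [hb, zero_smul, add_zero] at hab
    exact ⟨(smul_eq_zero.1 hab).resolve_right hC0, hb⟩
  obtain ⟨p, q, r, hpqr, ⟨pC, qC, rC⟩, ⟨pB, qB, rB⟩, ⟨pD, qD, rD⟩⟩ :=
    coords (U := C) (V := B) (T := D) (by
      intro x y z h
      have h1 := congrArg (F.f C C) h
      simp only [map_add, map_smul, hCC, hB, smul_eq_mul, mul_zero, zero_add, map_zero] at h1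
      have hz : z = 0 := (mul_eq_zero.1 h1).resolve_right hD
      rw [hz, zero_smul, add_zero] at h
      exact ⟨(hBC2 _ _ h).1, (hBC2 _ _ h).2, hz⟩)
  set lam := F.f C C D with hlam
  set b := F.f C B B with hb
  set be := F.f B B B with hbe
  have hbb : b ≠ 0 ∨ be ≠ 0 := by
    by_contra hcon
    push Not at hcon
    obtain ⟨v, hv, hv'⟩ := hnz
    obtain ⟨s, t, hst⟩ := span2 (l := F.f C C) hD hCC hB hv hBC2
    apply hv'
    rw [hst]
    obtain ⟨h1, h2⟩ := hcon
    rw [hb] at h1
    rw [hbe] at h2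
    try simp only [Tri.s12, Tri.s23] at h1 h2 hCC hB
    simp only [map_add, map_sub, map_neg, map_smul, map_zero, LinearMap.add_apply,
      LinearMap.sub_apply, LinearMap.neg_apply, LinearMap.smul_apply, LinearMap.zero_apply,
      smul_eq_mul, Tri.s12, Tri.s23]
    rw [h1, h2, hCC, hB]
    ring
  set μ := F.f C B D with hμ
  set ν := F.f C D D with hν
  set β₁ := F.f B B D with hβ₁
  set β₂ := F.f B D D with hβ₂
  set β₃ := F.f D D D with hβ₃
  -- the polynomial statement
  have hpoly : ∀ᶠ w : ℝ × ℝ in 𝓝 (0, 0), w ≠ (0, 0) →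
      3 * w.2 * lam + 3 * (w.1 ^ 2 * b + 2 * w.1 * w.2 * μ + w.2 ^ 2 * ν) +
        (w.1 ^ 3 * be + 3 * w.1 ^ 2 * w.2 * β₁ + 3 * w.1 * w.2 ^ 2 * β₂ + w.2 ^ 3 * β₃) = 0 →
      w.2 ≠ 0 ∧ 2 * w.2 * lam + (w.1 ^ 2 * b + 2 * w.1 * w.2 * μ + w.2 ^ 2 * ν) ≠ 0 := by
    have c1 : ∀ᶠ w : ℝ × ℝ in 𝓝 (0, 0),
        3 * lam - 3 * w.1 ^ 2 * β₁ - 3 * w.1 * w.2 * β₂ - w.2 ^ 2 * β₃ ≠ 0 := by
      have : Continuous fun w : ℝ × ℝ =>
        3 * lam - 3 * w.1 ^ 2 * β₁ - 3 * w.1 * w.2 * β₂ - w.2 ^ 2 * β₃ := by fun_prop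
      exact this.continuousAt.eventually_ne (by simpa using hD)
    have c2 : ∀ᶠ w : ℝ × ℝ in 𝓝 (0, 0), 2 * lam + 2 * w.1 * μ + w.2 * ν ≠ 0 := by
      have : Continuous fun w : ℝ × ℝ => 2 * lam + 2 * w.1 * μ + w.2 * ν := by fun_prop
      exact this.continuousAt.eventually_ne (by simpa using hD)
    have c3 : ∀ᶠ w : ℝ × ℝ in 𝓝 (0, 0), b ≠ 0 → 3 * b + w.1 * be ≠ 0 := by
      by_cases hb0 : b = 0
      · exact Eventually.of_forall fun w h => (h hb0).elim
      · have : Continuous fun w : ℝ × ℝ => 3 * b + w.1 * be := by fun_prop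
        exact (this.continuousAt.eventually_ne (by simpa using hb0)).mono fun w h _ => h
    have c4 : ∀ᶠ w : ℝ × ℝ in 𝓝 (0, 0), b ≠ 0 →
        b * (3 * lam - 3 * w.1 ^ 2 * β₁ - 3 * w.1 * w.2 * β₂ - w.2 ^ 2 * β₃) +
        (2 * lam + 2 * w.1 * μ + w.2 * ν) * w.1 * be ≠ 0 := by
      by_cases hb0 : b = 0
      · exact Eventually.of_forall fun w h => (h hb0).elim
      · have : Continuous fun w : ℝ × ℝ =>
          b * (3 * lam - 3 * w.1 ^ 2 * β₁ - 3 * w.1 * w.2 * β₂ - w.2 ^ 2 * β₃) +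
          (2 * lam + 2 * w.1 * μ + w.2 * ν) * w.1 * be := by fun_prop
        exact (this.continuousAt.eventually_ne (by simpa using ⟨hb0, hD⟩)).mono fun w h _ => h
    filter_upwards [c1, c2, c3, c4] with w h1 h2 h3 h4 hw h0
    obtain ⟨z, t⟩ := w
    simp only at h1 h2 h3 h4 h0 ⊢
    have ht : t ≠ 0 := by
      intro ht
      rw [ht] at h0
      have hz : z ≠ 0 := by
        rintro rfl
        exact hw (by rw [ht])
      have h5 : z ^ 2 * (3 * b + z * be) = 0 := by linear_combination h0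
      have h6 := (mul_eq_zero.1 h5).resolve_left (pow_ne_zero _ hz)
      rcases hbb with hbb | hbb
      · exact h3 hbb h6
      · by_cases hb0 : b = 0
        · rw [hb0, mul_zero, zero_add] at h6
          exact (mul_ne_zero hz hbb) h6
        · exact h3 hb0 h6
    refine ⟨ht, fun h5 => ?_⟩
    have h6 : z ^ 3 * be = t * (3 * lam - 3 * z ^ 2 * β₁ - 3 * z * t * β₂ - t ^ 2 * β₃) := by
      linear_combination h0 - 3 * h5
    have h7 : z ^ 2 * b = -t * (2 * lam + 2 * z * μ + t * ν) := by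
      linear_combination h5
    have hz : z ≠ 0 := by
      rintro rfl
      have h8 : t * (3 * lam - 3 * 0 ^ 2 * β₁ - 3 * 0 * t * β₂ - t ^ 2 * β₃) = 0 := by
        rw [← h6]
        ring
      exact (mul_ne_zero ht h1) h8
    have h8 : z ^ 2 * (b * (3 * lam - 3 * z ^ 2 * β₁ - 3 * z * t * β₂ - t ^ 2 * β₃) +
        (2 * lam + 2 * z * μ + t * ν) * z * be) = 0 := by
      linear_combination (3 * lam - 3 * z ^ 2 * β₁ - 3 * z * t * β₂ - t ^ 2 * β₃) * h7 +
        (2 * lam + 2 * z * μ + t * ν) * h6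
    have h9 := (mul_eq_zero.1 h8).resolve_left (pow_ne_zero _ hz)
    by_cases hb0 : b = 0
    · rw [hb0] at h7
      have h10 : -t * (2 * lam + 2 * z * μ + t * ν) = 0 := by rw [← h7]; ring
      exact (mul_ne_zero (neg_ne_zero.2 ht) h2) h10
    · exact h4 hb0 h9
  -- transfer
  have hpc := cont_lin p
  have hqc := cont_lin q
  have hrc := cont_lin r
  have hev1 : ∀ᶠ y in 𝓝 C, p y ≠ 0 := hpc.continuousAt.eventually_ne (by rw [pC]; exact one_ne_zero)
  have hev2 := (show Tendsto (fun y => (q y / p y, r y / p y)) (𝓝 C) (𝓝 (0, 0)) from by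
    have k1 : ContinuousAt (fun y => q y / p y) C :=
      hqc.continuousAt.div hpc.continuousAt (by rw [pC]; exact one_ne_zero)
    have k2 : ContinuousAt (fun y => r y / p y) C :=
      hrc.continuousAt.div hpc.continuousAt (by rw [pC]; exact one_ne_zero)
    have := k1.tendsto.prodMk_nhds k2.tendsto
    rwa [qC, rC, pC, zero_div] at this).eventually hpoly
  obtain ⟨y, ⟨⟨r₁, u₁, hr₁, hu₁, hy₁⟩, hn₁⟩, hp, hq⟩ := (hacc.and_eventually (hev1.and hev2)).exists
  have hyW : y ∈ W F K := by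
    rw [hy₁]
    exact W.smul _ (subset_closure hu₁)
  have hy0 := W.zero_of hyW
  set z := q y / p y with hz
  set t := r y / p y with ht
  have hyeq : y = p y • (C + z • B + t • D) := by
    conv_lhs => rw [hpqr y]
    rw [hz, ht, smul_add, smul_add, smul_smul, smul_smul, mul_div_cancel₀ _ hp,
      mul_div_cancel₀ _ hp]
  have hwne : (z, t) ≠ (0, 0) := by
    intro h0
    rw [Prod.mk.injEq] at h0
    apply hn₁ (p y)
    conv_lhs => rw [hyeq]
    rw [h0.1, h0.2]
    simp
  have hF0 : F.f (C + z • B + t • D) (C + z • B + t • D) (C + z • B + t • D) = 0 := by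
    rw [hyeq] at hy0
    generalize C + z • B + t • D = w at *
    generalize p y = c at *
    simp only [map_smul, LinearMap.smul_apply, smul_eq_mul] at hy0
    simpa [hp] using hy0
  have hFe : 3 * t * lam + 3 * (z ^ 2 * b + 2 * z * t * μ + t ^ 2 * ν) +
        (z ^ 3 * be + 3 * z ^ 2 * t * β₁ + 3 * z * t ^ 2 * β₂ + t ^ 3 * β₃) = 0 := by
    rw [← hF0, hlam, hb, hμ, hν, hbe, hβ₁, hβ₂, hβ₃]
    clear_value z t
    clear hF0 hyeq
    try simp only [Tri.s12, Tri.s23] at hCC hB
    simp only [map_add, map_sub, map_neg, map_smul, map_zero, LinearMap.add_apply,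
      LinearMap.sub_apply, LinearMap.neg_apply, LinearMap.smul_apply, LinearMap.zero_apply,
      smul_eq_mul, Tri.s12, Tri.s23]
    rw [hCC, hB]
    ring
  obtain ⟨g1, g2⟩ := hq hwne hFe
  refine ⟨y, hyW, ?_, ?_⟩
  · have h1 : F.f C y y = (p y) ^ 2 *
        (2 * t * lam + (z ^ 2 * b + 2 * z * t * μ + t ^ 2 * ν)) := by
      rw [hlam, hb, hμ, hν]
      conv_lhs => rw [hyeq]
      generalize p y = c at *
      clear_value z t
      clear hF0 hyeq
      try simp only [Tri.s12, Tri.s23] at hCC hB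
      simp only [map_add, map_sub, map_neg, map_smul, map_zero, LinearMap.add_apply,
        LinearMap.sub_apply, LinearMap.neg_apply, LinearMap.smul_apply, LinearMap.zero_apply,
        smul_eq_mul, Tri.s12, Tri.s23]
      rw [hCC, hB]
      ring
    rw [h1]
    exact mul_ne_zero (pow_ne_zero _ hp) g2
  · have h1 : F.f C C y = p y * (t * lam) := by
      conv_lhs => rw [hyeq]
      rw [map_smul, map_add, map_add, map_smul, map_smul, hCC, hB]
      simp [hlam]
    rw [h1]
    exact mul_ne_zero hp (mul_ne_zero g1 hD)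

/-- **Theorem B** -/
theorem thmB (hH : Hyp F K) (hN : NH F K) (hS : NSg F K) : Cov F K := by
  by_contra hcov
  obtain ⟨C, hC0, hCW, hacc⟩ := exists_acc hcov
  have hCC := W.zero_of hCW
  obtain ⟨y, ⟨⟨r, u, hr, hu, hy⟩, hyC⟩⟩ := hacc.exists
  have hu0 : u ≠ 0 := by
    rintro rfl
    apply hyC 0
    rw [hy]
    simp
  obtain ⟨D, hD⟩ := smooth_of hH.rat hN hS hu hu0 hC0
  have hnz := tangent_nz hN hCC hD hacc
  obtain ⟨O, hO, ha, hb⟩ := good_O hCC hD hnz hacc
  obtain ⟨R, hR⟩ := arc hH.rat hCW hO ha hb hacc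
  exact hH.int R hR

end Pool.Agent.TH729.CC
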