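import Pool.Agent.TH729.CC.Alg1
import Pool.Agent.TH729.CC.Curve

/-!
# Hyperplane sections and quadrics (helper729)
-/

set_option autoImplicit false
set_option linter.unusedSimpArgs false
set_option linter.unusedTactic false
set_option linter.unusedSectionVars false

namespace Pool.Agent.TH729.CC

open Set Filter Topology Pool.Agent.H581R2 Pool.Agent.TH729.SQ

variable {m : ℕ} {K : Subfield ℝ}

/-- the algebraic numbers condition -/
def KA (K : Subfield ℝ) : Prop := ∀ x ∈ K, IsAlgebraic ℚ x

/-- the functional of a vector -/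
noncomputable def dt {n : ℕ} (a : Fin n → K) : E n →ₗ[ℝ] ℝ where
  toFun v := ∑ i, (a i : ℝ) * v i
  map_add' v w := by
    simp only [Pi.add_apply, mul_add, Finset.sum_add_distrib]
  map_smul' c v := by
    simp only [Pi.smul_apply, smul_eq_mul, RingHom.id_apply, Finset.mul_sum]
    exact Finset.sum_congr rfl fun i _ => by ring

lemma dt_apply {n : ℕ} (a : Fin n → K) (v : E n) : dt a v = ∑ i, (a i : ℝ) * v i := rfl

lemma dt_cont {n : ℕ} (a : Fin n → K) : Continuous (dt a) :=
  LinearMap.continuous_of_finiteDimensional _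

lemma dt_mem {n : ℕ} (a : Fin n → K) {v : E n} (hv : Rt K v) : dt a v ∈ K := by
  rw [dt_apply]
  exact K.sum_mem fun i _ => K.mul_mem (a i).2 (hv i)

lemma dt_PA {n : ℕ} {ι : Type} (hK : KA K) (a : Fin n → K) {f : (ι → ℝ) → E n}
    (hf : ∀ i, PA (fun v => f v i)) : PA (fun v => dt a (f v)) := by
  change PA (fun v => ∑ i, (a i : ℝ) * f v i)
  exact PA.sum _ fun i _ => (PA.const (hK _ (a i).2)).mul (hf i)

/-- vectors representing rational functionals -/
lemma exists_dt {n : ℕ} (l : E n →ₗ[ℝ] ℝ) (hl : ∀ v, Rt K v → l v ∈ K) :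
    ∃ a : Fin n → K, ∀ v, dt a v = l v := by
  refine ⟨fun i => ⟨l (fun j => if i = j then 1 else 0), hl _ fun j => ?_⟩, fun v => ?_⟩
  · by_cases h : i = j
    · simp [h, K.one_mem]
    · simp [h, K.zero_mem]
  · rw [LinearMap.pi_apply_eq_sum_univ l v, dt_apply]
    refine Finset.sum_congr rfl fun i _ => ?_
    rw [smul_eq_mul, mul_comm]

/-- parametrization of a hyperplane -/
noncomputable def par (a : Fin (m + 1) → K) (j : Fin (m + 1)) : E m →ₗ[ℝ] E (m + 1) where
  toFun u := j.insertNth (-(∑ i, (a (j.succAbove i) : ℝ) * u i) / (a j : ℝ)) u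
  map_add' u v := by
    funext k
    refine Fin.succAboveCases j ?_ (fun i => ?_) k
    · simp only [Fin.insertNth_apply_same, Pi.add_apply, mul_add, Finset.sum_add_distrib]
      ring
    · simp only [Fin.insertNth_apply_succAbove, Pi.add_apply]
  map_smul' c u := by
    funext k
    refine Fin.succAboveCases j ?_ (fun i => ?_) k
    · simp only [Fin.insertNth_apply_same, Pi.smul_apply, smul_eq_mul, RingHom.id_apply]
      have : ∑ i, (a (j.succAbove i) : ℝ) * (c * u i) = c * ∑ i, (a (j.succAbove i) : ℝ) * u i := by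
        rw [Finset.mul_sum]
        exact Finset.sum_congr rfl fun i _ => by ring
      rw [this]
      ring
    · simp only [Fin.insertNth_apply_succAbove, Pi.smul_apply, RingHom.id_apply]

lemma par_same (a : Fin (m + 1) → K) (j : Fin (m + 1)) (u : E m) :
    par a j u j = -(∑ i, (a (j.succAbove i) : ℝ) * u i) / (a j : ℝ) := by
  simp [par]

lemma par_succ (a : Fin (m + 1) → K) (j : Fin (m + 1)) (u : E m) (i : Fin m) :
    par a j u (j.succAbove i) = u i := by
  simp [par]

lemma par_rt {a : Fin (m + 1) → K} {j : Fin (m + 1)} {u : E m} (hu : Rt K u) :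
    Rt K (par a j u) := by
  intro k
  refine Fin.succAboveCases j ?_ (fun i => ?_) k
  · rw [par_same]
    exact K.div_mem (K.neg_mem (K.sum_mem fun i _ => K.mul_mem (a _).2 (hu i))) (a j).2
  · rw [par_succ]
    exact hu i

lemma par_dt {a : Fin (m + 1) → K} {j : Fin (m + 1)} (hj : a j ≠ 0) (u : E m) :
    dt a (par a j u) = 0 := by
  have hj' : (a j : ℝ) ≠ 0 := fun h => hj (Subtype.ext h)
  rw [dt_apply, Fin.sum_univ_succAbove _ j, par_same]
  simp only [par_succ]
  field_simp
  ring

lemma par_res {a : Fin (m + 1) → K} {j : Fin (m + 1)} (hj : a j ≠ 0) {v : E (m + 1)}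
    (hv : dt a v = 0) : par a j (fun i => v (j.succAbove i)) = v := by
  have hj' : (a j : ℝ) ≠ 0 := fun h => hj (Subtype.ext h)
  rw [dt_apply, Fin.sum_univ_succAbove _ j] at hv
  funext k
  refine Fin.succAboveCases j ?_ (fun i => ?_) k
  · rw [par_same]
    field_simp
    linear_combination -hv
  · rw [par_succ]

/-- the closure of the rational zeros of `φ` in a hyperplane -/
def WH (a : Fin (m + 1) → K) (φ : E (m + 1) → ℝ) : Set (E (m + 1)) :=
  closure {v | Rt K v ∧ dt a v = 0 ∧ φ v = 0}

lemma WH_eq {a : Fin (m + 1) → K} {j : Fin (m + 1)} (hj : a j ≠ 0) (φ : E (m + 1) → ℝ) :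
    WH a φ = {v | dt a v = 0 ∧ (fun i => v (j.succAbove i)) ∈
      closure {u : E m | Rt K u ∧ φ (par a j u) = 0}} := by
  have hpc : Continuous (par a j) := LinearMap.continuous_of_finiteDimensional _
  have hrc : Continuous fun (v : E (m + 1)) (i : Fin m) => v (j.succAbove i) :=
    continuous_pi fun i => continuous_apply _
  apply Subset.antisymm
  · intro v hv
    have h1 : dt a v = 0 :=
      closure_minimal (t := {v | dt a v = 0}) (fun v hv => hv.2.1)
        (isClosed_eq (dt_cont a) continuous_const) hv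
    refine ⟨h1, ?_⟩
    have h2 := image_closure_subset_closure_image hrc ⟨v, hv, rfl⟩
    refine closure_mono ?_ h2
    rintro _ ⟨w, ⟨hw1, hw2, hw3⟩, rfl⟩
    refine ⟨fun i => hw1 _, ?_⟩
    rw [par_res hj hw2]
    exact hw3
  · rintro v ⟨hv1, hv2⟩
    have h2 := image_closure_subset_closure_image hpc ⟨_, hv2, rfl⟩
    rw [par_res hj hv1] at h2
    refine closure_mono ?_ h2
    rintro _ ⟨u, ⟨hu1, hu2⟩, rfl⟩
    exact ⟨par_rt hu1, par_dt hj u, hu2⟩

lemma WH_SA (hK : KA K) {a : Fin (m + 1) → K} {j : Fin (m + 1)} (hj : a j ≠ 0)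
    {φ : E (m + 1) → ℝ} (h : SA (closure {u : E m | Rt K u ∧ φ (par a j u) = 0})) :
    SA (WH a φ) := by
  rw [WH_eq hj]
  refine SAP.and (SAP.eq_zeroA (dt_PA hK a fun i => PA.coord i)) ?_
  exact SAP.preimage (p := fun u => u ∈ closure {u : E m | Rt K u ∧ φ (par a j u) = 0}) h
    (fun i => PF.coord _)

/-! ### Quadrics -/

/-- symmetric bilinear forms -/
structure Bil (m : ℕ) where
  /-- the form -/
  b : E m →ₗ[ℝ] E m →ₗ[ℝ] ℝ
  symm : ∀ v w, b v w = b w v

/-- rational bilinear forms -/
def Rat2 (B : Bil m) (K : Subfield ℝ) : Prop := ∀ v w, Rt K v → Rt K w → B.b v w ∈ K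

lemma Bil.expand (B : Bil m) (a c : E m) : B.b a c = ∑ i, ∑ j, a i * (c j *
    B.b (fun l => if i = l then 1 else 0) (fun l => if j = l then 1 else 0)) := by
  have h1 : B.b a = ∑ i, a i • B.b (fun l => if i = l then 1 else 0) :=
    LinearMap.pi_apply_eq_sum_univ B.b a
  rw [h1, LinearMap.sum_apply]
  refine Finset.sum_congr rfl fun i _ => ?_
  have h2 := LinearMap.pi_apply_eq_sum_univ (B.b (fun l => if i = l then 1 else 0)) c
  rw [LinearMap.smul_apply, h2, smul_eq_mul, Finset.mul_sum]
  refine Finset.sum_congr rfl fun j _ => ?_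
  rw [smul_eq_mul]

lemma rt_basis (i : Fin m) : Rt K (fun l => if i = l then (1 : ℝ) else 0) := by
  intro j
  by_cases h : i = j
  · simp [h, K.one_mem]
  · simp [h, K.zero_mem]

lemma Bil.PA {B : Bil m} (hK : KA K) (hB : Rat2 B K) {ι : Type} {f g : (ι → ℝ) → E m}
    (hf : ∀ i, PA (fun v => f v i)) (hg : ∀ i, PA (fun v => g v i)) :
    PA (fun v => B.b (f v) (g v)) := by
  rw [show (fun v => B.b (f v) (g v)) = _ from funext fun v => B.expand (f v) (g v)]
  exact PA.sum _ fun i _ => PA.sum _ fun j _ => (hf i).mul ((hg j).mul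
    (PA.const (hK _ (hB _ _ (rt_basis i) (rt_basis j)))))

lemma tri_PA {F : Tri m} (hK : KA K) (hF : Rat3 F K) {ι : Type} {f g h : (ι → ℝ) → E m}
    (hf : ∀ i, PA (fun v => f v i)) (hg : ∀ i, PA (fun v => g v i))
    (hh : ∀ i, PA (fun v => h v i)) : PA (fun v => F.f (f v) (g v) (h v)) := by
  rw [show (fun v => F.f (f v) (g v) (h v)) = _ from funext fun v => expand F (f v) (g v) (h v)]
  exact PA.sum _ fun i _ => PA.sum _ fun j _ => PA.sum _ fun k _ => (hf i).mul ((hg j).mul
    ((hh k).mul (PA.const (hK _ (hF _ _ _ (rt_basis i) (rt_basis j) (rt_basis k))))))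

/-- constant vectors -/
lemma const_PA (hK : KA K) {P : E m} (hP : Rt K P) {ι : Type} (i : Fin m) :
    PA (fun _ : ι → ℝ => P i) := PA.const (hK _ (hP i))

lemma Bil.cont (B : Bil m) {X : Type*} [TopologicalSpace X] {a c : X → E m} (ha : Continuous a)
    (hc : Continuous c) : Continuous fun x => B.b (a x) (c x) := by
  rw [show (fun x => B.b (a x) (c x)) = _ from funext fun x => B.expand (a x) (c x)]
  refine continuous_finsetSum _ fun i _ => continuous_finsetSum _ fun j _ => ?_
  exact ((continuous_apply i).comp ha).mul (((continuous_apply j).comp hc).mul continuous_const)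

/-- pullback -/
def Bil.comap (B : Bil m) {n : ℕ} (l : E n →ₗ[ℝ] E m) : Bil n where
  b := B.b.compl₁₂ l l
  symm _ _ := B.symm _ _

/-- pullback -/
def Tri.comap (F : Tri m) {n : ℕ} (l : E n →ₗ[ℝ] E m) : Tri n where
  f :=
    { toFun := fun a => (F.f (l a)).compl₁₂ l l
      map_add' := fun a b => by
        ext c d
        simp
      map_smul' := fun t a => by
        ext c d
        simp }
  s12 _ _ _ := F.s12 _ _ _
  s23 _ _ _ := F.s23 _ _ _

lemma Tri.comap_apply (F : Tri m) {n : ℕ} (l : E n →ₗ[ℝ] E m) (a b c : E n) :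
    (F.comap l).f a b c = F.f (l a) (l b) (l c) := rfl

lemma Bil.comap_apply (B : Bil m) {n : ℕ} (l : E n →ₗ[ℝ] E m) (a b : E n) :
    (B.comap l).b a b = B.b (l a) (l b) := rfl

/-- the closure of the rational zeros of a quadratic form -/
def WB (B : Bil m) (K : Subfield ℝ) : Set (E m) := closure {v | Rt K v ∧ B.b v v = 0}

/-- **quadrics** -/
theorem quad_SA (hK : KA K) : ∀ (m : ℕ) (B : Bil m), Rat2 B K → SA (WB B K) := by
  intro m
  induction m with
  | zero => intro B _; exact SA.of_isEmpty _
  | succ m ih =>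
    intro B hB
    -- hyperplane sections
    have hyp : ∀ a : Fin (m + 1) → K, a ≠ 0 → SA (WH a fun v => B.b v v) := by
      intro a ha
      obtain ⟨j, hj⟩ := Function.ne_iff.1 ha
      refine WH_SA hK (j := j) hj ?_
      exact ih (B.comap (par a j)) fun v w hv hw => hB _ _ (par_rt hv) (par_rt hw)
    by_cases h0 : ∃ P, Rt K P ∧ B.b P P = 0 ∧ ∃ e, B.b P e ≠ 0
    · obtain ⟨P, hP, hPP, e, he⟩ := h0
      obtain ⟨a, ha⟩ := exists_dt (K := K) (B.b P) fun v hv => hB _ _ hP hv
      have ha0 : a ≠ 0 := by
        rintro rfl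
        apply he
        rw [← ha e]
        simp [dt_apply]
      have heq : WB B K = closure {v | B.b v v = 0 ∧ B.b P v ≠ 0} ∪ WH a (fun v => B.b v v) := by
        apply Subset.antisymm
        · unfold WB WH
          rw [← closure_union]
          apply closure_mono
          rintro v ⟨hv1, hv2⟩
          by_cases h1 : B.b P v = 0
          · exact Or.inr ⟨hv1, by rw [ha, h1], hv2⟩
          · exact Or.inl ⟨hv2, h1⟩
        · refine union_subset (closure_minimal ?_ isClosed_closure) (closure_mono ?_)
          · rintro v ⟨hv1, hv2⟩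
            obtain ⟨w, hw, hw'⟩ := seq_rt (K := K) v
            have hc : Continuous fun w : E (m + 1) => B.b w w • P - (2 * B.b P w) • w :=
              ((B.cont continuous_id continuous_id).smul continuous_const).sub
                ((continuous_const.mul (B.cont continuous_const continuous_id)).smul
                  continuous_id)
            have h1 : Tendsto (fun n => B.b (w n) (w n) • P - (2 * B.b P (w n)) • w n) atTop
                (𝓝 (B.b v v • P - (2 * B.b P v) • v)) := (hc.tendsto v).comp hw'
            have h2 : B.b v v • P - (2 * B.b P v) • v ∈ WB B K := by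
              refine mem_closure_of_tendsto h1 (Eventually.of_forall fun n => ⟨?_, ?_⟩)
              · refine (hP.smul (hB _ _ (hw n) (hw n))).sub ((hw n).smul (K.mul_mem ?_
                  (hB _ _ hP (hw n))))
                exact_mod_cast SubfieldClass.ratCast_mem K 2
              · have hs := B.symm (w n) P
                simp only [map_sub, map_smul, LinearMap.sub_apply, LinearMap.smul_apply,
                  smul_eq_mul, hPP, hs]
                ring
            rw [hv1, zero_smul, zero_sub, ← neg_smul] at h2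
            -- scaling
            have hsc : ∀ (t : ℝ) (u : E (m + 1)), u ∈ WB B K → t • u ∈ WB B K := by
              intro t u hu
              obtain ⟨x, hx, hx'⟩ := mem_closure_iff_seq_limit.1 hu
              obtain ⟨s, hs, hs'⟩ := seq_K (K := K) t
              refine mem_closure_of_tendsto (hs'.smul hx') (Eventually.of_forall fun n =>
                ⟨(hx n).1.smul (hs n), ?_⟩)
              simp only [map_smul, LinearMap.smul_apply, (hx n).2, smul_zero]
            have h3 := hsc (-(2 * B.b P v))⁻¹ _ h2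
            rwa [smul_smul, inv_mul_cancel₀ (by simpa using hv2), one_smul] at h3
          · rintro v ⟨hv1, -, hv2⟩
            exact ⟨hv1, hv2⟩
      rw [heq]
      refine SA.union (SA.closure ?_) (hyp a ha0)
      refine SAP.and (SAP.eq_zeroA ?_) (SAP.not (SAP.eq_zeroA ?_))
      · exact Bil.PA hK hB (fun i => PA.coord i) fun i => PA.coord i
      · exact Bil.PA hK hB (fun i => const_PA hK hP i) fun i => PA.coord i
    · push Not at h0
      by_cases h1 : ∃ u e, Rt K u ∧ B.b u e ≠ 0
      · obtain ⟨u, e, hu, he⟩ := h1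
        obtain ⟨a, ha⟩ := exists_dt (K := K) (B.b u) fun v hv => hB _ _ hu hv
        have ha0 : a ≠ 0 := by
          rintro rfl
          apply he
          rw [← ha e]
          simp [dt_apply]
        have heq : WB B K = WH a fun v => B.b v v := by
          apply congrArg closure
          ext v
          constructor
          · rintro ⟨hv1, hv2⟩
            refine ⟨hv1, ?_, hv2⟩
            rw [ha, B.symm]
            exact h0 v hv1 hv2 u
          · rintro ⟨hv1, -, hv2⟩
            exact ⟨hv1, hv2⟩
        rw [heq]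
        exact hyp a ha0
      · push Not at h1
        have heq : WB B K = univ := by
          rw [eq_univ_iff_forall]
          intro v
          refine closure_mono ?_ (dense_rt (K := K) v)
          intro w hw
          exact ⟨hw, h1 w w hw⟩
        rw [heq]
        exact SA.univ

end Pool.Agent.TH729.CC
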