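import Pool.Agent.TH729.CC.AsmA

/-!
# Interior points of the closure (helper729)
-/

set_option autoImplicit false
set_option linter.unusedSimpArgs false
set_option linter.unusedTactic false
set_option linter.unusedSectionVars false

namespace Pool.Agent.TH729.CC

open Set Filter Topology Pool.Agent.H581R2 Pool.Agent.TH729.SQ

variable {m : ℕ} {F : Tri m} {K : Subfield ℝ}

lemma poly3 {c0 c1 c2 c3 : ℝ} (h : ∀ᶠ t in 𝓝 (0 : ℝ), c0 + c1 * t + c2 * t ^ 2 + c3 * t ^ 3 = 0) :
    c0 = 0 ∧ c1 = 0 ∧ c2 = 0 ∧ c3 = 0 := by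
  obtain ⟨δ, hδ, hall⟩ := Metric.eventually_nhds_iff.1 h
  have hin : ∀ t : ℝ, |t| < δ → c0 + c1 * t + c2 * t ^ 2 + c3 * t ^ 3 = 0 := fun t ht =>
    hall (by rwa [Real.dist_eq, sub_zero])
  set s := δ / 3 with hs
  have hs0 : 0 < s := by positivity
  have e0 := hin 0 (by simpa using hδ)
  have e1 := hin s (by rw [abs_of_pos hs0]; linarith)
  have e2 := hin (-s) (by rw [abs_neg, abs_of_pos hs0]; linarith)
  have e3 := hin (2 * s) (by rw [abs_of_pos (by linarith)]; linarith)
  have h0 : c0 = 0 := by linarith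
  have h2 : s ^ 2 * c2 = 0 := by linear_combination (e1 + e2) / 2 - e0
  have h2' : c2 = 0 := (mul_eq_zero.1 h2).resolve_left (by positivity)
  have h3 : s ^ 3 * c3 = 0 := by
    linear_combination (e3 - 2 * e1) / 6 + e0 / 6 - h2 / 3
  have h3' : c3 = 0 := (mul_eq_zero.1 h3).resolve_left (by positivity)
  refine ⟨h0, ?_, h2', h3'⟩
  rw [h0, h2', h3'] at e1
  have : s * c1 = 0 := by linear_combination e1
  exact (mul_eq_zero.1 this).resolve_left hs0.ne'

lemma Int'.smul {R : E m} (h : Int' F K R) {t : ℝ} (ht : t ≠ 0) : Int' F K (t • R) := by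
  obtain ⟨h1, ⟨e, he⟩, h3⟩ := h
  refine ⟨?_, ⟨e, ?_⟩, ?_⟩
  · simp only [map_smul, LinearMap.smul_apply, h1, smul_zero]
  · simp only [map_smul, LinearMap.smul_apply, smul_eq_mul]
    exact mul_ne_zero ht (mul_ne_zero ht he)
  · have hc : Continuous fun Y : E m => t⁻¹ • Y := by fun_prop
    have h4 : Tendsto (fun Y : E m => t⁻¹ • Y) (𝓝 (t • R)) (𝓝 R) := by
      have := hc.tendsto (t • R)
      rwa [smul_smul, inv_mul_cancel₀ ht, one_smul] at this
    filter_upwards [h4.eventually h3] with Y hY h0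
    refine W.of_smul (t := t⁻¹) (inv_ne_zero ht) (hY ?_)
    simp only [map_smul, LinearMap.smul_apply, h0, smul_zero]

lemma Int'.nhds {R : E m} (h : Int' F K R) : ∀ᶠ Y in 𝓝 R, F.f Y Y Y = 0 → Int' F K Y := by
  obtain ⟨h1, ⟨e, he⟩, h3⟩ := h
  have hc : Continuous fun Y : E m => F.f Y Y e := cont F continuous_id continuous_id continuous_const
  filter_upwards [hc.continuousAt.eventually_ne he, h3.eventually_nhds] with Y h4 h5 h0
  exact ⟨h0, ⟨e, h4⟩, h5⟩

lemma chord_invm {C : E m} (hCC : F.f C C C = 0) (R : E m) :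
    chord F C (chord F C R) = (-(F.f C C R) ^ 3) • R := by
  have h1 : F.f C C (chord F C R) = -(F.f C C R) ^ 2 := by
    simp only [chord]
    rw [map_sub, map_smul, map_smul, hCC]
    simp only [smul_eq_mul]
    ring
  have h2 : F.f C (chord F C R) (chord F C R) = -(F.f C R R) * (F.f C C R) ^ 2 := by
    have h3 : ∀ u w : ℝ, F.f C (u • C - w • R) (u • C - w • R) = u ^ 2 * F.f C C C -
        2 * u * w * F.f C C R + w ^ 2 * F.f C R R := by
      intro u w
      simp only [map_add, map_sub, map_neg, map_smul, map_zero, LinearMap.add_apply,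
        LinearMap.sub_apply, LinearMap.neg_apply, LinearMap.smul_apply, LinearMap.zero_apply,
        smul_eq_mul, Tri.s12, Tri.s23]
      ring
    simp only [chord]
    rw [h3, hCC]
    ring
  change F.f C (chord F C R) (chord F C R) • C - F.f C C (chord F C R) • chord F C R = _
  rw [h1, h2]
  simp only [chord]
  module

/-- the cubic is a graph near a smooth point -/
lemma graph {R e : E m} (h0 : F.f R R R = 0) (he : F.f R R e ≠ 0) : ∃ C : ℝ, ∀ᶠ w in 𝓝 R,
    ∃ s : ℝ, |s| ≤ C * |F.f w w w| ∧ F.f (w + s • e) (w + s • e) (w + s • e) = 0 := by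
  set μ := F.f R R e with hμ
  have hμ0 : 0 < |μ| := abs_pos.2 he
  refine ⟨|μ|⁻¹, ?_⟩
  set G : E m × ℝ → ℝ := fun z => 3 * F.f z.1 z.1 e + 3 * z.2 * F.f z.1 e e +
    z.2 ^ 2 * F.f e e e with hG
  have hGc : Continuous G := by
    have c1 := cont F (continuous_fst (X := E m) (Y := ℝ)) continuous_fst
      (continuous_const (y := e))
    have c2 := cont F (continuous_fst (X := E m) (Y := ℝ)) (continuous_const (y := e))
      (continuous_const (y := e))
    have c3 : Continuous fun z : E m × ℝ => z.2 := continuous_snd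
    exact ((continuous_const.mul c1).add ((continuous_const.mul c3).mul c2)).add
      ((c3.pow 2).mul continuous_const)
  have hG1 : ∀ᶠ z in 𝓝 ((R, 0) : E m × ℝ), μ ^ 2 < G z * μ := by
    have hc : Continuous fun z => G z * μ := hGc.mul continuous_const
    refine hc.continuousAt.eventually (lt_mem_nhds ?_)
    simp only [hG]
    have : 0 < μ ^ 2 := by positivity
    simp only [← hμ]
    nlinarith
  rw [nhds_prod_eq] at hG1
  obtain ⟨pa, hpa, pb, hpb, hab⟩ := eventually_prod_iff.1 hG1
  obtain ⟨δ, hδ, hδ'⟩ := Metric.eventually_nhds_iff.1 hpb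
  have hsm : ∀ᶠ w in 𝓝 R, |μ|⁻¹ * |F.f w w w| < δ := by
    have hc : Continuous fun w : E m => |μ|⁻¹ * |F.f w w w| :=
      continuous_const.mul (cont F continuous_id continuous_id continuous_id).abs
    refine hc.continuousAt.eventually (gt_mem_nhds ?_)
    change |μ|⁻¹ * |F.f R R R| < δ
    rw [h0]
    simpa using hδ
  filter_upwards [hpa, hsm] with w hw hwδ
  set r := |μ|⁻¹ * |F.f w w w| with hr
  have hr0 : 0 ≤ r := by positivity
  have hrμ : r * μ ^ 2 = |μ| * |F.f w w w| := by
    rw [hr, ← sq_abs μ]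
    field_simp
  have hexp : ∀ s : ℝ, F.f (w + s • e) (w + s • e) (w + s • e) = F.f w w w + s * G (w, s) := by
    intro s
    simp only [hG]
    simp only [map_add, map_sub, map_neg, map_smul, map_zero, LinearMap.add_apply,
      LinearMap.sub_apply, LinearMap.neg_apply, LinearMap.smul_apply, LinearMap.zero_apply,
      smul_eq_mul, Tri.s12, Tri.s23]
    ring
  have hGs : ∀ s : ℝ, |s| ≤ r → μ ^ 2 < G (w, s) * μ := by
    intro s hs
    exact hab hw (hδ' (by rw [Real.dist_eq, sub_zero]; exact hs.trans_lt hwδ))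
  have hcs : Continuous fun s : ℝ => μ * F.f (w + s • e) (w + s • e) (w + s • e) :=
    continuous_const.mul (cont F (by fun_prop) (by fun_prop) (by fun_prop))
  have hend1 : 0 ≤ μ * F.f (w + r • e) (w + r • e) (w + r • e) := by
    rw [hexp]
    have h1 := hGs r (by rw [abs_of_nonneg hr0])
    have h2 : -(|μ| * |F.f w w w|) ≤ μ * F.f w w w := by
      rw [← abs_mul]
      exact neg_abs_le _
    have h3 : r * μ ^ 2 ≤ r * (G (w, r) * μ) := mul_le_mul_of_nonneg_left h1.le hr0
    nlinarith
  have hend2 : μ * F.f (w + (-r) • e) (w + (-r) • e) (w + (-r) • e) ≤ 0 := by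
    rw [hexp]
    have h1 := hGs (-r) (by rw [abs_neg, abs_of_nonneg hr0])
    have h2 : μ * F.f w w w ≤ |μ| * |F.f w w w| := by
      rw [← abs_mul]
      exact le_abs_self _
    have h3 : r * μ ^ 2 ≤ r * (G (w, -r) * μ) := mul_le_mul_of_nonneg_left h1.le hr0
    nlinarith
  obtain ⟨s, hs, hs0⟩ := intermediate_value_Icc (show -r ≤ r by linarith) hcs.continuousOn
    ⟨hend2, hend1⟩
  refine ⟨s, abs_le.2 ⟨hs.1, hs.2⟩, ?_⟩
  exact (mul_eq_zero.1 hs0).resolve_left (abs_pos.1 hμ0)

/-- the points near `R` along a curve -/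
lemma graph_seq {R e u : E m} (h0 : F.f R R R = 0) (he : F.f R R e ≠ 0)
    (hu : F.f R R u = 0) : ∃ s : ℕ → ℝ, Tendsto s atTop (𝓝 0) ∧
      Tendsto (fun n : ℕ => s n * ((n : ℝ) + 1)) atTop (𝓝 0) ∧
      ∀ᶠ n : ℕ in atTop, F.f (R + (1 / ((n : ℝ) + 1)) • u + s n • e)
        (R + (1 / ((n : ℝ) + 1)) • u + s n • e) (R + (1 / ((n : ℝ) + 1)) • u + s n • e) = 0 := by
  obtain ⟨C, hC⟩ := graph h0 he
  have ht : Tendsto (fun n : ℕ => (1 / ((n : ℝ) + 1))) atTop (𝓝 0) :=
    tendsto_one_div_add_atTop_nhds_zero_nat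
  have hw : Tendsto (fun n : ℕ => R + (1 / ((n : ℝ) + 1)) • u) atTop (𝓝 R) := by
    have := tendsto_const_nhds (x := R) |>.add (ht.smul (tendsto_const_nhds (x := u)))
    simpa using this
  obtain ⟨s, hs⟩ := (hw.eventually hC).choice
  -- the size
  set β := F.f R u u
  set γ := F.f u u u
  have hsz : ∀ n : ℕ, F.f (R + (1 / ((n : ℝ) + 1)) • u) (R + (1 / ((n : ℝ) + 1)) • u)
      (R + (1 / ((n : ℝ) + 1)) • u) = (1 / ((n : ℝ) + 1)) ^ 2 *
        (3 * β + (1 / ((n : ℝ) + 1)) * γ) := by
    intro n
    generalize (1 / ((n : ℝ) + 1)) = t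
    simp only [β, γ]
    try simp only [Tri.s12, Tri.s23] at h0 hu
    simp only [map_add, map_sub, map_neg, map_smul, map_zero, LinearMap.add_apply,
      LinearMap.sub_apply, LinearMap.neg_apply, LinearMap.smul_apply, LinearMap.zero_apply,
      smul_eq_mul, Tri.s12, Tri.s23]
    rw [h0, hu]
    ring
  have hbd : ∀ᶠ n : ℕ in atTop, |s n * ((n : ℝ) + 1)| ≤
      C * ((1 / ((n : ℝ) + 1)) * |3 * β + (1 / ((n : ℝ) + 1)) * γ|) := by
    filter_upwards [hs] with n hn
    have hp : 0 < (n : ℝ) + 1 := by positivity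
    rw [abs_mul, abs_of_pos hp]
    have h1 := hn.1
    rw [hsz, abs_mul, abs_of_nonneg (by positivity : (0:ℝ) ≤ (1 / ((n : ℝ) + 1)) ^ 2)] at h1
    calc |s n| * ((n : ℝ) + 1) ≤ (C * ((1 / ((n : ℝ) + 1)) ^ 2 *
          |3 * β + (1 / ((n : ℝ) + 1)) * γ|)) * ((n : ℝ) + 1) :=
          mul_le_mul_of_nonneg_right h1 hp.le
      _ = _ := by
          field_simp
  have hlim : Tendsto (fun n : ℕ => C * ((1 / ((n : ℝ) + 1)) *
      |3 * β + (1 / ((n : ℝ) + 1)) * γ|)) atTop (𝓝 0) := by
    have h1 : Tendsto (fun n : ℕ => |3 * β + (1 / ((n : ℝ) + 1)) * γ|) atTop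
        (𝓝 |3 * β + 0 * γ|) := (tendsto_const_nhds.add (ht.mul tendsto_const_nhds)).abs
    have h2 := tendsto_const_nhds (x := C) |>.mul (ht.mul h1)
    simpa using h2
  have hs1 : Tendsto (fun n : ℕ => s n * ((n : ℝ) + 1)) atTop (𝓝 0) :=
    squeeze_zero_norm' hbd hlim
  refine ⟨s, ?_, hs1, hs.mono fun n hn => hn.2⟩
  have := hs1.mul ht
  rw [zero_mul] at this
  refine this.congr fun n => ?_
  have hp : (n : ℝ) + 1 ≠ 0 := by positivity
  field_simp

theorem int_chord (hF : Rat3 F K) {P R : E m} (hP : P ∈ W F K) (hR : Int' F K R)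
    (hb : F.f P P R ≠ 0) (ha : F.f P R R ≠ 0) : Int' F K P := by
  have hPP := W.zero_of hP
  have hRR := hR.1
  have hO := W.chord hF hP hR.mem
  have hOO := W.zero_of hO
  have h1 : F.f (chord F P R) (chord F P R) P = -(F.f P R R) * (F.f P P R) ^ 2 := by
    simp only [chord]
    have h3 : ∀ a b : ℝ, F.f (a • P - b • R) (a • P - b • R) P = a ^ 2 * F.f P P P -
        2 * a * b * F.f P P R + b ^ 2 * F.f P R R := by
      intro a b
      simp only [map_add, map_sub, map_neg, map_smul, map_zero, LinearMap.add_apply,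
        LinearMap.sub_apply, LinearMap.neg_apply, LinearMap.smul_apply, LinearMap.zero_apply,
        smul_eq_mul, Tri.s12, Tri.s23]
      ring
    rw [h3, hPP]
    ring
  have h2 : chord F (chord F P R) P = ((F.f P P R) ^ 3) • R := by
    have h3 : F.f (chord F P R) P P = -(F.f P P R) ^ 2 := by
      simp only [chord]
      have h4 : ∀ a b : ℝ, F.f (a • P - b • R) P P = a * F.f P P P - b * F.f P P R := by
        intro a b
        simp only [map_add, map_sub, map_neg, map_smul, map_zero, LinearMap.add_apply,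
          LinearMap.sub_apply, LinearMap.neg_apply, LinearMap.smul_apply, LinearMap.zero_apply,
          smul_eq_mul, Tri.s12, Tri.s23]
      rw [h4, hPP]
      ring
    change F.f (chord F P R) P P • chord F P R - F.f (chord F P R) (chord F P R) P • P = _
    rw [h1, h3]
    simp only [chord]
    module
  set O := chord F P R with hOdef
  have hI : Int' F K (chord F O P) := by
    rw [h2]
    exact hR.smul (pow_ne_zero _ hb)
  have hc : Continuous fun Y : E m => chord F O Y :=
    ((cont F continuous_const continuous_id continuous_id).smul continuous_const).sub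
      ((cont F continuous_const continuous_const continuous_id).smul continuous_id)
  have hc2 : Continuous fun Y : E m => F.f O O Y :=
    cont F continuous_const continuous_const continuous_id
  have hne : F.f O O P ≠ 0 := by
    rw [h1]
    exact mul_ne_zero (neg_ne_zero.2 ha) (pow_ne_zero _ hb)
  refine ⟨hPP, ⟨R, hb⟩, ?_⟩
  filter_upwards [(hc.tendsto P).eventually hI.2.2, hc2.continuousAt.eventually_ne hne]
    with Y hY1 hY2 hY0
  have h5 := W.chord hF hO (hY1 (chord_zero F hOO hY0))
  rw [chord_invm hOO] at h5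
  exact W.of_smul (neg_ne_zero.2 (pow_ne_zero _ hY2)) h5

theorem int_of (hF : Rat3 F K) {P R : E m} (hP : P ∈ W F K) (hR : Int' F K R)
    (hb : F.f P P R ≠ 0) : Int' F K P := by
  by_cases ha : F.f P R R ≠ 0
  · exact int_chord hF hP hR hb ha
  push Not at ha
  have hPP := W.zero_of hP
  have hRR := hR.1
  obtain ⟨e, he⟩ := hR.2.1
  have ha' : F.f R R P = 0 := by rw [F.p3 P R R]; exact ha
  obtain ⟨s, hs0, hs1, hs2⟩ := graph_seq hRR he ha'
  have ht : Tendsto (fun n : ℕ => (1 / ((n : ℝ) + 1))) atTop (𝓝 0) :=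
    tendsto_one_div_add_atTop_nhds_zero_nat
  set Rn : ℕ → E m := fun n => R + (1 / ((n : ℝ) + 1)) • P + s n • e with hRn
  have hlim : Tendsto Rn atTop (𝓝 R) := by
    have := ((tendsto_const_nhds (x := R)).add (ht.smul (tendsto_const_nhds (x := P)))).add
      (hs0.smul (tendsto_const_nhds (x := e)))
    rwa [zero_smul, add_zero, zero_smul, add_zero] at this
  have e1 := hlim.eventually hR.nhds
  have e2 : ∀ᶠ n in atTop, F.f P P (Rn n) ≠ 0 :=
    (tend F tendsto_const_nhds tendsto_const_nhds hlim).eventually_ne hb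
  have e3 : ∀ᶠ n in atTop, F.f P (Rn n) (Rn n) ≠ 0 := by
    have key : ∀ n : ℕ, F.f P (Rn n) (Rn n) * ((n : ℝ) + 1) = 2 * F.f P P R +
        2 * (s n * ((n : ℝ) + 1)) * F.f P R e + 2 * s n * F.f P P e +
        (s n * ((n : ℝ) + 1)) * s n * F.f P e e := by
      intro n
      have hp : (n : ℝ) + 1 ≠ 0 := by positivity
      have h3 : ∀ t z : ℝ, F.f P (R + t • P + z • e) (R + t • P + z • e) = 2 * t * F.f P P R +
          2 * z * F.f P R e + 2 * t * z * F.f P P e + z ^ 2 * F.f P e e := by
        intro t z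
        try simp only [Tri.s12, Tri.s23] at hPP ha
        simp only [map_add, map_sub, map_neg, map_smul, map_zero, LinearMap.add_apply,
          LinearMap.sub_apply, LinearMap.neg_apply, LinearMap.smul_apply, LinearMap.zero_apply,
          smul_eq_mul, Tri.s12, Tri.s23]
        rw [hPP, ha]
        ring
      simp only [hRn]
      rw [h3]
      field_simp
    have hl : Tendsto (fun n : ℕ => F.f P (Rn n) (Rn n) * ((n : ℝ) + 1)) atTop
        (𝓝 (2 * F.f P P R)) := by
      have h4 : Tendsto (fun n : ℕ => 2 * F.f P P R +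
        2 * (s n * ((n : ℝ) + 1)) * F.f P R e + 2 * s n * F.f P P e +
        (s n * ((n : ℝ) + 1)) * s n * F.f P e e) atTop (𝓝 (2 * F.f P P R +
        2 * 0 * F.f P R e + 2 * 0 * F.f P P e + 0 * 0 * F.f P e e)) :=
        (((tendsto_const_nhds).add ((tendsto_const_nhds.mul hs1).mul tendsto_const_nhds)).add
          ((tendsto_const_nhds.mul hs0).mul tendsto_const_nhds)).add
          ((hs1.mul hs0).mul tendsto_const_nhds)
      have h5 : 2 * F.f P P R + 2 * 0 * F.f P R e + 2 * 0 * F.f P P e + 0 * 0 * F.f P e e =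
        2 * F.f P P R := by ring
      rw [h5] at h4
      exact h4.congr fun n => (key n).symm
    have h6 := hl.eventually_ne (mul_ne_zero two_ne_zero hb)
    filter_upwards [h6] with n hn h0
    apply hn
    rw [h0, zero_mul]
  obtain ⟨n, h1, h2, h3, h4⟩ := (e1.and (e2.and (e3.and hs2))).exists
  exact int_chord hF hP (h1 h4) h2 h3

/-- if the cubic contains no rational hyperplane and there is an interior point, then all smooth
points of the closure are interior points -/
theorem int_all (hF : Rat3 F K) (hN : NH F K) {R : E m} (hR : Int' F K R) {P e' : E m}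
    (hP : P ∈ W F K) (he' : F.f P P e' ≠ 0) : Int' F K P := by
  by_contra hcon
  have hall : ∀ R, Int' F K R → F.f P P R = 0 := by
    intro R hR
    by_contra h
    exact hcon (int_of hF hP hR h)
  -- a rational functional
  obtain ⟨a, ha0, ha⟩ : ∃ a : Fin m → K, a ≠ 0 ∧ ∀ v : Fin m → K, Int' F K (co K v) →
      dt a (co K v) = 0 := by
    set D : Set (Fin m → K) := {v | Int' F K (co K v)} with hD
    let L : (Fin m → K) →ₗ[K] ℝ :=
      { toFun := fun v => F.f P P (co K v)
        map_add' := fun v w => by rw [co_add, map_add]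
        map_smul' := fun c v => by
          rw [co_smul, map_smul]
          rfl }
    have hlt : Submodule.span K D < ⊤ := by
      rw [lt_top_iff_ne_top]
      intro h
      obtain ⟨w, hw, hw'⟩ := exists_rt (K := K) (U := {v : E m | F.f P P v ≠ 0})
        (isOpen_ne_fun (cont F continuous_const continuous_const continuous_id) continuous_const)
        ⟨e', he'⟩
      obtain ⟨w, rfl⟩ := exists_co hw'
      have h1 : Submodule.span K D ≤ LinearMap.ker L :=
        Submodule.span_le.2 fun v hv => hall _ hv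
      rw [h] at h1
      exact hw (h1 (Submodule.mem_top (x := w)))
    obtain ⟨l, hl, hle⟩ := Submodule.exists_le_ker_of_lt_top _ hlt
    have hval : ∀ w : Fin m → K, dt (fun i => l (fun j => if i = j then 1 else 0)) (co K w) =
        ((l w : K) : ℝ) := by
      intro w
      rw [LinearMap.pi_apply_eq_sum_univ l w, dt_apply, AddSubmonoidClass.coe_finsetSum]
      refine Finset.sum_congr rfl fun i _ => ?_
      simp only [smul_eq_mul]
      push_cast
      rw [mul_comm]
      rfl
    refine ⟨fun i => l (fun j => if i = j then 1 else 0), ?_, fun v hv => ?_⟩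
    · intro h0
      apply hl
      apply LinearMap.ext
      intro w
      apply Subtype.ext
      rw [← hval w, h0]
      simp [dt_apply]
    · rw [hval v]
      have : l v = 0 := hle (Submodule.subset_span hv)
      rw [this]
      rfl
  have hJ : ∀ R, Int' F K R → dt a R = 0 := by
    intro R hR
    obtain ⟨u, hu, hu'⟩ := W.seq hR.mem
    have h1 : ∀ᶠ n in atTop, dt a (u n) = 0 := by
      filter_upwards [hu'.eventually hR.nhds] with n hn
      obtain ⟨w, hw⟩ := exists_co (hu n).1
      have := hn (hu n).2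
      rw [← hw] at this ⊢
      exact ha w this
    have h2 := ((dt_cont a).tendsto R).comp hu'
    refine tendsto_nhds_unique h2 (tendsto_const_nhds.congr' ?_)
    filter_upwards [h1] with n hn
    exact hn.symm
  obtain ⟨e, he⟩ := hR.2.1
  have hRR := hR.1
  have ht : Tendsto (fun n : ℕ => (1 / ((n : ℝ) + 1))) atTop (𝓝 0) :=
    tendsto_one_div_add_atTop_nhds_zero_nat
  -- the tangent space
  have hT : ∀ v, F.f R R v = 0 → dt a v = 0 := by
    intro v hv
    obtain ⟨s, hs0, hs1, hs2⟩ := graph_seq hRR he hv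
    have hlim : Tendsto (fun n : ℕ => R + (1 / ((n : ℝ) + 1)) • v + s n • e) atTop (𝓝 R) := by
      have := ((tendsto_const_nhds (x := R)).add (ht.smul (tendsto_const_nhds (x := v)))).add
        (hs0.smul (tendsto_const_nhds (x := e)))
      simpa using this
    have h1 : ∀ᶠ n : ℕ in atTop, dt a v = -(s n * ((n : ℝ) + 1)) * dt a e := by
      filter_upwards [hlim.eventually hR.nhds, hs2] with n h1 h2
      have h3 := hJ _ (h1 h2)
      rw [map_add, map_add, map_smul, map_smul, hJ R hR, smul_eq_mul, smul_eq_mul] at h3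
      have hp : (n : ℝ) + 1 ≠ 0 := by positivity
      field_simp at h3
      linear_combination h3
    have h2 : Tendsto (fun n : ℕ => -(s n * ((n : ℝ) + 1)) * dt a e) atTop (𝓝 (-0 * dt a e)) :=
      hs1.neg.mul tendsto_const_nhds
    have h3 := tendsto_nhds_unique (tendsto_const_nhds.congr' h1) h2
    simpa using h3
  have hae : dt a e ≠ 0 := by
    intro h0
    apply ha0
    have h1 : ∀ v, dt a v = 0 := by
      intro v
      have h2 := hT (v - (F.f R R v / F.f R R e) • e) (by
        rw [map_sub, map_smul, smul_eq_mul]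
        field_simp
        ring)
      rw [map_sub, map_smul, h0, smul_zero, sub_zero] at h2
      exact h2
    funext i
    have h2 := h1 (Pi.single i 1)
    rw [dt_apply, Finset.sum_eq_single i] at h2
    · rw [Pi.single_eq_same, mul_one] at h2
      exact Subtype.ext h2
    · intro j _ hj
      rw [Pi.single_eq_of_ne hj, mul_zero]
    · simp
  -- the hyperplane is contained in the cubic near `R`
  have hloc : ∀ᶠ w in 𝓝 R, dt a w = 0 → F.f w w w = 0 := by
    obtain ⟨C, hC⟩ := graph hRR he
    have hc : Continuous fun z : E m × ℝ => z.1 + z.2 • e := by fun_prop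
    have h1 : ∀ᶠ z in 𝓝 ((R, 0) : E m × ℝ), F.f (z.1 + z.2 • e) (z.1 + z.2 • e)
        (z.1 + z.2 • e) = 0 → Int' F K (z.1 + z.2 • e) := by
      have h2 := hc.tendsto (R, 0)
      simp only [zero_smul, add_zero] at h2
      exact h2.eventually hR.nhds
    rw [nhds_prod_eq] at h1
    obtain ⟨pa, hpa, pb, hpb, hab⟩ := eventually_prod_iff.1 h1
    obtain ⟨δ, hδ, hδ'⟩ := Metric.eventually_nhds_iff.1 hpb
    have hsm : ∀ᶠ w in 𝓝 R, C * |F.f w w w| < δ := by
      have hc : Continuous fun w : E m => C * |F.f w w w| :=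
        continuous_const.mul (cont F continuous_id continuous_id continuous_id).abs
      refine hc.continuousAt.eventually (gt_mem_nhds ?_)
      change C * |F.f R R R| < δ
      rw [hRR]
      simpa using hδ
    filter_upwards [hC, hpa, hsm] with w ⟨s, hs, hs'⟩ h2 h3 h4
    have h5 := hab h2 (hδ' (by rw [Real.dist_eq, sub_zero]; exact hs.trans_lt h3)) hs'
    have h6 := hJ _ h5
    simp only [map_add, map_smul, h4, zero_add, smul_eq_mul] at h6
    have h7 : s = 0 := (mul_eq_zero.1 h6).resolve_right hae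
    rw [h7, zero_smul, add_zero] at hs'
    exact hs'
  obtain ⟨v, hv, hv1, hv2⟩ := hN a ha0
  have hcv : Continuous fun t : ℝ => R + t • v := by fun_prop
  have h1 : ∀ᶠ t in 𝓝 (0 : ℝ), F.f (R + t • v) (R + t • v) (R + t • v) = 0 := by
    have h2 := hcv.tendsto 0
    simp only [zero_smul, add_zero] at h2
    filter_upwards [h2.eventually hloc] with t ht
    apply ht
    rw [map_add, map_smul, hJ R hR]
    change 0 + t • (∑ i, (a i : ℝ) * v i) = 0
    rw [hv1]
    simp
  have h2 : ∀ᶠ t in 𝓝 (0 : ℝ), 0 + (3 * F.f R R v) * t + (3 * F.f R v v) * t ^ 2 +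
      F.f v v v * t ^ 3 = 0 := by
    filter_upwards [h1] with t ht
    have h5 : 0 + (3 * F.f R R v) * t + (3 * F.f R v v) * t ^ 2 + F.f v v v * t ^ 3 =
        F.f (R + t • v) (R + t • v) (R + t • v) := by
      try simp only [Tri.s12, Tri.s23] at hRR
      simp only [map_add, map_sub, map_neg, map_smul, map_zero, LinearMap.add_apply,
        LinearMap.sub_apply, LinearMap.neg_apply, LinearMap.smul_apply, LinearMap.zero_apply,
        smul_eq_mul, Tri.s12, Tri.s23]
      rw [hRR]
      ring
    rw [h5]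
    exact ht
  exact hv2 (poly3 h2).2.2.2

end Pool.Agent.TH729.CC
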