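import Pool.Agent.TH729.CC.AsmB

/-!
# Cubic forms: the closure of the rational zeros is semialgebraic (helper729)
-/

set_option autoImplicit false
set_option linter.unusedSimpArgs false
set_option linter.unusedTactic false
set_option linter.unusedSectionVars false

namespace Pool.Agent.TH729.CC

open Set Filter Topology Pool.Agent.H581R2 Pool.Agent.TH729.SQ

variable {m : ℕ} {F : Tri m} {K : Subfield ℝ}

/-- tangent constructions at a rational singular point -/
lemma sing_tan (hF : Rat3 F K) {P : E m} (hP : Rt K P) (hs : ∀ v, F.f P P v = 0) (v : E m) :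
    tan' F P v ∈ W F K := by
  obtain ⟨w, hw, hw'⟩ := seq_rt (K := K) v
  refine W.of_seq (u := fun n => tan' F P (w n)) ?_ ?_
  · exact Eventually.of_forall fun n => Z.tan hF ⟨hP, hs P⟩ (hw n) (hs _)
  · exact ((tend F hw' hw' hw').smul tendsto_const_nhds).sub
      ((tendsto_const_nhds.mul (tend F tendsto_const_nhds hw' hw')).smul hw')

/-- without interior points, rational singular points are vertices -/
lemma vertex_of (hH : Hyp F K) {P : E m} (hP : Rt K P) (hs : ∀ v, F.f P P v = 0) (v w : E m) :
    F.f P v w = 0 := by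
  have key : ∀ v, F.f P v v = 0 := by
    intro v
    by_contra h
    obtain ⟨g1, -, -, -, -, -⟩ := tan_vals (hs P) (hs v)
    have g7 := tan_zero F (hs P) (hs v)
    have hne : F.f (tan' F P v) (tan' F P v) P ≠ 0 := by
      rw [g1]
      exact mul_ne_zero (by norm_num) (pow_ne_zero _ h)
    refine hH.int (tan' F P v) ⟨g7, ⟨P, hne⟩, ?_⟩
    have hc : Continuous fun Y : E m => F.f P Y Y :=
      cont F continuous_const continuous_id continuous_id
    have hne2 : F.f P (tan' F P v) (tan' F P v) ≠ 0 := by rwa [← F.p3 P]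
    filter_upwards [hc.continuousAt.eventually_ne hne2] with Y hY h0
    exact sing_mem hH.rat hP hs h0 hY
  have h1 := key (v + w)
  have h2 := key v
  have h3 := key w
  try simp only [Tri.s12, Tri.s23] at h2 h3
  simp only [map_add, LinearMap.add_apply, Tri.s12, Tri.s23] at h1
  rw [h2, h3] at h1
  try simp only [Tri.s12, Tri.s23]
  linarith

/-- the smooth points of the closure -/
def WS (F : Tri m) (K : Subfield ℝ) : Set (E m) := {v | v ∈ W F K ∧ ∃ e, F.f v v e ≠ 0}

lemma WS.smul {v : E m} (h : v ∈ WS F K) {t : ℝ} (ht : t ≠ 0) : t • v ∈ WS F K := by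
  obtain ⟨h1, e, he⟩ := h
  refine ⟨W.smul t h1, e, ?_⟩
  simp only [map_smul, LinearMap.smul_apply, smul_eq_mul]
  exact mul_ne_zero ht (mul_ne_zero ht he)

lemma WSc.smul {v : E m} (h : v ∈ closure (WS F K)) {t : ℝ} (ht : t ≠ 0) :
    t • v ∈ closure (WS F K) := by
  have hc : Continuous fun v : E m => t • v := by fun_prop
  exact map_mem_closure hc h fun w hw => WS.smul hw ht

/-- a symmetric form divides the cubic when its zeros are zeros of the cubic -/
lemma divides {P a b : E m} (hz : ∀ v, F.f P v v = 0 → F.f v v v = 0)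
    (ha : 0 < F.f P a a) (hb : F.f P b b < 0) (u : E m) :
    F.f u u u = F.f P u u * ((3 * F.f u a a - 2 * F.f P u a * (F.f a a a / F.f P a a)) /
      F.f P a a) := by
  set A := F.f P a a with hA
  set c := F.f a a a / A with hc
  have hA0 : A ≠ 0 := ha.ne'
  have hcA : c * A = F.f a a a := by
    rw [hc]
    field_simp
  -- the identity at points where the form is negative
  have key : ∀ v, F.f P v v < 0 → F.f v v v = F.f P v v *
      ((3 * F.f v a a - 2 * F.f P v a * c) / A) := by
    intro v hv
    set q := F.f P v v with hq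
    set r := F.f P v a with hr
    set l := (3 * F.f v a a - 2 * r * c) / A with hl
    have hlA : l * A = 3 * F.f v a a - 2 * r * c := by
      rw [hl]
      field_simp
    have hdisc : 0 < r ^ 2 - q * A := by
      have := mul_neg_of_neg_of_pos hv ha
      nlinarith [sq_nonneg r]
    set d := √(r ^ 2 - q * A) with hd
    have hd0 : 0 < d := Real.sqrt_pos.2 hdisc
    have hd2 : d ^ 2 = r ^ 2 - q * A := Real.sq_sqrt hdisc.le
    -- the two roots
    have hroot : ∀ t : ℝ, q + 2 * t * r + t ^ 2 * A = 0 →
        F.f v v v - q * l + (3 * F.f v v a - 2 * r * l - q * c) * t = 0 := by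
      intro t ht
      have h1 : F.f P (v + t • a) (v + t • a) = 0 := by
        rw [← ht, hq, hr, hA]
        simp only [map_add, map_sub, map_neg, map_smul, map_zero, LinearMap.add_apply,
          LinearMap.sub_apply, LinearMap.neg_apply, LinearMap.smul_apply, LinearMap.zero_apply,
          smul_eq_mul, Tri.s12, Tri.s23]
        ring
      have h2 := hz _ h1
      have h3 : F.f (v + t • a) (v + t • a) (v + t • a) = F.f v v v + 3 * t * F.f v v a +
          3 * t ^ 2 * F.f v a a + t ^ 3 * F.f a a a := by
        simp only [map_add, map_sub, map_neg, map_smul, map_zero, LinearMap.add_apply,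
          LinearMap.sub_apply, LinearMap.neg_apply, LinearMap.smul_apply, LinearMap.zero_apply,
          smul_eq_mul, Tri.s12, Tri.s23]
        ring
      rw [h3] at h2
      linear_combination h2 - (l + c * t) * ht + t ^ 2 * hlA + t ^ 3 * hcA
    have r1 := hroot ((-r + d) / A) (by
      field_simp
      linear_combination hd2)
    have r2 := hroot ((-r - d) / A) (by
      field_simp
      linear_combination hd2)
    have h4 : (3 * F.f v v a - 2 * r * l - q * c) * (2 * d) = 0 := by
      field_simp at r1 r2
      linear_combination r1 - r2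
    have h5 : 3 * F.f v v a - 2 * r * l - q * c = 0 :=
      (mul_eq_zero.1 h4).resolve_right (by positivity)
    rw [h5, zero_mul, add_zero] at r1
    linarith
  -- everywhere
  have hcb : Continuous fun t : ℝ => F.f P (b + t • u) (b + t • u) :=
    cont F continuous_const (by fun_prop) (by fun_prop)
  have h1 : ∀ᶠ t in 𝓝 (0 : ℝ), F.f P (b + t • u) (b + t • u) < 0 := by
    refine hcb.continuousAt.eventually (gt_mem_nhds ?_)
    change F.f P (b + (0 : ℝ) • u) (b + (0 : ℝ) • u) < 0
    simpa using hb
  have h2 : ∀ᶠ t in 𝓝 (0 : ℝ),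
      (A * F.f b b b - F.f P b b * (3 * F.f b a a - 2 * F.f P b a * c)) +
      (3 * A * F.f b b u - 2 * F.f P b u * (3 * F.f b a a - 2 * F.f P b a * c) -
        F.f P b b * (3 * F.f u a a - 2 * F.f P u a * c)) * t +
      (3 * A * F.f b u u - F.f P u u * (3 * F.f b a a - 2 * F.f P b a * c) -
        2 * F.f P b u * (3 * F.f u a a - 2 * F.f P u a * c)) * t ^ 2 +
      (A * F.f u u u - F.f P u u * (3 * F.f u a a - 2 * F.f P u a * c)) * t ^ 3 = 0 := by
    filter_upwards [h1] with t ht
    have h3 := key _ ht
    rw [mul_div_assoc', eq_div_iff hA0] at h3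
    clear_value A c
    clear h1 hcb hc hcA hA ha hb hz key ht
    simp only [map_add, map_smul, LinearMap.add_apply, LinearMap.smul_apply, smul_eq_mul,
      Tri.s12, Tri.s23] at h3
    try simp only [Tri.s12, Tri.s23]
    linear_combination h3
  have h3 := (poly3 h2).2.2.2
  rw [mul_div_assoc', eq_div_iff hA0]
  linear_combination h3

/-- rational zeros outside the closure of the smooth part lie in a rational hyperplane -/
theorem sing_cover (hF : Rat3 F K) (hN : NH F K) {R : E m} (hR : Int' F K R) :
    ∃ a : Fin m → K, a ≠ 0 ∧ ∀ P ∈ Z F K, P ∉ closure (WS F K) → dt a P = 0 := by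
  obtain ⟨e, he⟩ := hR.2.1
  have hRR := hR.1
  have hRS : R ∈ WS F K := ⟨hR.mem, e, he⟩
  have hnz : ∃ v, F.f v v v ≠ 0 := by
    by_contra h
    push Not at h
    have h2 : ∀ᶠ t in 𝓝 (0 : ℝ), 0 + (3 * F.f R R e) * t + (3 * F.f R e e) * t ^ 2 +
        F.f e e e * t ^ 3 = 0 := by
      refine Eventually.of_forall fun t => ?_
      have h5 : 0 + (3 * F.f R R e) * t + (3 * F.f R e e) * t ^ 2 + F.f e e e * t ^ 3 =
          F.f (R + t • e) (R + t • e) (R + t • e) := by
        try simp only [Tri.s12, Tri.s23] at hRR
        simp only [map_add, map_sub, map_neg, map_smul, map_zero, LinearMap.add_apply,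
          LinearMap.sub_apply, LinearMap.neg_apply, LinearMap.smul_apply, LinearMap.zero_apply,
          smul_eq_mul, Tri.s12, Tri.s23]
        rw [hRR]
        ring
      rw [h5]
      exact h _
    have h3 := (poly3 h2).2.1
    exact he (by linarith)
  have hsing : ∀ P ∈ Z F K, P ∉ closure (WS F K) → ∀ v, F.f P P v = 0 := by
    intro P hP hn v
    by_contra h
    exact hn (subset_closure ⟨subset_closure hP, v, h⟩)
  have ht : Tendsto (fun n : ℕ => (1 / ((n : ℝ) + 1))) atTop (𝓝 0) :=
    tendsto_one_div_add_atTop_nhds_zero_nat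
  -- the second form is not zero
  have D1a : ∀ P ∈ Z F K, P ∉ closure (WS F K) → ∃ w, F.f P w w ≠ 0 := by
    intro P hP hn
    by_contra h
    push Not at h
    have hpol : ∀ v w, F.f P v w = 0 := by
      intro v w
      have h1 := h (v + w)
      have h2 := h v
      have h3 := h w
      try simp only [Tri.s12, Tri.s23] at h2 h3
      simp only [map_add, LinearMap.add_apply, Tri.s12, Tri.s23] at h1
      rw [h2, h3] at h1
      try simp only [Tri.s12, Tri.s23]
      linarith
    apply hn
    have hmem : ∀ t : ℝ, R + t • P ∈ WS F K := by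
      intro t
      refine ⟨?_, e, ?_⟩
      · obtain ⟨u, hu, hu'⟩ := W.seq hR.mem
        obtain ⟨s, hs, hs'⟩ := seq_K (K := K) t
        refine W.of_seq (u := fun n => u n + s n • P) (Eventually.of_forall fun n => ⟨(hu n).1.add
          (hP.1.smul (hs n)), ?_⟩) (hu'.add (hs'.smul tendsto_const_nhds))
        have h1 := (hu n).2
        have h2 := hpol (u n) (u n)
        have h3 := hpol P (u n)
        have h4 := hpol P P
        try simp only [Tri.s12, Tri.s23] at h1 h2 h3 h4
        simp only [map_add, map_sub, map_neg, map_smul, map_zero, LinearMap.add_apply,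
          LinearMap.sub_apply, LinearMap.neg_apply, LinearMap.smul_apply, LinearMap.zero_apply,
          smul_eq_mul, Tri.s12, Tri.s23]
        rw [h1, h2, h3, h4]
        ring
      · have h2 := hpol R e
        have h3 := hpol P e
        have h5 : F.f (R + t • P) (R + t • P) e = F.f R R e := by
          try simp only [Tri.s12, Tri.s23] at h2 h3
          simp only [map_add, map_sub, map_neg, map_smul, map_zero, LinearMap.add_apply,
            LinearMap.sub_apply, LinearMap.neg_apply, LinearMap.smul_apply, LinearMap.zero_apply,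
            smul_eq_mul, Tri.s12, Tri.s23]
          rw [h2, h3]
          ring
        rw [h5]
        exact he
    refine mem_closure_of_tendsto (f := fun n : ℕ => (1 / ((n : ℝ) + 1)) • (R + ((n : ℝ) + 1) • P))
      (b := atTop) ?_ (Eventually.of_forall fun n => ?_)
    · have h1 : Tendsto (fun n : ℕ => (1 / ((n : ℝ) + 1)) • R + P) atTop
          (𝓝 ((0 : ℝ) • R + P)) := (ht.smul tendsto_const_nhds).add tendsto_const_nhds
      rw [zero_smul, zero_add] at h1
      refine h1.congr fun n => ?_
      have hp : (n : ℝ) + 1 ≠ 0 := by positivity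
      rw [smul_add, smul_smul, one_div_mul_cancel hp, one_smul]
    · exact WS.smul (hmem _) (by positivity)
  -- its zeros are zeros of the cubic
  have D1b : ∀ P ∈ Z F K, P ∉ closure (WS F K) → ∀ v, F.f P v v = 0 → F.f v v v = 0 := by
    intro P hP hn v hv
    by_contra h
    obtain ⟨w, hw⟩ := D1a P hP hn
    have hsP := hsing P hP hn
    set β := F.f P v w with hβ
    set q := F.f P w w with hq
    have hval : ∀ s : ℝ, F.f P (v + s • w) (v + s • w) = s * (2 * β + s * q) := by
      intro s
      rw [hβ, hq]
      try simp only [Tri.s12, Tri.s23] at hv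
      simp only [map_add, map_sub, map_neg, map_smul, map_zero, LinearMap.add_apply,
        LinearMap.sub_apply, LinearMap.neg_apply, LinearMap.smul_apply, LinearMap.zero_apply,
        smul_eq_mul, Tri.s12, Tri.s23]
      rw [hv]
      ring
    have hev : ∀ᶠ n : ℕ in atTop, F.f P (v + (1 / ((n : ℝ) + 1)) • w)
        (v + (1 / ((n : ℝ) + 1)) • w) ≠ 0 := by
      by_cases hb : β = 0
      · refine Eventually.of_forall fun n => ?_
        rw [hval, hb]
        have hp : (1 / ((n : ℝ) + 1)) ≠ 0 := by positivity
        simp only [mul_zero, zero_add]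
        exact mul_ne_zero hp (mul_ne_zero hp hw)
      · have h1 : Tendsto (fun n : ℕ => 2 * β + (1 / ((n : ℝ) + 1)) * q) atTop
            (𝓝 (2 * β + 0 * q)) := tendsto_const_nhds.add (ht.mul tendsto_const_nhds)
        rw [zero_mul, add_zero] at h1
        filter_upwards [h1.eventually_ne (mul_ne_zero two_ne_zero hb)] with n hn
        rw [hval]
        exact mul_ne_zero (by positivity) hn
    have hvw : Tendsto (fun n : ℕ => v + (1 / ((n : ℝ) + 1)) • w) atTop (𝓝 v) := by
      have := (tendsto_const_nhds (x := v)).add (ht.smul (tendsto_const_nhds (x := w)))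
      rwa [zero_smul, add_zero] at this
    have hlim : Tendsto (fun n : ℕ => tan' F P (v + (1 / ((n : ℝ) + 1)) • w)) atTop
        (𝓝 (tan' F P v)) :=
      ((tend F hvw hvw hvw).smul tendsto_const_nhds).sub
        ((tendsto_const_nhds.mul (tend F tendsto_const_nhds hvw hvw)).smul hvw)
    have h1 : tan' F P v ∈ closure (WS F K) := by
      refine mem_closure_of_tendsto hlim ?_
      filter_upwards [hev] with n hn
      refine ⟨sing_tan hF hP.1 hsP _, P, ?_⟩
      rw [(tan_vals (hsP P) (hsP _)).1]
      exact mul_ne_zero (by norm_num) (pow_ne_zero _ hn)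
    unfold tan' at h1
    rw [hv, mul_zero, zero_smul, sub_zero] at h1
    have h2 := WSc.smul h1 (inv_ne_zero h)
    rw [smul_smul, inv_mul_cancel₀ h, one_smul] at h2
    exact hn h2
  -- semidefiniteness
  have D2 : ∀ P ∈ Z F K, P ∉ closure (WS F K) → ∀ a b, 0 < F.f P a a → F.f P b b < 0 → False := by
    intro P hP hn a b ha hb
    -- a rational vector
    obtain ⟨a, ha, har⟩ := exists_rt (K := K) (U := {v : E m | 0 < F.f P v v})
      (isOpen_lt continuous_const (cont F continuous_const continuous_id continuous_id)) ⟨a, ha⟩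
    have ha' : 0 < F.f P a a := ha
    have hdiv := divides (D1b P hP hn) ha' hb
    let l : E m →ₗ[ℝ] ℝ := (F.f P a a)⁻¹ • (3 • F.f a a - (2 * (F.f a a a / F.f P a a)) • F.f P a)
    have hl : ∀ u, l u = (3 * F.f u a a - 2 * F.f P u a * (F.f a a a / F.f P a a)) /
        F.f P a a := by
      intro u
      simp only [l, LinearMap.smul_apply, LinearMap.sub_apply, smul_eq_mul, nsmul_eq_mul]
      rw [F.p4 u a a |>.symm, F.p2 P u a]
      push_cast
      ring
    have hlK : ∀ v, Rt K v → l v ∈ K := by
      intro v hv
      rw [hl]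
      have h3 : (3 : ℝ) ∈ K := by exact_mod_cast SubfieldClass.ratCast_mem K 3
      have h2 : (2 : ℝ) ∈ K := by exact_mod_cast SubfieldClass.ratCast_mem K 2
      exact K.div_mem (K.sub_mem (K.mul_mem h3 (hF _ _ _ hv har har)) (K.mul_mem (K.mul_mem h2
        (hF _ _ _ hP.1 hv har)) (K.div_mem (hF _ _ _ har har har) (hF _ _ _ hP.1 har har))))
        (hF _ _ _ hP.1 har har)
    obtain ⟨c, hc⟩ := exists_dt l hlK
    by_cases hc0 : c = 0
    · obtain ⟨v, hv⟩ := hnz
      apply hv
      rw [hdiv, ← hl, ← hc, hc0]
      simp [dt_apply]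
    · obtain ⟨v, hv, hv1, hv2⟩ := hN c hc0
      apply hv2
      rw [hdiv, ← hl, ← hc, dt_apply, hv1, mul_zero]
  have D3 : ∀ P ∈ Z F K, P ∉ closure (WS F K) → ∀ P' ∈ Z F K, P' ∉ closure (WS F K) →
      ∀ v, F.f P P' v = 0 := by
    intro P hP hn P' hP' hn' v
    by_contra h
    have h0 : F.f P P' P' = 0 := by
      rw [← F.p3 P P' P']
      exact hsing P' hP' hn' P
    have hval : ∀ t : ℝ, F.f P (P' + t • v) (P' + t • v) =
        t * (2 * F.f P P' v + t * F.f P v v) := by
      intro t
      try simp only [Tri.s12, Tri.s23] at h0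
      simp only [map_add, map_sub, map_neg, map_smul, map_zero, LinearMap.add_apply,
        LinearMap.sub_apply, LinearMap.neg_apply, LinearMap.smul_apply, LinearMap.zero_apply,
        smul_eq_mul, Tri.s12, Tri.s23]
      rw [h0]
      ring
    set β := F.f P P' v with hβ
    set q := F.f P v v with hq
    -- small parameters
    have hβ2 : 0 < β ^ 2 := by positivity
    set t := β / (1 + |q|) with htdef
    have hq1 : 0 < 1 + |q| := by positivity
    have htβ : t * (1 + |q|) = β := by
      rw [htdef]
      field_simp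
    have hqa := abs_nonneg q
    have hq2 : -|q| ≤ q := neg_abs_le q
    have hq3 : q ≤ |q| := le_abs_self q
    have ht2 : 0 < t ^ 2 := by
      have : t ≠ 0 := by
        rw [htdef]
        exact div_ne_zero h hq1.ne'
      positivity
    refine D2 P hP hn (P' + t • v) (P' + (-t) • v) ?_ ?_
    · rw [hval, ← htβ]
      nlinarith
    · rw [hval, ← htβ]
      nlinarith
  by_cases hD : ∃ P ∈ Z F K, P ∉ closure (WS F K)
  · obtain ⟨P, hP, hn⟩ := hD
    obtain ⟨w, hw⟩ := D1a P hP hn
    obtain ⟨w, hw, hwr⟩ := exists_rt (K := K) (U := {v : E m | F.f P v v ≠ 0})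
      (isOpen_ne_fun (cont F continuous_const continuous_id continuous_id) continuous_const)
      ⟨w, hw⟩
    obtain ⟨a, ha⟩ := exists_dt (F.f P w) fun v hv => hF _ _ _ hP.1 hwr hv
    refine ⟨a, ?_, fun P' hP' hn' => ?_⟩
    · rintro rfl
      apply hw
      rw [← ha w]
      simp [dt_apply]
    · rw [ha, F.p2 P P' w]
      exact D3 P hP hn P' hP' hn' w
  · push Not at hD
    have hR0 : R ≠ 0 := by
      rintro rfl
      simp at he
    obtain ⟨i, -⟩ := Function.ne_iff.1 hR0
    refine ⟨Pi.single i 1, ?_, fun P hP hn => (hn (hD P hP)).elim⟩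
    intro h0
    have := congrFun h0 i
    simp at this

end Pool.Agent.TH729.CC
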