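import Pool.Agent.TH729.CC.AsmC

/-!
# Cubic forms: the closure of the rational zeros is semialgebraic (helper729)
-/

set_option autoImplicit false
set_option linter.unusedSimpArgs false
set_option linter.unusedTactic false
set_option linter.unusedSectionVars false

namespace Pool.Agent.TH729.CC

open Set Filter Topology Pool.Agent.H581R2 Pool.Agent.TH729.SQ

variable {K : Subfield ℝ}

/-- covering in small dimension -/
lemma cov_one {F : Tri 1} (hN : NH F K) : Cov F K := by
  exfalso
  obtain ⟨v, hv, hv1, hv2⟩ := hN (fun _ => 1) (by
    intro h0
    have := congrFun h0 0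
    simp at this)
  have h0 : v = 0 := by
    funext i
    have hi : i = 0 := Subsingleton.elim _ _
    rw [Fin.sum_univ_one] at hv1
    rw [hi]
    simpa using hv1
  rw [h0] at hv2
  simp at hv2

lemma cov_two {F : Tri 2} (hN : NH F K) : Cov F K := by
  have hz : ∀ P ∈ Z F K, P = 0 := by
    intro P hP
    by_contra hP0
    obtain ⟨v, hv, hv1, hv2⟩ := hN ![⟨P 1, hP.1 1⟩, -⟨P 0, hP.1 0⟩] (by
      intro h0
      apply hP0
      have e0 := congrFun h0 0
      have e1 := congrFun h0 1
      simp only [Matrix.cons_val_zero, Matrix.cons_val_one, Pi.zero_apply, neg_eq_zero] at e0 e1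
      funext i
      fin_cases i
      · exact congrArg Subtype.val e1
      · exact congrArg Subtype.val e0)
    rw [Fin.sum_univ_two] at hv1
    simp only [Matrix.cons_val_zero, Matrix.cons_val_one] at hv1
    have hv1' : P 1 * v 0 - P 0 * v 1 = 0 := by
      have h3 : ((-(⟨P 0, hP.1 0⟩ : K) : K) : ℝ) = -P 0 := rfl
      rw [h3] at hv1
      change P 1 * v 0 + -P 0 * v 1 = 0 at hv1
      linear_combination hv1
    -- `v` is proportional to `P`
    obtain ⟨t, ht⟩ : ∃ t : ℝ, v = t • P := by
      by_cases h0 : P 0 = 0
      · have h1 : P 1 ≠ 0 := by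
          intro h1
          apply hP0
          funext i
          fin_cases i
          · exact h0
          · exact h1
        refine ⟨v 1 / P 1, ?_⟩
        funext i
        fin_cases i
        · simp only [Fin.zero_eta, Pi.smul_apply, smul_eq_mul, h0, mul_zero]
          rw [h0, zero_mul, sub_zero] at hv1'
          exact (mul_eq_zero.1 hv1').resolve_left h1
        · simp only [Fin.mk_one, Pi.smul_apply, smul_eq_mul]
          field_simp
      · refine ⟨v 0 / P 0, ?_⟩
        funext i
        fin_cases i
        · simp only [Fin.zero_eta, Pi.smul_apply, smul_eq_mul]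
          field_simp
        · simp only [Fin.mk_one, Pi.smul_apply, smul_eq_mul]
          field_simp
          linear_combination -hv1'
    apply hv2
    rw [ht]
    simp only [map_smul, LinearMap.smul_apply, hP.2, smul_zero]
  refine ⟨{fun _ => 1}, finite_singleton _, ?_, ?_⟩
  · rintro a rfl h0
    have := congrFun h0 0
    simp at this
  · intro v hv
    refine ⟨_, rfl, ?_⟩
    rw [hz v hv]
    simp

/-- covering in all dimensions -/
theorem cov_all {m : ℕ} {F : Tri (m + 1)} (hH : Hyp F K) (hN : NH F K) (hS : NSg F K) :
    Cov F K := by
  rcases Nat.lt_or_ge m 3 with h | h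
  · interval_cases m
    · exact cov_one hN
    · exact cov_two hN
    · exact thmB hH hN hS
  · exact thmA (by omega) hH hN hS

/-- **The closure of the rational zeros of a cubic form is semialgebraic over `ℚ`.** -/
theorem cubic_SA (hK : KA K) : ∀ (m : ℕ) (F : Tri m), Rat3 F K → SA (W F K) := by
  intro m
  induction m with
  | zero => intro F _; exact SA.of_isEmpty _
  | succ m ih =>
    intro F hF
    -- hyperplane sections
    have hyp : ∀ a : Fin (m + 1) → K, a ≠ 0 → SA (WH a fun v => F.f v v v) := by
      intro a ha
      obtain ⟨j, hj⟩ := Function.ne_iff.1 ha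
      refine WH_SA hK (j := j) hj ?_
      exact ih (F.comap (par a j)) fun u v w hu hv hw => hF _ _ _ (par_rt hu) (par_rt hv)
        (par_rt hw)
    have hsub : ∀ a : Fin (m + 1) → K, (WH a fun v => F.f v v v) ⊆ W F K := by
      intro a
      apply closure_mono
      rintro v ⟨hv1, -, hv2⟩
      exact ⟨hv1, hv2⟩
    by_cases hN : NH F K
    swap
    · -- a rational hyperplane in the cubic
      unfold NH at hN
      push Not at hN
      obtain ⟨a, ha, hz⟩ := hN
      obtain ⟨j, hj⟩ := Function.ne_iff.1 ha
      have hj' : (a j : ℝ) ≠ 0 := fun h => hj (Subtype.ext h)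
      -- a rational vector with value one
      set e : E (m + 1) := Pi.single j ((a j : ℝ)⁻¹) with he
      have heK : Rt K e := by
        intro i
        by_cases hi : i = j
        · rw [hi, he, Pi.single_eq_same]
          exact K.inv_mem (a j).2
        · rw [he, Pi.single_eq_of_ne hi]
          exact K.zero_mem
      have hae : dt a e = 1 := by
        rw [dt_apply, Finset.sum_eq_single j]
        · rw [he, Pi.single_eq_same, mul_inv_cancel₀ hj']
        · intro i _ hi
          rw [he, Pi.single_eq_of_ne hi, mul_zero]
        · simp
      let b : E (m + 1) →ₗ[ℝ] E (m + 1) →ₗ[ℝ] ℝ :=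
        (3 : ℝ) • F.f e - (3 / 2 : ℝ) • ((dt a).smulRight (F.f e e) +
          (F.f e e).smulRight (dt a)) + (F.f e e e) • (dt a).smulRight (dt a)
      have hb : ∀ v w, b v w = 3 * F.f e v w - (3 / 2) * (dt a v * F.f e e w +
          F.f e e v * dt a w) + F.f e e e * (dt a v * dt a w) := by
        intro v w
        simp [b]
        ring
      let B : Bil (m + 1) := ⟨b, fun v w => by
        rw [hb, hb, F.p2 e w v]
        ring⟩
      have hBr : Rat2 B K := by
        intro v w hv hw
        change b v w ∈ K
        rw [hb]
        have h3 : (3 : ℝ) ∈ K := by exact_mod_cast SubfieldClass.ratCast_mem K 3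
        have h2 : (2 : ℝ) ∈ K := by exact_mod_cast SubfieldClass.ratCast_mem K 2
        refine K.add_mem (K.sub_mem (K.mul_mem h3 (hF _ _ _ heK hv hw)) (K.mul_mem
          (K.div_mem h3 h2) (K.add_mem (K.mul_mem (dt_mem a hv) (hF _ _ _ heK heK hw))
          (K.mul_mem (hF _ _ _ heK heK hv) (dt_mem a hw))))) (K.mul_mem (hF _ _ _ heK heK heK)
          (K.mul_mem (dt_mem a hv) (dt_mem a hw)))
      have hfac : ∀ v, Rt K v → F.f v v v = dt a v * b v v := by
        intro v hv
        have h1 := hz (v - dt a v • e) (hv.sub (heK.smul (dt_mem a hv))) (by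
          rw [← dt_apply, map_sub, map_smul, hae]
          simp)
        rw [hb]
        generalize dt a v = x at *
        simp only [map_add, map_sub, map_smul, LinearMap.add_apply, LinearMap.sub_apply,
          LinearMap.smul_apply, smul_eq_mul, Tri.s12, Tri.s23] at h1
        try simp only [Tri.s12, Tri.s23]
        linear_combination h1
      have heq : W F K = WH a (fun _ => 0) ∪ WB B K := by
        unfold WH WB W
        rw [← closure_union]
        congr 1
        ext v
        constructor
        · rintro ⟨hv1, hv2⟩
          rw [hfac v hv1] at hv2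
          rcases mul_eq_zero.1 hv2 with h | h
          · exact Or.inl ⟨hv1, h, rfl⟩
          · exact Or.inr ⟨hv1, h⟩
        · rintro (⟨hv1, hv2, -⟩ | ⟨hv1, hv2⟩)
          · exact ⟨hv1, by rw [hfac v hv1, hv2, zero_mul]⟩
          · refine ⟨hv1, ?_⟩
            rw [hfac v hv1]
            change _ * B.b v v = 0
            rw [hv2, mul_zero]
      rw [heq]
      refine SA.union (WH_SA hK hj ?_) (quad_SA hK _ B hBr)
      have : closure {u : E m | Rt K u ∧ (fun _ : E (m + 1) => (0 : ℝ)) (par a j u) = 0} =
          univ := by
        rw [eq_univ_iff_forall]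
        intro v
        refine closure_mono (s := {w : E m | Rt K w}) ?_ (dense_rt (K := K) v)
        intro w hw
        exact ⟨hw, rfl⟩
      rw [this]
      exact SA.univ
    by_cases hI : ∃ R, Int' F K R
    · -- interior points
      obtain ⟨R, hR⟩ := hI
      obtain ⟨a, ha, hcov⟩ := sing_cover hF hN hR
      have heq : W F K = closure (WS F K) ∪ WH a (fun v => F.f v v v) := by
        apply Subset.antisymm
        · refine closure_minimal ?_ (isClosed_closure.union isClosed_closure)
          intro P hP
          by_cases h : P ∈ closure (WS F K)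
          · exact Or.inl h
          · exact Or.inr (subset_closure ⟨hP.1, hcov P hP h, hP.2⟩)
        · refine union_subset (closure_minimal (fun v hv => hv.1) isClosed_closure) (hsub a)
      rw [heq]
      refine SA.union (SA.closure ?_) (hyp a ha)
      -- the smooth part is relatively clopen
      have hV : SA {v : E (m + 1) | F.f v v v = 0 ∧
          ∃ i : Fin (m + 1), F.f v v (fun l => if i = l then 1 else 0) ≠ 0} := by
        refine SAP.and (SAP.eq_zeroA (tri_PA hK hF (fun i => PA.coord i) (fun i => PA.coord i)
          fun i => PA.coord i)) ?_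
        refine SAP.exists_fin fun i => SAP.not (SAP.eq_zeroA ?_)
        exact tri_PA hK hF (fun i => PA.coord i) (fun i => PA.coord i)
          (fun k => const_PA hK (rt_basis i) k)
      have hsm : ∀ v e : E (m + 1), F.f v v e ≠ 0 →
          ∃ i : Fin (m + 1), F.f v v (fun l => if i = l then 1 else 0) ≠ 0 := by
        intro v e he
        by_contra h
        push Not at h
        apply he
        rw [LinearMap.pi_apply_eq_sum_univ (F.f v v) e]
        exact Finset.sum_eq_zero fun i _ => by rw [h i, smul_zero]
      refine sa_of_lc _ _ _ hV ?_ ?_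
      · rintro v ⟨hv, e, he⟩
        exact ⟨W.zero_of hv, hsm v e he⟩
      · rintro v ⟨hv1, i, hi⟩
        by_cases hvW : v ∈ WS F K
        · obtain ⟨hv, e, he⟩ := hvW
          have hint := int_all hF hN hR hv he
          filter_upwards [self_mem_nhdsWithin, nhdsWithin_le_nhds hint.2.2] with y hy hy2
          exact ⟨fun _ => ⟨hv, e, he⟩, fun _ => ⟨hy2 hy.1, _, hy.2.choose_spec⟩⟩
        · have hvW' : v ∉ W F K := fun h => hvW ⟨h, _, hi⟩
          have hop : (W F K)ᶜ ∈ 𝓝 v := isClosed_closure.isOpen_compl.mem_nhds hvW'
          filter_upwards [nhdsWithin_le_nhds hop] with y hy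
          exact ⟨fun h => (hy h.1).elim, fun h => (hvW h).elim⟩
    · -- no interior points
      have hH : Hyp F K := ⟨hF, fun R hR => hI ⟨R, hR⟩⟩
      by_cases hS : NSg F K
      · obtain ⟨L, hL, hL0, hLc⟩ := cov_all hH hN hS
        have heq : W F K = ⋃ a ∈ L, WH a (fun v => F.f v v v) := by
          apply Subset.antisymm
          · refine closure_minimal ?_ (hL.isClosed_biUnion fun a _ => isClosed_closure)
            intro v hv
            obtain ⟨a, ha, hav⟩ := hLc v hv
            exact mem_biUnion ha (subset_closure ⟨hv.1, hav, hv.2⟩)
          · exact iUnion₂_subset fun a _ => hsub a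
        rw [heq]
        refine SAP.congr (q := fun v => v ∈ ⋃ a ∈ L, WH a fun v => F.f v v v)
          (SAP.exists_mem hL.toFinset (p := fun a v => v ∈ WH a fun v => F.f v v v)
          fun a ha => hyp a (hL0 a (hL.mem_toFinset.1 ha))) fun v => ?_
        simp only [mem_iUnion, hL.mem_toFinset, exists_prop]
      · -- a rational vertex
        unfold NSg at hS
        push Not at hS
        obtain ⟨P, hP, hP0, hs⟩ := hS
        have hv := vertex_of hH hP hs
        obtain ⟨j, hj⟩ := Function.ne_iff.1 hP0
        have hj' : P j ≠ 0 := hj
        set a : Fin (m + 1) → K := Pi.single j ⟨(P j)⁻¹, K.inv_mem (hP j)⟩ with ha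
        have hdt : ∀ v, dt a v = (P j)⁻¹ * v j := by
          intro v
          rw [dt_apply, Finset.sum_eq_single j]
          · rw [ha, Pi.single_eq_same]
          · intro i _ hi
            rw [ha, Pi.single_eq_of_ne hi]
            simp
          · simp
        have hdP : dt a P = 1 := by
          rw [hdt, inv_mul_cancel₀ hj']
        have ha0 : a ≠ 0 := by
          intro h0
          rw [h0] at hdP
          simp [dt_apply] at hdP
        have hFv : ∀ (v : E (m + 1)) (t : ℝ), F.f (v + t • P) (v + t • P) (v + t • P) =
            F.f v v v := by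
          intro v t
          have h1 := hv v v
          have h2 := hv P v
          have h3 := hv P P
          try simp only [Tri.s12, Tri.s23] at h1 h2 h3
          simp only [map_add, map_sub, map_neg, map_smul, map_zero, LinearMap.add_apply,
            LinearMap.sub_apply, LinearMap.neg_apply, LinearMap.smul_apply, LinearMap.zero_apply,
            smul_eq_mul, Tri.s12, Tri.s23]
          rw [h1, h2, h3]
          ring
        have heq : W F K = {v | v - dt a v • P ∈ WH a (fun v => F.f v v v)} := by
          ext v
          constructor
          · intro hv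
            have hc : Continuous fun v : E (m + 1) => v - dt a v • P :=
              continuous_id.sub ((dt_cont a).smul continuous_const)
            refine map_mem_closure (f := fun v : E (m + 1) => v - dt a v • P) hc hv fun w hw => ⟨hw.1.sub (hP.smul (dt_mem a hw.1)), ?_, ?_⟩
            · rw [map_sub, map_smul, hdP]
              simp
            · have := hFv w (-(dt a w))
              rw [neg_smul, ← sub_eq_add_neg] at this
              exact this.trans hw.2
          · intro hv
            obtain ⟨u, hu, hu'⟩ := mem_closure_iff_seq_limit.1 hv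
            obtain ⟨s, hs, hs'⟩ := seq_K (K := K) (dt a v)
            have h1 : Tendsto (fun n => u n + s n • P) atTop
                (𝓝 (v - dt a v • P + dt a v • P)) := hu'.add (hs'.smul tendsto_const_nhds)
            rw [sub_add_cancel] at h1
            refine W.of_seq (Eventually.of_forall fun n => ⟨(hu n).1.add (hP.smul (hs n)), ?_⟩) h1
            rw [hFv]
            exact (hu n).2.2
        rw [heq]
        refine SAP.preimageA (p := fun v => v ∈ WH a fun v => F.f v v v) (hyp a ha0)
          (φ := fun v => v - dt a v • P) fun i => ?_
        exact (PA.coord i).sub ((dt_PA hK a fun k => PA.coord k).mul (const_PA hK hP i))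

end Pool.Agent.TH729.CC
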