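import Mathlib

/-!
# Cubic forms and the closure of their rational zeros: chords, tangents, sweeping (helper729)
-/

set_option autoImplicit false
set_option linter.unusedSimpArgs false
set_option linter.unusedTactic false

namespace Pool.Agent.TH729.CC

open Set Filter Topology

abbrev E (m : ℕ) : Type := Fin m → ℝ

/-- symmetric trilinear forms -/
structure Tri (m : ℕ) where
  /-- the form -/
  f : E m →ₗ[ℝ] E m →ₗ[ℝ] E m →ₗ[ℝ] ℝ
  s12 : ∀ a b c, f a b c = f b a c
  s23 : ∀ a b c, f a b c = f a c b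

variable {m : ℕ} (F : Tri m)

namespace Tri

lemma p1 (a b c : E m) : F.f b a c = F.f a b c := F.s12 b a c
lemma p2 (a b c : E m) : F.f a c b = F.f a b c := F.s23 a c b
lemma p3 (a b c : E m) : F.f c b a = F.f a b c := by
  rw [F.s12, F.s23, F.s12]
lemma p4 (a b c : E m) : F.f b c a = F.f a b c := by
  rw [F.s23, F.s12]
lemma p5 (a b c : E m) : F.f c a b = F.f a b c := by
  rw [F.s12, F.s23]

/-- normal forms with two vectors -/
lemma n2 (a b : E m) : F.f b a a = F.f a a b ∧ F.f a b a = F.f a a b ∧ F.f b b a = F.f a b b ∧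
    F.f b a b = F.f a b b := ⟨F.p4 a a b |>.symm ▸ F.p5 a a b, F.p2 a a b, F.p3 a b b, F.p1 a b b⟩

/-- normal forms with three vectors -/
lemma n3 (a b c : E m) : F.f b a c = F.f a b c ∧ F.f a c b = F.f a b c ∧ F.f c b a = F.f a b c ∧
    F.f b c a = F.f a b c ∧ F.f c a b = F.f a b c :=
  ⟨F.p1 a b c, F.p2 a b c, F.p3 a b c, F.p4 a b c, F.p5 a b c⟩

end Tri

lemma expand (a b c : E m) : F.f a b c = ∑ i, ∑ j, ∑ k, a i * (b j * (c k *
    F.f (fun l => if i = l then 1 else 0) (fun l => if j = l then 1 else 0)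
      (fun l => if k = l then 1 else 0))) := by
  have h1 : F.f a = ∑ i, a i • F.f (fun l => if i = l then 1 else 0) :=
    LinearMap.pi_apply_eq_sum_univ F.f a
  rw [h1, LinearMap.sum_apply, LinearMap.sum_apply]
  refine Finset.sum_congr rfl fun i _ => ?_
  have h2 := LinearMap.pi_apply_eq_sum_univ (F.f (fun l => if i = l then 1 else 0)) b
  rw [LinearMap.smul_apply, LinearMap.smul_apply, h2, LinearMap.sum_apply, smul_eq_mul,
    Finset.mul_sum]
  refine Finset.sum_congr rfl fun j _ => ?_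
  have h3 := LinearMap.pi_apply_eq_sum_univ (F.f (fun l => if i = l then 1 else 0)
    (fun l => if j = l then 1 else 0)) c
  rw [LinearMap.smul_apply, h3, smul_eq_mul, Finset.mul_sum, Finset.mul_sum]
  refine Finset.sum_congr rfl fun k _ => ?_
  rw [smul_eq_mul]

lemma tend {X : Type*} {l : Filter X} {a b c : X → E m} {A B C : E m} (ha : Tendsto a l (𝓝 A))
    (hb : Tendsto b l (𝓝 B)) (hc : Tendsto c l (𝓝 C)) :
    Tendsto (fun x => F.f (a x) (b x) (c x)) l (𝓝 (F.f A B C)) := by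
  rw [show (fun x => F.f (a x) (b x) (c x)) = _ from funext fun x => expand F (a x) (b x) (c x),
    expand F A B C]
  refine tendsto_finsetSum _ fun i _ => tendsto_finsetSum _ fun j _ => tendsto_finsetSum _ fun k _ => ?_
  have h1 := (tendsto_pi_nhds.1 ha) i
  have h2 := (tendsto_pi_nhds.1 hb) j
  have h3 := (tendsto_pi_nhds.1 hc) k
  exact h1.mul (h2.mul (h3.mul tendsto_const_nhds))

lemma cont {X : Type*} [TopologicalSpace X] {a b c : X → E m} (ha : Continuous a)
    (hb : Continuous b) (hc : Continuous c) : Continuous fun x => F.f (a x) (b x) (c x) := by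
  rw [continuous_iff_continuousAt]
  intro x
  exact tend F ha.continuousAt hb.continuousAt hc.continuousAt

/-! ### Rational vectors -/

variable (K : Subfield ℝ)

/-- the vectors with coordinates in `K` -/
def Rt (v : E m) : Prop := ∀ i, v i ∈ K

variable {K}

lemma Rt.add {v w : E m} (hv : Rt K v) (hw : Rt K w) : Rt K (v + w) :=
  fun i => K.add_mem (hv i) (hw i)
lemma Rt.sub {v w : E m} (hv : Rt K v) (hw : Rt K w) : Rt K (v - w) :=
  fun i => K.sub_mem (hv i) (hw i)
lemma Rt.smul {v : E m} {t : ℝ} (ht : t ∈ K) (hv : Rt K v) : Rt K (t • v) :=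
  fun i => K.mul_mem ht (hv i)
lemma Rt.neg {v : E m} (hv : Rt K v) : Rt K (-v) := fun i => K.neg_mem (hv i)
lemma Rt.zero : Rt K (0 : E m) := fun _ => K.zero_mem

lemma dense_K : Dense (K : Set ℝ) := by
  refine (Rat.denseRange_cast (𝕜 := ℝ)).mono ?_
  rintro _ ⟨q, rfl⟩
  exact SubfieldClass.ratCast_mem K q

lemma dense_rt : Dense {v : E m | Rt K v} := by
  have : {v : E m | Rt K v} = Set.pi univ fun _ => (K : Set ℝ) := by
    ext v
    simp [Rt]
  rw [this]
  exact dense_pi _ fun _ _ => dense_K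

lemma seq_rt (v : E m) : ∃ u : ℕ → E m, (∀ n, Rt K (u n)) ∧ Tendsto u atTop (𝓝 v) :=
  mem_closure_iff_seq_limit.1 (dense_rt (K := K) v)

lemma seq_K (t : ℝ) : ∃ u : ℕ → ℝ, (∀ n, u n ∈ K) ∧ Tendsto u atTop (𝓝 t) :=
  mem_closure_iff_seq_limit.1 (dense_K (K := K) t)

/-- an open nonempty set contains a rational vector -/
lemma exists_rt {U : Set (E m)} (hU : IsOpen U) (hne : U.Nonempty) : ∃ v ∈ U, Rt K v :=
  (dense_rt (K := K)).inter_open_nonempty U hU hne

variable (K)

/-- rational trilinear forms -/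
def Rat3 : Prop := ∀ a b c, Rt K a → Rt K b → Rt K c → F.f a b c ∈ K

/-- the rational zeros -/
def Z : Set (E m) := {v | Rt K v ∧ F.f v v v = 0}

/-- the closure of the rational zeros -/
def W : Set (E m) := closure (Z F K)

variable {K} {F}

lemma W.zero_of {v : E m} (h : v ∈ W F K) : F.f v v v = 0 := by
  have hc : IsClosed {v : E m | F.f v v v = 0} :=
    isClosed_eq (cont F continuous_id continuous_id continuous_id) continuous_const
  exact closure_minimal (fun v hv => hv.2) hc h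

lemma W.seq {v : E m} (h : v ∈ W F K) : ∃ u : ℕ → E m, (∀ n, u n ∈ Z F K) ∧
    Tendsto u atTop (𝓝 v) := mem_closure_iff_seq_limit.1 h

lemma W.of_seq {v : E m} {u : ℕ → E m} (hu : ∀ᶠ n in atTop, u n ∈ Z F K)
    (h : Tendsto u atTop (𝓝 v)) : v ∈ W F K := mem_closure_of_tendsto h hu

lemma Z.smul {v : E m} {t : ℝ} (ht : t ∈ K) (hv : v ∈ Z F K) : t • v ∈ Z F K := by
  refine ⟨hv.1.smul ht, ?_⟩
  simp only [map_add, map_sub, map_neg, map_smul, map_zero, LinearMap.add_apply,
    LinearMap.sub_apply, LinearMap.neg_apply, LinearMap.smul_apply, LinearMap.zero_apply,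
    smul_eq_mul]
  rw [hv.2]
  ring

lemma W.smul {v : E m} (t : ℝ) (hv : v ∈ W F K) : t • v ∈ W F K := by
  obtain ⟨u, hu, hu'⟩ := W.seq hv
  obtain ⟨s, hs, hs'⟩ := seq_K (K := K) t
  exact W.of_seq (Eventually.of_forall fun n => Z.smul (hs n) (hu n)) (hs'.smul hu')

lemma W.of_smul {v : E m} {t : ℝ} (ht : t ≠ 0) (h : t • v ∈ W F K) : v ∈ W F K := by
  have := W.smul t⁻¹ h
  rwa [smul_smul, inv_mul_cancel₀ ht, one_smul] at this

variable (F)

/-- the third point on a chord -/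
def chord (P R : E m) : E m := F.f P R R • P - F.f P P R • R

/-- the third point on a tangent line -/
def tan' (P v : E m) : E m := F.f v v v • P - (3 * F.f P v v) • v

lemma chord_zero {P R : E m} (hP : F.f P P P = 0) (hR : F.f R R R = 0) :
    F.f (chord F P R) (chord F P R) (chord F P R) = 0 := by
  obtain ⟨e1, e2, e3, e4⟩ := F.n2 P R
  unfold chord
  simp only [map_add, map_sub, map_neg, map_smul, map_zero, LinearMap.add_apply,
    LinearMap.sub_apply, LinearMap.neg_apply, LinearMap.smul_apply, LinearMap.zero_apply,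
    smul_eq_mul]
  rw [e1, e2, e3, e4, hP, hR]
  ring

lemma tan_zero {P v : E m} (hP : F.f P P P = 0) (hv : F.f P P v = 0) :
    F.f (tan' F P v) (tan' F P v) (tan' F P v) = 0 := by
  obtain ⟨e1, e2, e3, e4⟩ := F.n2 P v
  unfold tan'
  simp only [map_add, map_sub, map_neg, map_smul, map_zero, LinearMap.add_apply,
    LinearMap.sub_apply, LinearMap.neg_apply, LinearMap.smul_apply, LinearMap.zero_apply,
    smul_eq_mul]
  rw [e1, e2, e3, e4, hP, hv]
  ring

variable {F}

lemma Z.chord (hF : Rat3 F K) {P R : E m} (hP : P ∈ Z F K) (hR : R ∈ Z F K) :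
    chord F P R ∈ Z F K :=
  ⟨(hP.1.smul (hF _ _ _ hP.1 hR.1 hR.1)).sub (hR.1.smul (hF _ _ _ hP.1 hP.1 hR.1)),
    chord_zero F hP.2 hR.2⟩

lemma W.chord (hF : Rat3 F K) {P R : E m} (hP : P ∈ W F K) (hR : R ∈ W F K) :
    chord F P R ∈ W F K := by
  obtain ⟨u, hu, hu'⟩ := W.seq hP
  obtain ⟨v, hv, hv'⟩ := W.seq hR
  refine W.of_seq (Eventually.of_forall fun n => Z.chord hF (hu n) (hv n)) ?_
  exact ((tend F hu' hv' hv').smul hu').sub ((tend F hu' hu' hv').smul hv')

lemma Z.tan (hF : Rat3 F K) {P v : E m} (hP : P ∈ Z F K) (hv : Rt K v) (h : F.f P P v = 0) :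
    tan' F P v ∈ Z F K := by
  refine ⟨(hP.1.smul (hF _ _ _ hv hv hv)).sub (hv.smul (K.mul_mem ?_ (hF _ _ _ hP.1 hv hv))),
    tan_zero F hP.2 h⟩
  exact_mod_cast SubfieldClass.ratCast_mem K 3

/-- the tangent property -/
def TG (F : Tri m) (K : Subfield ℝ) (S : E m) : Prop :=
  ∀ v, F.f S S v = 0 → F.f v v v = 0 → F.f S v v ≠ 0 → v ∈ W F K

/-- tangent constructions stay in the closure -/
lemma tan_mem (hF : Rat3 F K) {S : E m} (hS : S ∈ W F K) {e : E m} (he : F.f S S e ≠ 0)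
    {v : E m} (h1 : F.f S S v = 0) : tan' F S v ∈ W F K := by
  -- a rational direction
  obtain ⟨e, he, her⟩ : ∃ e ∈ {e : E m | F.f S S e ≠ 0}, Rt K e := by
    refine exists_rt ?_ ⟨e, he⟩
    exact isOpen_ne_fun (cont F continuous_const continuous_const continuous_id) continuous_const
  obtain ⟨u, hu, hu'⟩ := W.seq hS
  obtain ⟨w, hw, hw'⟩ := seq_rt (K := K) v
  set c : ℕ → ℝ := fun n => F.f (u n) (u n) (w n) / F.f (u n) (u n) e with hc
  have hc' : Tendsto c atTop (𝓝 0) := by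
    have h4 : Tendsto c atTop (𝓝 (F.f S S v / F.f S S e)) :=
      (tend F hu' hu' hw').div (tend F hu' hu' tendsto_const_nhds) he
    rwa [h1, zero_div] at h4
  set x : ℕ → E m := fun n => w n - c n • e with hx
  have hx' : Tendsto x atTop (𝓝 v) := by
    have h4 : Tendsto x atTop (𝓝 (v - (0 : ℝ) • e)) := hw'.sub (hc'.smul tendsto_const_nhds)
    rwa [zero_smul, sub_zero] at h4
  have hev : ∀ᶠ n in atTop, F.f (u n) (u n) e ≠ 0 :=
    (tend F hu' hu' (tendsto_const_nhds (x := e))).eventually_ne he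
  refine W.of_seq (u := fun n => tan' F (u n) (x n)) ?_ ?_
  · filter_upwards [hev] with n hn
    refine Z.tan hF (hu n) ((hw n).sub (her.smul ?_)) ?_
    · exact K.div_mem (hF _ _ _ (hu n).1 (hu n).1 (hw n)) (hF _ _ _ (hu n).1 (hu n).1 her)
    · simp only [hx, hc]
      simp only [map_add, map_sub, map_neg, map_smul, map_zero, LinearMap.add_apply,
        LinearMap.sub_apply, LinearMap.neg_apply, LinearMap.smul_apply, LinearMap.zero_apply,
        smul_eq_mul]
      field_simp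
      ring
  · exact ((tend F hx' hx' hx').smul hu').sub
      ((tendsto_const_nhds.mul (tend F hu' hx' hx')).smul hx')

/-- smooth points of the closure have the tangent property -/
lemma tg_of_mem (hF : Rat3 F K) {S : E m} (hS : S ∈ W F K) {e : E m} (he : F.f S S e ≠ 0) :
    TG F K S := by
  intro v h1 h2 h3
  have hmem := tan_mem hF hS he h1
  unfold tan' at hmem
  rw [h2, zero_smul, zero_sub, ← neg_smul] at hmem
  exact W.of_smul (by simpa using h3) hmem

/-- projection from a singular rational point -/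
lemma sing_mem (hF : Rat3 F K) {P : E m} (hP : Rt K P) (hs : ∀ v, F.f P P v = 0) {v : E m}
    (h2 : F.f v v v = 0) (h3 : F.f P v v ≠ 0) : v ∈ W F K := by
  obtain ⟨w, hw, hw'⟩ := seq_rt (K := K) v
  have hmem : (F.f v v v • P - (3 * F.f P v v) • v) ∈ W F K := by
    refine W.of_seq (u := fun n => tan' F P (w n)) ?_ ?_
    · exact Eventually.of_forall fun n => Z.tan hF ⟨hP, hs P⟩ (hw n) (hs _)
    · exact ((tend F hw' hw' hw').smul tendsto_const_nhds).sub
        ((tendsto_const_nhds.mul (tend F tendsto_const_nhds hw' hw')).smul hw')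
  rw [h2, zero_smul, zero_sub, ← neg_smul] at hmem
  exact W.of_smul (by simpa using h3) hmem

/-- smooth interior points of the closure -/
def Int' (F : Tri m) (K : Subfield ℝ) (R : E m) : Prop :=
  F.f R R R = 0 ∧ (∃ e, F.f R R e ≠ 0) ∧ ∀ᶠ Y in 𝓝 R, F.f Y Y Y = 0 → Y ∈ W F K

lemma Int'.mem {R : E m} (h : Int' F K R) : R ∈ W F K := h.2.2.self_of_nhds h.1

/-- **sweeping** -/
theorem sweep {γ : ℝ → E m} (hγ : Continuous γ) (hT : ∀ᶠ t in 𝓝 (0 : ℝ), TG F K (γ t)) {Y : E m}
    (hY : F.f Y Y Y = 0) (hk : F.f (γ 0) Y Y ≠ 0) {χ : ℝ → ℝ} (hχ : ContinuousAt χ 0)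
    (hχ0 : χ 0 ≠ 0) (hψ : ∀ᶠ t in 𝓝 (0 : ℝ), F.f (γ t) (γ t) Y = t * χ t) : Int' F K Y := by
  refine ⟨hY, ⟨γ 0, by rw [(F.n2 (γ 0) Y).2.2.1]; exact hk⟩, ?_⟩
  -- nonvanishing near `(0, Y)`
  have hG : Continuous fun p : ℝ × E m => F.f (γ p.1) p.2 p.2 :=
    cont F (hγ.comp continuous_fst) continuous_snd continuous_snd
  have h1 : ∀ᶠ p : ℝ × E m in 𝓝 (0, Y), F.f (γ p.1) p.2 p.2 ≠ 0 :=
    hG.continuousAt.eventually_ne hk
  rw [nhds_prod_eq] at h1
  obtain ⟨pa, hpa, pb, hpb, hab⟩ := eventually_prod_iff.1 h1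
  have h2 : ∀ᶠ t in 𝓝 (0 : ℝ), 0 < χ t * χ 0 := by
    have : Tendsto (fun t => χ t * χ 0) (𝓝 0) (𝓝 (χ 0 * χ 0)) := hχ.mul tendsto_const_nhds
    exact this.eventually (lt_mem_nhds (mul_self_pos.2 hχ0))
  obtain ⟨s, hs, hall⟩ := Metric.eventually_nhds_iff.1 (hpa.and (hT.and (h2.and hψ)))
  set r := s / 2 with hr
  have hr0 : 0 < r := by positivity
  have hin : ∀ t ∈ Icc (-r) r, dist t 0 < s := by
    intro t ht
    rw [Real.dist_eq, sub_zero]
    have := abs_le.2 ⟨ht.1, ht.2⟩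
    linarith
  have hrp := hall (hin r ⟨by linarith, le_rfl⟩)
  have hrm := hall (hin (-r) ⟨le_rfl, by linarith⟩)
  -- the signs at the end points
  have hsgn : (F.f (γ r) (γ r) Y) * (F.f (γ (-r)) (γ (-r)) Y) < 0 := by
    rw [hrp.2.2.2, hrm.2.2.2]
    have e1 := hrp.2.2.1
    have e2 := hrm.2.2.1
    have e3 : 0 < χ 0 * χ 0 := mul_self_pos.2 hχ0
    have e4 : 0 < (χ r * χ (-r)) * (χ 0 * χ 0) := by
      calc 0 < (χ r * χ 0) * (χ (-r) * χ 0) := mul_pos e1 e2
        _ = _ := by ring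
    have e5 : 0 < χ r * χ (-r) := by
      by_contra hn
      push Not at hn
      nlinarith
    nlinarith [mul_pos (mul_pos hr0 hr0) e5]
  have hcY : ∀ t, Continuous fun Y' : E m => F.f (γ t) (γ t) Y' := fun t =>
    cont F continuous_const continuous_const continuous_id
  have h3 : ∀ᶠ Y' in 𝓝 Y, (F.f (γ r) (γ r) Y') * (F.f (γ (-r)) (γ (-r)) Y') < 0 :=
    (((hcY r).mul (hcY (-r))).tendsto Y).eventually (gt_mem_nhds hsgn)
  filter_upwards [h3, hpb] with Y' hY' hpbY hZ
  -- intermediate value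
  have hc : ContinuousOn (fun t => F.f (γ t) (γ t) Y') (Icc (-r) r) :=
    (cont F hγ hγ continuous_const).continuousOn
  have hex : ∃ t ∈ Icc (-r) r, F.f (γ t) (γ t) Y' = 0 := by
    rcases lt_or_ge (F.f (γ (-r)) (γ (-r)) Y') 0 with hn | hn
    · have hp : 0 < F.f (γ r) (γ r) Y' := by
        by_contra h4
        push Not at h4
        nlinarith
      exact intermediate_value_Icc (by linarith) hc ⟨hn.le, hp.le⟩
    · have hp : F.f (γ r) (γ r) Y' ≤ 0 := by
        by_contra h4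
        push Not at h4
        nlinarith
      exact intermediate_value_Icc' (by linarith) hc ⟨hp, hn⟩
  obtain ⟨t, ht, ht0⟩ := hex
  have hat := hall (hin t ht)
  exact hat.2.1 Y' ht0 hZ (hab hat.1 hpbY)

end Pool.Agent.TH729.CC
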