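import Pool.Agent.TH729.CC.Ann
import Pool.Agent.TH729.CC.Alg

/-!
# Covering rational zeros in dimension at least four (helper729)
-/

set_option autoImplicit false
set_option linter.unusedSimpArgs false
set_option linter.unusedTactic false
set_option linter.unusedSectionVars false

namespace Pool.Agent.TH729.CC

open Set Filter Topology

variable {m : ℕ} {F : Tri m} {K : Subfield ℝ}

/-- coercion of `K`-vectors -/
def co (K : Subfield ℝ) (v : Fin m → K) : E m := fun i => (v i : ℝ)

lemma rt_co (v : Fin m → K) : Rt K (co K v) := fun i => (v i).2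
lemma co_add (v w : Fin m → K) : co K (v + w) = co K v + co K w := by
  ext i
  simp [co]
lemma co_smul (c : K) (v : Fin m → K) : co K (c • v) = (c : ℝ) • co K v := by
  ext i
  simp [co]
lemma co_zero : co K (0 : Fin m → K) = 0 := by
  ext i
  simp [co]
lemma co_inj {v w : Fin m → K} (h : co K v = co K w) : v = w := by
  ext i
  exact congrFun h i
lemma exists_co {v : E m} (hv : Rt K v) : ∃ w : Fin m → K, co K w = v :=
  ⟨fun i => ⟨v i, hv i⟩, by ext i; rfl⟩

/-- the form over `K` -/
noncomputable def FK (F : Tri m) (K : Subfield ℝ) (hF : Rat3 F K) : STri K (Fin m → K) where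
  f := LinearMap.mk₂ K (fun a b =>
      { toFun := fun c => ⟨F.f (co K a) (co K b) (co K c), hF _ _ _ (rt_co a) (rt_co b) (rt_co c)⟩
        map_add' := fun c d => by
          apply Subtype.ext
          simp only [co_add, map_add]
          rfl
        map_smul' := fun c d => by
          apply Subtype.ext
          simp only [co_smul, map_smul]
          rfl })
    (fun a a' b => by
      apply LinearMap.ext
      intro c
      apply Subtype.ext
      change F.f (co K (a + a')) (co K b) (co K c) = F.f (co K a) (co K b) (co K c) +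
        F.f (co K a') (co K b) (co K c)
      rw [co_add]
      simp only [map_add, map_sub, map_neg, map_smul, map_zero, LinearMap.add_apply,
        LinearMap.sub_apply, LinearMap.neg_apply, LinearMap.smul_apply, LinearMap.zero_apply,
        smul_eq_mul])
    (fun t a b => by
      apply LinearMap.ext
      intro c
      apply Subtype.ext
      change F.f (co K (t • a)) (co K b) (co K c) = (t : ℝ) * F.f (co K a) (co K b) (co K c)
      rw [co_smul]
      simp only [map_add, map_sub, map_neg, map_smul, map_zero, LinearMap.add_apply,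
        LinearMap.sub_apply, LinearMap.neg_apply, LinearMap.smul_apply, LinearMap.zero_apply,
        smul_eq_mul])
    (fun a b b' => by
      apply LinearMap.ext
      intro c
      apply Subtype.ext
      change F.f (co K a) (co K (b + b')) (co K c) = F.f (co K a) (co K b) (co K c) +
        F.f (co K a) (co K b') (co K c)
      rw [co_add]
      simp only [map_add, map_sub, map_neg, map_smul, map_zero, LinearMap.add_apply,
        LinearMap.sub_apply, LinearMap.neg_apply, LinearMap.smul_apply, LinearMap.zero_apply,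
        smul_eq_mul])
    (fun t a b => by
      apply LinearMap.ext
      intro c
      apply Subtype.ext
      change F.f (co K a) (co K (t • b)) (co K c) = (t : ℝ) * F.f (co K a) (co K b) (co K c)
      rw [co_smul]
      simp only [map_add, map_sub, map_neg, map_smul, map_zero, LinearMap.add_apply,
        LinearMap.sub_apply, LinearMap.neg_apply, LinearMap.smul_apply, LinearMap.zero_apply,
        smul_eq_mul])
  s12 := fun a b c => Subtype.ext (F.s12 _ _ _)
  s23 := fun a b c => Subtype.ext (F.s23 _ _ _)

lemma FK_apply (hF : Rat3 F K) (a b c : Fin m → K) :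
    (((FK F K hF).f a b c : K) : ℝ) = F.f (co K a) (co K b) (co K c) := rfl

/-- rational zeros are covered by finitely many rational hyperplanes -/
def Cov (F : Tri m) (K : Subfield ℝ) : Prop := ∃ L : Set (Fin m → K), L.Finite ∧
  (∀ a ∈ L, a ≠ 0) ∧ ∀ v ∈ Z F K, ∃ a ∈ L, ∑ i, (a i : ℝ) * v i = 0

/-- no rational hyperplane in the cubic -/
def NH (F : Tri m) (K : Subfield ℝ) : Prop := ∀ a : Fin m → K, a ≠ 0 →
  ∃ v : E m, Rt K v ∧ ∑ i, (a i : ℝ) * v i = 0 ∧ F.f v v v ≠ 0

/-- no rational singular vector -/
def NSg (F : Tri m) (K : Subfield ℝ) : Prop := ∀ P, Rt K P → P ≠ 0 → ∃ v, F.f P P v ≠ 0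

lemma NSg.rt (h : NSg F K) {P : E m} (hP : Rt K P) (h0 : P ≠ 0) :
    ∃ v, Rt K v ∧ F.f P P v ≠ 0 := by
  obtain ⟨v, hv⟩ := h P hP h0
  obtain ⟨w, hw, hw'⟩ := exists_rt (K := K) (U := {v : E m | F.f P P v ≠ 0})
    (isOpen_ne_fun (cont F continuous_const continuous_const continuous_id) continuous_const)
    ⟨v, hv⟩
  exact ⟨w, hw', hw⟩

/-- the identity on the annihilator -/
theorem ann_id (hH : Hyp F K) {P Z e : E m} (hP : P ∈ W F K) (he : F.f P P e ≠ 0)
    (h1 : F.f P P Z = 0) (h2 : F.f Z Z Z = 0) (h3 : F.f P Z Z ≠ 0) {w : E m}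
    (h4 : F.f P P w = 0) (h5 : F.f Z Z w = 0) (v : E m) :
    F.f w w v * F.f P Z Z = F.f P w w * F.f Z Z v := by
  have hz : ∀ u, F.f P P u = 0 → F.f Z Z u = 0 → F.f u u u = 0 := fun u a b =>
    step2 hH hP he h1 h2 h3 a b
  have hN : ∀ a b : ℝ, F.f (a • Z + b • w) (a • Z + b • w) (a • Z + b • w) = 0 := by
    intro a b
    refine hz _ ?_ ?_
    · rw [map_add, map_smul, map_smul, h1, h4]
      simp
    · rw [map_add, map_smul, map_smul, h2, h5]
      simp
  -- the first identity
  have i1 : ∀ v, F.f Z w v * F.f P Z Z = F.f P Z w * F.f Z Z v := by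
    intro v
    have h6 : F.f Z Z (F.f P Z Z • v - F.f Z Z v • P) = 0 := by
      rw [map_sub, map_smul, map_smul, F.p3 P Z Z]
      simp only [smul_eq_mul]
      ring
    have h7 := step4 hH hP he h1 h3 h4 hN h6
    rw [map_sub, map_smul, map_smul, F.p4 P Z w] at h7
    simp only [smul_eq_mul] at h7
    linear_combination h7
  -- a good parameter
  obtain ⟨t, ht1, ht2⟩ : ∃ t : ℝ, F.f P (w + t • Z) (w + t • Z) ≠ 0 ∧ F.f P Z (w + t • Z) ≠ 0 := by
    set a := F.f P Z Z with ha
    set b := F.f P Z w with hb
    set c := F.f P w w with hc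
    set u := 1 + |a * c - b ^ 2| with hu
    refine ⟨(u - b) / a, ?_, ?_⟩
    · intro h0
      have : a * (c + 2 * ((u - b) / a) * b + ((u - b) / a) ^ 2 * a) = 0 := by
        have h8 : F.f P (w + ((u - b) / a) • Z) (w + ((u - b) / a) • Z) =
            c + 2 * ((u - b) / a) * b + ((u - b) / a) ^ 2 * a := by
          rw [ha, hb, hc]
          generalize (u - F.f P Z w) / F.f P Z Z = s
          simp only [map_add, map_sub, map_neg, map_smul, map_zero, LinearMap.add_apply,
            LinearMap.sub_apply, LinearMap.neg_apply, LinearMap.smul_apply, LinearMap.zero_apply,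
            smul_eq_mul, Tri.s12, Tri.s23]
          ring
        rw [← h8, h0, mul_zero]
      field_simp at this
      have h9 : u ^ 2 + (a * c - b ^ 2) = 0 := by
        linear_combination this
      have h10 := neg_abs_le (a * c - b ^ 2)
      have h11 := abs_nonneg (a * c - b ^ 2)
      nlinarith
    · rw [map_add, map_smul, smul_eq_mul, ← ha, ← hb]
      have : b + (u - b) / a * a = u := by
        field_simp
        ring
      rw [this, hu]
      positivity
  set w' := w + t • Z with hw'
  have g1 : F.f P P w' = 0 := by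
    rw [hw', map_add, map_smul, h4, h1]
    simp
  have g2 : F.f Z Z w' = 0 := by
    rw [hw', map_add, map_smul, h5, h2]
    simp
  have hN' : ∀ a b : ℝ, F.f (a • w' + b • Z) (a • w' + b • Z) (a • w' + b • Z) = 0 := by
    intro a b
    refine hz _ ?_ ?_
    · rw [map_add, map_smul, map_smul, h1, g1]
      simp
    · rw [map_add, map_smul, map_smul, h2, g2]
      simp
  have i2 : ∀ v, F.f w' Z v * F.f P w' w' = F.f P Z w' * F.f w' w' v := by
    intro v
    have h6 : F.f w' w' (F.f P w' w' • v - F.f w' w' v • P) = 0 := by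
      rw [map_sub, map_smul, map_smul, F.p3 P w' w']
      simp only [smul_eq_mul]
      ring
    have h7 := step4 hH hP he g1 ht1 h1 hN' h6
    rw [map_sub, map_smul, map_smul, F.p4 P w' Z, F.p2 P Z w'] at h7
    simp only [smul_eq_mul] at h7
    linear_combination h7
  have i3 := i2 v
  have i4 : F.f w' Z v * F.f P Z Z = F.f P Z w' * F.f Z Z v := by
    have h8 := i1 v
    rw [hw']
    clear_value w'
    try simp only [Tri.s12, Tri.s23] at h8
    simp only [map_add, map_sub, map_neg, map_smul, map_zero, LinearMap.add_apply,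
      LinearMap.sub_apply, LinearMap.neg_apply, LinearMap.smul_apply, LinearMap.zero_apply,
      smul_eq_mul, Tri.s12, Tri.s23]
    linear_combination h8
  have i5 : F.f w' w' v * F.f P Z Z = F.f P w' w' * F.f Z Z v := by
    have : F.f P Z w' * (F.f w' w' v * F.f P Z Z - F.f P w' w' * F.f Z Z v) = 0 := by
      linear_combination (-F.f P Z Z) * i3 + F.f P w' w' * i4
    have h8 := (mul_eq_zero.1 this).resolve_left ht2
    linear_combination h8
  have i6 := i1 v
  rw [hw'] at i5
  clear_value w'
  simp only [map_add, map_smul, LinearMap.add_apply, LinearMap.smul_apply, smul_eq_mul,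
    Tri.s12, Tri.s23] at i5 i6
  try simp only [Tri.s12, Tri.s23]
  linear_combination i5 - 2 * t * i6

/-- **Theorem A** -/
theorem thmA (hm : 4 ≤ m) (hH : Hyp F K) (hN : NH F K) (hS : NSg F K) : Cov F K := by
  set T := FK F K hH.rat with hT
  have hrep : ∀ (y : (Fin m → K) →ₗ[K] K) (v : Fin m → K),
      y v = ∑ i, y (fun j => if i = j then 1 else 0) * v i := by
    intro y v
    rw [LinearMap.pi_apply_eq_sum_univ y v]
    refine Finset.sum_congr rfl fun i _ => ?_
    rw [smul_eq_mul, mul_comm]
  have hne : ∀ y : (Fin m → K) →ₗ[K] K, y ≠ 0 →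
      (fun i => y (fun j => if i = j then 1 else 0)) ≠ 0 := by
    intro y hy h0
    apply hy
    apply LinearMap.ext
    intro v
    rw [hrep y v]
    simp only [LinearMap.zero_apply]
    refine Finset.sum_eq_zero fun i _ => ?_
    have := congrFun h0 i
    simp only [Pi.zero_apply] at this
    rw [this, zero_mul]
  have hval : ∀ (y : (Fin m → K) →ₗ[K] K) (v : Fin m → K),
      ((y v : K) : ℝ) = ∑ i, ((y (fun j => if i = j then 1 else 0) : K) : ℝ) * co K v i := by
    intro y v
    rw [hrep y v]
    push_cast
    rfl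
  obtain ⟨L, hL, hL0, hLc⟩ := alg_cover (T := T) (by simpa using hm) (by
      intro x hx
      obtain ⟨v, hv, hv1, hv2⟩ := hN _ (hne x hx)
      obtain ⟨w, rfl⟩ := exists_co hv
      refine ⟨w, ?_, ?_⟩
      · apply Subtype.ext
        rw [hval x w]
        exact hv1
      · intro h0
        apply hv2
        rw [← FK_apply hH.rat, ← hT, h0]
        rfl) (by
      intro P hP
      obtain ⟨v, hv, hv'⟩ := hS.rt (rt_co (K := K) P) (by
        intro h0
        apply hP
        apply co_inj (K := K)
        rw [h0, co_zero])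
      obtain ⟨w, rfl⟩ := exists_co hv
      refine ⟨w, fun h0 => hv' ?_⟩
      rw [← FK_apply hH.rat, ← hT, h0]
      rfl) (by
      intro P w h1 h2 h3
      have k1 : F.f (co K P) (co K P) (co K P) = 0 := by
        rw [← FK_apply hH.rat, ← hT, h1]
        rfl
      have k2 : F.f (co K P) (co K P) (co K w) = 0 := by
        rw [← FK_apply hH.rat, ← hT, h2]
        rfl
      have k3 : F.f (co K P) (co K w) (co K w) ≠ 0 := by
        intro h0
        apply h3
        apply Subtype.ext
        exact h0
      have hP0 : co K P ≠ 0 := by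
        intro h0
        rw [h0] at k3
        simp at k3
      obtain ⟨e, he, he'⟩ := hS.rt (rt_co (K := K) P) hP0
      have hPW : co K P ∈ W F K := subset_closure ⟨rt_co P, k1⟩
      obtain ⟨g1, -, -, -, -, g6⟩ := tan_vals k1 k2
      have g7 := tan_zero F k1 k2
      have gZ := Z.tan hH.rat ⟨rt_co P, k1⟩ (rt_co w) k2
      obtain ⟨z, hz⟩ := exists_co gZ.1
      rw [← hz] at g1 g6 g7
      have g8 : F.f (co K P) (co K z) (co K z) ≠ 0 := by
        rw [← F.p3 (co K P) (co K z) (co K z), g1]
        exact mul_ne_zero (by norm_num) (pow_ne_zero _ k3)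
      have g9 : T.f z z P ≠ 0 := by
        intro h0
        apply g8
        rw [← F.p3 (co K P) (co K z) (co K z), ← FK_apply hH.rat, ← hT, h0]
        rfl
      refine ⟨(T.f z z P)⁻¹ • T.f z z, ?_⟩
      have hform : ∀ u, T.f P P u = 0 → ((T.f z z P)⁻¹ • T.f z z) u = 0 → ∀ v,
          T.f u u v = T.f P u u * ((T.f z z P)⁻¹ • T.f z z) v := by
        intro u hu1 hu2 v
        have j1 : F.f (co K P) (co K P) (co K u) = 0 := by
          rw [← FK_apply hH.rat, ← hT, hu1]
          rfl
        have hu3 : T.f z z u = 0 := by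
          simpa [g9] using hu2
        have j2 : F.f (co K z) (co K z) (co K u) = 0 := by
          rw [← FK_apply hH.rat, ← hT, hu3]
          rfl
        have j3 := ann_id hH hPW he' g6 g7 g8 j1 j2 (co K v)
        rw [← F.p3 (co K P) (co K z) (co K z)] at j3
        have j4 : T.f u u v * T.f z z P = T.f P u u * T.f z z v := by
          apply Subtype.ext
          exact j3
        rw [LinearMap.smul_apply, smul_eq_mul]
        field_simp
        exact j4
      refine ⟨h1, ?_, hform, ?_⟩
      · rw [LinearMap.smul_apply, smul_eq_mul, inv_mul_cancel₀ g9]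
      · intro u hu1 hu2 hu3 hu4
        have := hform u hu1 hu2
        rw [hu4] at this
        obtain ⟨v, hv, hv'⟩ := hS.rt (rt_co (K := K) u) (by
          intro h0
          apply hu3
          apply co_inj (K := K)
          rw [h0, co_zero])
        obtain ⟨v, rfl⟩ := exists_co hv
        apply hv'
        rw [← FK_apply hH.rat, ← hT, this v, zero_mul]
        rfl)
  refine ⟨(fun (y : (Fin m → K) →ₗ[K] K) (i : Fin m) => y (fun j => if i = j then 1 else 0)) '' L,
    hL.image _, ?_, ?_⟩
  · rintro _ ⟨y, hy, rfl⟩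
    exact hne y (hL0 y hy)
  · rintro v ⟨hv, hv'⟩
    obtain ⟨w, rfl⟩ := exists_co hv
    obtain ⟨y, hy, hy'⟩ := hLc w (Subtype.ext hv')
    refine ⟨_, ⟨y, hy, rfl⟩, ?_⟩
    rw [← hval y w, hy']
    rfl

end Pool.Agent.TH729.CC
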